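import Pool.Agent.H492R2.Defs

/-!
ANG: total angle of a Prouhet-Tarry-Escott pattern.
-/

namespace Pool.Agent.H492R2

open Finset

private lemma arctan_eq_arg (a b : ℝ) (ha : 0 < a) :
    Real.arctan (b / a) = Complex.arg (⟨a, b⟩ : ℂ) := by
  have h1 : |Complex.arg (⟨a, b⟩ : ℂ)| < Real.pi / 2 := by
    rw [Complex.abs_arg_lt_pi_div_two_iff]; left; exact ha
  have h2 := Complex.tan_arg (⟨a, b⟩ : ℂ)
  have h3 := abs_lt.1 h1
  rw [← Real.arctan_tan h3.1 h3.2, h2]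

private lemma arctan_split (p y t : ℝ) (hp : 0 < p) (ht : 0 ≤ t) (h : 2 * t ≤ p) :
    Real.arctan (y / (p + t)) = Complex.arg (⟨p, y⟩ : ℂ) +
      (Complex.log (1 + (t : ℂ) / (⟨p, y⟩ : ℂ))).im := by
  have hb : (⟨p, y⟩ : ℂ) ≠ 0 := by
    intro hc
    have := congrArg Complex.re hc
    simp at this
    linarith
  have hnorm : p ≤ ‖(⟨p, y⟩ : ℂ)‖ := by
    have := Complex.re_le_norm (⟨p, y⟩ : ℂ)
    simpa using this
  have hz : ‖(t : ℂ) / (⟨p, y⟩ : ℂ)‖ ≤ 1 / 2 := by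
    rw [norm_div, Complex.norm_real, Real.norm_of_nonneg ht, div_le_iff₀ (by linarith)]
    linarith
  have hre : 0 < (1 + (t : ℂ) / (⟨p, y⟩ : ℂ)).re := by
    have h1 := Complex.abs_re_le_norm ((t : ℂ) / (⟨p, y⟩ : ℂ))
    have h2 := abs_le.1 (h1.trans hz)
    rw [Complex.add_re, Complex.one_re]
    linarith [h2.1]
  have hne : (1 + (t : ℂ) / (⟨p, y⟩ : ℂ)) ≠ 0 := by
    intro hc
    rw [hc] at hre
    simp at hre
  have e1 : (⟨p + t, y⟩ : ℂ) = (⟨p, y⟩ : ℂ) * (1 + (t : ℂ) / (⟨p, y⟩ : ℂ)) := by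
    have : (⟨p, y⟩ : ℂ) * (1 + (t : ℂ) / (⟨p, y⟩ : ℂ)) = (⟨p, y⟩ : ℂ) + (t : ℂ) := by
      field_simp
    rw [this]
    apply Complex.ext <;> simp
  rw [arctan_eq_arg (p + t) y (by linarith), e1, Complex.log_im]
  apply Complex.arg_mul hb hne
  have h1 : |Complex.arg (⟨p, y⟩ : ℂ)| < Real.pi / 2 := by
    rw [Complex.abs_arg_lt_pi_div_two_iff]; left; exact hp
  have h2 : |Complex.arg (1 + (t : ℂ) / (⟨p, y⟩ : ℂ))| < Real.pi / 2 := by
    rw [Complex.abs_arg_lt_pi_div_two_iff]; left; exact hre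
  have h1' := abs_lt.1 h1
  have h2' := abs_lt.1 h2
  constructor
  · linarith [h1'.1, h2'.1]
  · linarith [h1'.2, h2'.2]

private lemma taylor_bd (p y t : ℝ) (hp : 0 < p) (ht : 0 ≤ t) (h : 2 * t ≤ p) (j : ℕ)
    (hj : 1 ≤ j) :
    |(Complex.log (1 + (t : ℂ) / (⟨p, y⟩ : ℂ))).im -
      (Complex.logTaylor j ((t : ℂ) / (⟨p, y⟩ : ℂ))).im| ≤ 2 / 2 ^ j := by
  have hnorm : p ≤ ‖(⟨p, y⟩ : ℂ)‖ := by
    have := Complex.re_le_norm (⟨p, y⟩ : ℂ)
    simpa using this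
  have hz : ‖(t : ℂ) / (⟨p, y⟩ : ℂ)‖ ≤ 1 / 2 := by
    rw [norm_div, Complex.norm_real, Real.norm_of_nonneg ht, div_le_iff₀ (by linarith)]
    linarith
  obtain ⟨n, rfl⟩ : ∃ n, j = n + 1 := ⟨j - 1, by omega⟩
  have h1 := Complex.norm_log_sub_logTaylor_le n (lt_of_le_of_lt hz (by norm_num))
  rw [← Complex.sub_im]
  refine (Complex.abs_im_le_norm _).trans (h1.trans ?_)
  set z := (t : ℂ) / (⟨p, y⟩ : ℂ)
  have h2 : ‖z‖ ^ (n + 1) ≤ (1 / 2) ^ (n + 1) := pow_le_pow_left₀ (norm_nonneg _) hz _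
  have h3 : (1 - ‖z‖)⁻¹ ≤ 2 := by
    rw [inv_le_comm₀ (by linarith) (by norm_num)]
    linarith
  have h4 : 0 ≤ (1 - ‖z‖)⁻¹ := by
    apply inv_nonneg.2; linarith
  calc ‖z‖ ^ (n + 1) * (1 - ‖z‖)⁻¹ / (n + 1) ≤ ‖z‖ ^ (n + 1) * (1 - ‖z‖)⁻¹ / 1 := by
        apply div_le_div_of_nonneg_left _ (by norm_num)
        · have : (0 : ℝ) ≤ n := Nat.cast_nonneg n
          linarith
        · positivity
    _ = ‖z‖ ^ (n + 1) * (1 - ‖z‖)⁻¹ := by rw [div_one]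
    _ ≤ (1 / 2) ^ (n + 1) * 2 := by
        apply mul_le_mul h2 h3 h4 (by positivity)
    _ = 2 / 2 ^ (n + 1) := by
        rw [one_div, inv_pow]
        field_simp

private lemma taylor_sum (β : ℂ) (r j : ℕ) (A B : Finset ℕ)
    (hAB : ∀ l < j, ∑ x ∈ A, x ^ l = ∑ x ∈ B, x ^ l) :
    ∑ x ∈ A, Complex.logTaylor j ((((r : ℝ) * x : ℝ) : ℂ) / β) =
      ∑ x ∈ B, Complex.logTaylor j ((((r : ℝ) * x : ℝ) : ℂ) / β) := by
  have key : ∀ S : Finset ℕ, ∑ x ∈ S, Complex.logTaylor j ((((r : ℝ) * x : ℝ) : ℂ) / β) =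
      ∑ l ∈ range j, ((-1) ^ (l + 1) * ((r : ℂ) / β) ^ l / l) * ((∑ x ∈ S, x ^ l : ℕ) : ℂ) := by
    intro S
    unfold Complex.logTaylor
    rw [Finset.sum_comm]
    apply Finset.sum_congr rfl
    intro l _
    push_cast
    rw [Finset.mul_sum]
    apply Finset.sum_congr rfl
    intro x _
    rw [show (r : ℂ) * x / β = (r : ℂ) / β * x by ring, mul_pow]
    ring
  rw [key A, key B]
  apply Finset.sum_congr rfl
  intro l hl
  rw [hAB l (Finset.mem_range.1 hl)]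

/-- ANG: total angle of a Prouhet-Tarry-Escott pattern. -/
theorem angle_small (p y : ℝ) (hp : 0 < p) (r X j : ℕ) (hj : 1 ≤ j)
    (A B : Finset ℕ) (hA : A ⊆ range X) (hB : B ⊆ range X)
    (hAB : ∀ l < j, ∑ x ∈ A, x ^ l = ∑ x ∈ B, x ^ l) (h : 2 * (r : ℝ) * X ≤ p) :
    |∑ x ∈ A, Real.arctan (y / (p + r * x)) - ∑ x ∈ B, Real.arctan (y / (p + r * x))| ≤
      4 * X / 2 ^ j := by
  set β : ℂ := ⟨p, y⟩ with hβ
  set E : ℕ → ℝ := fun x => (Complex.log (1 + (((r : ℝ) * x : ℝ) : ℂ) / β)).im -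
      (Complex.logTaylor j ((((r : ℝ) * x : ℝ) : ℂ) / β)).im with hE
  have key : ∀ S : Finset ℕ, S ⊆ range X →
      ∑ x ∈ S, Real.arctan (y / (p + r * x)) = (S.card : ℝ) * Complex.arg β +
        (∑ x ∈ S, Complex.logTaylor j ((((r : ℝ) * x : ℝ) : ℂ) / β)).im + ∑ x ∈ S, E x ∧
      |∑ x ∈ S, E x| ≤ X * (2 / 2 ^ j) := by
    intro S hS
    have hx : ∀ x ∈ S, 0 ≤ (r : ℝ) * x ∧ 2 * ((r : ℝ) * x) ≤ p := by
      intro x hx
      have h1 : x < X := Finset.mem_range.1 (hS hx)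
      have h2 : (x : ℝ) ≤ X := by exact_mod_cast h1.le
      refine ⟨by positivity, ?_⟩
      have h3 : (r : ℝ) * x ≤ r * X := mul_le_mul_of_nonneg_left h2 (Nat.cast_nonneg r)
      linarith
    constructor
    · rw [Complex.im_sum, ← nsmul_eq_mul, ← Finset.sum_const, ← Finset.sum_add_distrib,
        ← Finset.sum_add_distrib]
      apply Finset.sum_congr rfl
      intro x hxS
      rw [arctan_split p y ((r : ℝ) * x) hp (hx x hxS).1 (hx x hxS).2]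
      simp only [hE, hβ]
      ring
    · calc |∑ x ∈ S, E x| ≤ ∑ x ∈ S, |E x| := Finset.abs_sum_le_sum_abs _ _
        _ ≤ ∑ x ∈ S, (2 / 2 ^ j : ℝ) := by
            apply Finset.sum_le_sum
            intro x hxS
            exact taylor_bd p y ((r : ℝ) * x) hp (hx x hxS).1 (hx x hxS).2 j hj
        _ = S.card * (2 / 2 ^ j) := by rw [Finset.sum_const, nsmul_eq_mul]
        _ ≤ X * (2 / 2 ^ j) := by
            apply mul_le_mul_of_nonneg_right _ (by positivity)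
            have := Finset.card_le_card hS
            rw [Finset.card_range] at this
            exact_mod_cast this
  obtain ⟨a1, a2⟩ := key A hA
  obtain ⟨b1, b2⟩ := key B hB
  have hc : A.card = B.card := by
    have := hAB 0 (by omega)
    simpa using this
  rw [a1, b1, taylor_sum β r j A B hAB, hc]
  have e : ((B.card : ℝ) * Complex.arg β +
      (∑ x ∈ B, Complex.logTaylor j ((((r : ℝ) * x : ℝ) : ℂ) / β)).im + ∑ x ∈ A, E x) -
      ((B.card : ℝ) * Complex.arg β +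
      (∑ x ∈ B, Complex.logTaylor j ((((r : ℝ) * x : ℝ) : ℂ) / β)).im + ∑ x ∈ B, E x) =
      ∑ x ∈ A, E x - ∑ x ∈ B, E x := by ring
  rw [e]
  calc |∑ x ∈ A, E x - ∑ x ∈ B, E x| ≤ |∑ x ∈ A, E x| + |∑ x ∈ B, E x| := abs_sub _ _
    _ ≤ X * (2 / 2 ^ j) + X * (2 / 2 ^ j) := add_le_add a2 b2
    _ = 4 * X / 2 ^ j := by ring

end Pool.Agent.H492R2
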