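import Pool.Agent.H358R2.Count

/-!
Positive signs are plentiful: in a Farey triangle `a, b, a + b` the product of the three edge
signs is one.
-/

namespace Pool.Agent.H492R2

open Finset Pool.Agent.H358R2

theorem sum_inv_sq_le (X : ℕ) (hX : 2 ≤ X) :
    ∑ d ∈ Icc 2 X, (1 : ℝ) / (d : ℝ) ^ 2 ≤ 3 / 4 - 1 / X := by
  induction X, hX using Nat.le_induction with
  | base => norm_num
  | succ n hn ih =>
    rw [Finset.sum_Icc_succ_top (by omega)]
    have hn0 : (0 : ℝ) < n := by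
      have : 0 < n := by omega
      exact_mod_cast this
    have h1 : (1 : ℝ) / ((n + 1 : ℕ) : ℝ) ^ 2 ≤ 1 / n - 1 / ((n + 1 : ℕ) : ℝ) := by
      push_cast
      rw [div_sub_div _ _ hn0.ne' (by positivity), div_le_div_iff₀ (by positivity) (by positivity)]
      nlinarith
    linarith

/-- coprime pairs -/
def CP (X : ℕ) : Finset (ℕ × ℕ) :=
  (Icc 1 X ×ˢ Icc 1 X).filter fun p => Nat.Coprime p.1 p.2

theorem card_CP (X : ℕ) : (X : ℝ) ^ 2 / 4 ≤ ((CP X).card : ℝ) := by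
  have htot : (CP X).card + ((Icc 1 X ×ˢ Icc 1 X).filter fun p => ¬ Nat.Coprime p.1 p.2).card =
      X * X := by
    unfold CP
    rw [Finset.card_filter_add_card_filter_not, Finset.card_product, Nat.card_Icc]
    simp
  have hsub : ((Icc 1 X ×ˢ Icc 1 X).filter fun p => ¬ Nat.Coprime p.1 p.2) ⊆
      (Icc 2 X).biUnion fun d => ((Ioc 0 X).filter fun x => d ∣ x) ×ˢ
        ((Ioc 0 X).filter fun x => d ∣ x) := by
    intro p hp
    rw [Finset.mem_filter, Finset.mem_product, Finset.mem_Icc, Finset.mem_Icc] at hp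
    obtain ⟨⟨⟨h1, h2⟩, h3, h4⟩, h5⟩ := hp
    have hg : Nat.gcd p.1 p.2 ≠ 1 := h5
    have hg0 : 0 < Nat.gcd p.1 p.2 := Nat.gcd_pos_of_pos_left _ h1
    have hgX : Nat.gcd p.1 p.2 ≤ X := (Nat.gcd_le_left _ h1).trans h2
    rw [Finset.mem_biUnion]
    refine ⟨Nat.gcd p.1 p.2, ?_, ?_⟩
    · rw [Finset.mem_Icc]; omega
    · rw [Finset.mem_product, Finset.mem_filter, Finset.mem_filter, Finset.mem_Ioc,
        Finset.mem_Ioc]
      exact ⟨⟨⟨h1, h2⟩, Nat.gcd_dvd_left _ _⟩, ⟨h3, h4⟩, Nat.gcd_dvd_right _ _⟩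
  have hcard : ((Icc 1 X ×ˢ Icc 1 X).filter fun p => ¬ Nat.Coprime p.1 p.2).card ≤
      ∑ d ∈ Icc 2 X, (X / d) * (X / d) := by
    refine (Finset.card_le_card hsub).trans (Finset.card_biUnion_le.trans ?_)
    refine Finset.sum_le_sum fun d _ => ?_
    rw [Finset.card_product, Nat.Ioc_filter_dvd_card_eq_div]
  have hreal : (((Icc 1 X ×ˢ Icc 1 X).filter fun p => ¬ Nat.Coprime p.1 p.2).card : ℝ) ≤
      3 / 4 * (X : ℝ) ^ 2 := by
    have h1 : (((Icc 1 X ×ˢ Icc 1 X).filter fun p => ¬ Nat.Coprime p.1 p.2).card : ℝ) ≤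
        ((∑ d ∈ Icc 2 X, (X / d) * (X / d) : ℕ) : ℝ) := by exact_mod_cast hcard
    refine h1.trans ?_
    rcases Nat.lt_or_ge X 2 with hX | hX
    · rw [Finset.Icc_eq_empty (by omega)]
      simp only [Finset.sum_empty, Nat.cast_zero]
      positivity
    push_cast
    have h2 : ∑ d ∈ Icc 2 X, (((X / d : ℕ) : ℝ)) * (((X / d : ℕ) : ℝ)) ≤
        ∑ d ∈ Icc 2 X, (X : ℝ) ^ 2 * (1 / (d : ℝ) ^ 2) := by
      refine Finset.sum_le_sum fun d hd => ?_
      have hd2 := (Finset.mem_Icc.1 hd).1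
      have h3 : ((X / d : ℕ) : ℝ) ≤ (X : ℝ) / d := Nat.cast_div_le
      calc ((X / d : ℕ) : ℝ) * ((X / d : ℕ) : ℝ) ≤ ((X : ℝ) / d) * ((X : ℝ) / d) :=
            mul_le_mul h3 h3 (Nat.cast_nonneg _) (by positivity)
        _ = (X : ℝ) ^ 2 * (1 / (d : ℝ) ^ 2) := by ring
    refine h2.trans ?_
    rw [← Finset.mul_sum, mul_comm]
    refine mul_le_mul_of_nonneg_right ?_ (by positivity)
    have := sum_inv_sq_le X hX
    have h4 : (0 : ℝ) ≤ 1 / X := by positivity
    linarith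
  have htot' : ((CP X).card : ℝ) +
      (((Icc 1 X ×ˢ Icc 1 X).filter fun p => ¬ Nat.Coprime p.1 p.2).card : ℝ) = X ^ 2 := by
    rw [pow_two]; exact_mod_cast htot
  linarith

/-- every primitive vector is a mediant -/
theorem exists_mediant (x y : ℕ) (hx : 1 ≤ x) (hy : 1 ≤ y) (h : Nat.Coprime x y) :
    ∃ a b : ℕ × ℕ, Edge a b ∧ a + b = (x, y) := by
  rcases Nat.lt_or_ge 1 x with h1 | h1
  · obtain ⟨m, hm, hmod⟩ := Nat.exists_mul_mod_eq_one_of_coprime h.symm h1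
    have hdm := Nat.div_add_mod (y * m) x
    rw [hmod] at hdm
    have hlt : y * m / x < y := by
      rw [Nat.div_lt_iff_lt_mul (by omega)]
      exact Nat.mul_lt_mul_of_pos_left hm (by omega)
    obtain ⟨k, hk⟩ := Nat.exists_eq_add_of_lt hm
    obtain ⟨l, hl⟩ := Nat.exists_eq_add_of_lt hlt
    generalize hq : y * m / x = q at *
    refine ⟨(m, q), (k + 1, l + 1), ?_, ?_⟩
    · unfold Edge
      show m * (l + 1) = q * (k + 1) + 1
      have e1 : x * q + 1 = y * m := hdm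
      have e2 : x = m + k + 1 := hk
      have e3 : y = q + l + 1 := hl
      rw [e2] at e1
      rw [e3] at e1
      nlinarith
    · ext
      · show m + (k + 1) = x
        omega
      · show q + (l + 1) = y
        omega
  · have hx1 : x = 1 := by omega
    subst hx1
    refine ⟨(1, y - 1), (0, 1), ?_, ?_⟩
    · simp [Edge]
    · ext
      · rfl
      · show y - 1 + 1 = y
        omega

/-- one of the three edges of a Farey triangle has positive sign -/
theorem triangle (h : ℕ → ℤ) (H : CM h) (d : QF) {a b : ℕ × ℕ} (hE : Edge a b) :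
    h (d.f (ip d a b)) = 1 ∨ h (d.f (ip d a (a + b))) = 1 ∨ h (d.f (ip d (a + b) b)) = 1 := by
  have ha : nm d a ≠ 0 := nm_pos_of_sz (edge_sz_pos hE).1
  have hb : nm d b ≠ 0 := nm_pos_of_sz (edge_sz_pos hE).2
  have hab : nm d (a + b) ≠ 0 := nm_pos_of_sz (edge_sz_pos (edge_add_right hE)).2
  rw [← edge_nm d hE, ← edge_nm d (edge_add_right hE), ← edge_nm d (edge_add_left hE),
    H.mul _ _ ha hb, H.mul _ _ ha hab, H.mul _ _ hab hb]
  rcases H.pm _ ha with e1 | e1 <;> rcases H.pm _ hb with e2 | e2 <;>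
    rcases H.pm _ hab with e3 | e3 <;> rw [e1, e2, e3] <;> norm_num

/-- PLUS : positive signs are always plentiful (in a Farey triangle `a, b, a + b` the product of
the three edge signs is one). -/
theorem plus_many (h : ℕ → ℤ) (H : CM h) (d : QF) : ∃ c : ℝ, 0 < c ∧ ∃ Q0 : ℕ, ∀ Q : ℕ, Q0 ≤ Q →
    c * (Q : ℝ) ^ 2 ≤ ((∑ N ∈ (range (4 * d.M * Q ^ 2 + 1)).filter (fun N => h (d.f N) = 1),
      (d.f N).divisors.card : ℕ) : ℝ) := by
  refine ⟨1 / 108, by norm_num, 2, fun Q hQ => ?_⟩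
  have hex : ∀ v ∈ CP (Q / 2), ∃ p : (ℕ × ℕ) × (ℕ × ℕ), Edge p.1 p.2 ∧
      h (d.f (ip d p.1 p.2)) = 1 ∧ sz p.1 ≤ Q ∧ sz p.2 ≤ Q ∧
      (v = p.1 + p.2 ∨ v = p.1 ∨ v = p.2) := by
    intro v hv
    unfold CP at hv
    rw [Finset.mem_filter, Finset.mem_product, Finset.mem_Icc, Finset.mem_Icc] at hv
    obtain ⟨⟨⟨h1, h2⟩, h3, h4⟩, h5⟩ := hv
    obtain ⟨a, b, hE, hab⟩ := exists_mediant v.1 v.2 h1 h3 h5
    have hv' : a + b = v := hab
    have hsv : sz a + sz b ≤ Q := by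
      rw [← sz_add, hv']
      unfold sz
      omega
    have hsv' : sz (a + b) ≤ Q := by rw [sz_add]; exact hsv
    rcases triangle h H d hE with e | e | e
    · exact ⟨(a, b), hE, e, by simp only; omega, by simp only; omega, Or.inl hv'.symm⟩
    · exact ⟨(a, a + b), edge_add_right hE, e, by simp only; omega, hsv',
        Or.inr (Or.inr hv'.symm)⟩
    · exact ⟨(a + b, b), edge_add_left hE, e, hsv', by simp only; omega,
        Or.inr (Or.inl hv'.symm)⟩
  choose! g hg using hex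
  have himg : ((CP (Q / 2)).image g) ⊆
      ((range (4 * d.M * Q ^ 2 + 1)).filter (fun N => h (d.f N) = 1)).biUnion
        fun N => edgesF d Q N := by
    intro p hp
    obtain ⟨v, hv, rfl⟩ := Finset.mem_image.1 hp
    obtain ⟨hE, hs, h1, h2, _⟩ := hg v hv
    rw [Finset.mem_biUnion]
    refine ⟨ip d (g v).1 (g v).2, ?_, mem_edgesF.2 ⟨hE, rfl, h1, h2⟩⟩
    rw [Finset.mem_filter, Finset.mem_range]
    refine ⟨?_, hs⟩
    have h3 := ip_le_sz (d := d) (g v).1 (g v).2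
    have h4 : sz (g v).1 * sz (g v).2 ≤ Q * Q := Nat.mul_le_mul h1 h2
    have h5 : d.M * (sz (g v).1 * sz (g v).2) ≤ d.M * (Q * Q) := Nat.mul_le_mul_left _ h4
    have h6 : 4 * d.M * Q ^ 2 = 4 * (d.M * (Q * Q)) := by ring
    rw [h6]
    omega
  have hfib : (CP (Q / 2)).card ≤ 3 * ((CP (Q / 2)).image g).card := by
    refine Finset.card_le_mul_card_image _ 3 fun p _ => ?_
    refine (Finset.card_le_card (t := {p.1 + p.2, p.1, p.2}) ?_).trans Finset.card_le_three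
    intro v hv
    obtain ⟨hv1, hv2⟩ := Finset.mem_filter.1 hv
    have := (hg v hv1).2.2.2.2
    rw [hv2] at this
    simp only [Finset.mem_insert, Finset.mem_singleton]
    exact this
  have hsum : ((CP (Q / 2)).image g).card ≤
      ∑ N ∈ (range (4 * d.M * Q ^ 2 + 1)).filter (fun N => h (d.f N) = 1),
        (d.f N).divisors.card := by
    refine (Finset.card_le_card himg).trans (Finset.card_biUnion_le.trans ?_)
    exact Finset.sum_le_sum fun N _ => card_edgesF Q N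
  have h1 := card_CP (Q / 2)
  have h2 : ((CP (Q / 2)).card : ℝ) ≤ 3 * ((∑ N ∈ (range (4 * d.M * Q ^ 2 + 1)).filter
      (fun N => h (d.f N) = 1), (d.f N).divisors.card : ℕ) : ℝ) := by
    exact_mod_cast hfib.trans (Nat.mul_le_mul_left 3 hsum)
  have h3 : (Q : ℝ) ≤ 3 * ((Q / 2 : ℕ) : ℝ) := by
    have : Q ≤ 3 * (Q / 2) := by omega
    exact_mod_cast this
  have h4 : (0 : ℝ) ≤ Q := Nat.cast_nonneg _
  nlinarith

end Pool.Agent.H492R2
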