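import Pool.Agent.H492R2.Large
import Pool.Agent.H492R2.PLUS
import Pool.Agent.H508R2.H492_SQF
import Pool.Agent.H359R2.MainOne

/-!
Both parities for `n ^ 2 + 1`.
-/

namespace Pool.Agent.H492R2

open Finset Pool.Agent.H358R2

/-- the `n ≤ N` with positive sign -/
noncomputable def PF (h : ℕ → ℤ) (d : QF) (N : ℕ) : Finset ℕ :=
  (range (N + 1)).filter fun n => h (d.f n) = 1

theorem PF_large {h : ℕ → ℤ} (H : CM h) (d : QF) : ∃ N0 : ℕ, ∀ N : ℕ, N0 ≤ N →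
      (N : ℝ) / (Real.log N) ^ 33 ≤ ((PF h d N).card : ℝ) := by
  obtain ⟨c, hc, Q0, hplus⟩ := plus_many h H d
  obtain ⟨Cm, hCm, hmom⟩ := moment d
  have hM := d.M_pos
  have hMr : (1 : ℝ) ≤ d.M := by exact_mod_cast hM
  obtain ⟨E, hE⟩ : ∃ E : ℝ, E = 256 * (d.M : ℝ) ^ 2 * Cm / c ^ 2 := ⟨_, rfl⟩
  have hE0 : 0 ≤ E := by rw [hE]; positivity
  have hev2 : ∀ᶠ x : ℝ in Filter.atTop, E + 1 ≤ Real.log x :=
    Real.tendsto_log_atTop.eventually_ge_atTop (E + 1)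
  obtain ⟨x1, hx1⟩ := Filter.eventually_atTop.mp hev2
  refine ⟨⌈x1⌉₊ + 3 + 4 * d.M * (Q0 + 1) ^ 2, ?_⟩
  intro N hN
  have hxN : x1 ≤ (N : ℝ) := by
    calc x1 ≤ (⌈x1⌉₊ : ℝ) := Nat.le_ceil _
      _ ≤ N := by exact_mod_cast (by omega : ⌈x1⌉₊ ≤ N)
  have hB := hx1 N hxN
  obtain ⟨L, hL⟩ : ∃ L, L = Real.log N := ⟨_, rfl⟩
  rw [← hL] at hB ⊢
  have hLpos : 0 < L := by linarith
  have hNpos : (0 : ℝ) < N := by
    have : 0 < N := by omega
    exact_mod_cast this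
  obtain ⟨Q, hQ⟩ : ∃ Q, Q = Nat.sqrt (N / (4 * d.M)) := ⟨_, rfl⟩
  have h4M : 0 < 4 * d.M := by omega
  have hQle : Q ^ 2 ≤ N / (4 * d.M) := by rw [hQ, pow_two]; exact Nat.sqrt_le _
  have hQlt : N / (4 * d.M) < (Q + 1) ^ 2 := by rw [hQ, pow_two]; exact Nat.lt_succ_sqrt _
  have hdiv : (Q0 + 1) ^ 2 ≤ N / (4 * d.M) := by
    rw [Nat.le_div_iff_mul_le h4M, mul_comm]; omega
  have hQQ0 : Q0 + 1 ≤ Q := by
    by_contra hlt
    push Not at hlt
    have h1 : (Q + 1) ^ 2 ≤ (Q0 + 1) ^ 2 := Nat.pow_le_pow_left hlt 2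
    omega
  have hMQ : 4 * d.M * Q ^ 2 ≤ N := (Nat.mul_le_mul_left _ hQle).trans (Nat.mul_div_le N _)
  have hNQ : N < 16 * d.M * Q ^ 2 := by
    have h1 : N < 4 * d.M * (Q + 1) ^ 2 := by
      rw [mul_comm]; exact (Nat.div_lt_iff_lt_mul h4M).1 hQlt
    have h2 : (Q + 1) ^ 2 ≤ (2 * Q) ^ 2 := Nat.pow_le_pow_left (by omega) 2
    calc N < 4 * d.M * (Q + 1) ^ 2 := h1
      _ ≤ 4 * d.M * (2 * Q) ^ 2 := Nat.mul_le_mul_left _ h2
      _ = 16 * d.M * Q ^ 2 := by ring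
  have hNQR : (N : ℝ) ≤ 16 * d.M * (Q : ℝ) ^ 2 := by exact_mod_cast hNQ.le
  have hp := hplus Q (by omega)
  obtain ⟨S, hS⟩ : ∃ S : ℝ, S = ∑ n ∈ PF h d N, ((d.f n).divisors.card : ℝ) := ⟨_, rfl⟩
  have hcS : c * (Q : ℝ) ^ 2 ≤ S := by
    refine hp.trans ?_
    rw [hS]
    push_cast
    apply sum_le_sum_of_subset_of_nonneg
    · intro n hn
      unfold PF
      rw [mem_filter, mem_range] at hn ⊢
      exact ⟨by omega, hn.2⟩
    · intro n _ _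
      positivity
  have hCS : S ^ 2 ≤ ((PF h d N).card : ℝ) * (Cm * N * L ^ 32) := by
    rw [hS]
    calc (∑ n ∈ PF h d N, ((d.f n).divisors.card : ℝ)) ^ 2
        ≤ ((PF h d N).card : ℝ) * ∑ n ∈ PF h d N, ((d.f n).divisors.card : ℝ) ^ 2 :=
          sq_sum_le_card_mul_sum_sq
      _ ≤ ((PF h d N).card : ℝ) * ∑ n ∈ range (N + 1), ((d.f n).divisors.card : ℝ) ^ 2 := by
          apply mul_le_mul_of_nonneg_left _ (by positivity)
          apply sum_le_sum_of_subset_of_nonneg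
          · exact filter_subset _ _
          · intro n _ _
            positivity
      _ ≤ ((PF h d N).card : ℝ) * (Cm * N * L ^ 32) := by
          apply mul_le_mul_of_nonneg_left _ (by positivity)
          rw [hL]
          exact hmom N (by omega)
  have hSlow : c * (N : ℝ) / (16 * d.M) ≤ S := by
    refine le_trans ?_ hcS
    rw [div_le_iff₀ (by positivity)]
    nlinarith
  have hS2 : (c * (N : ℝ) / (16 * d.M)) ^ 2 ≤ ((PF h d N).card : ℝ) * (Cm * N * L ^ 32) :=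
    (pow_le_pow_left₀ (by positivity) hSlow 2).trans hCS
  by_contra hcon
  push Not at hcon
  have h1 : (c * (N : ℝ) / (16 * d.M)) ^ 2 < ((N : ℝ) / L ^ 33) * (Cm * N * L ^ 32) :=
    lt_of_le_of_lt hS2 (mul_lt_mul_of_pos_right hcon (by positivity))
  have h2 : ((N : ℝ) / L ^ 33) * (Cm * N * L ^ 32) = Cm * (N : ℝ) ^ 2 / L := by
    field_simp
  have h3 : (c * (N : ℝ) / (16 * d.M)) ^ 2 = c ^ 2 / (256 * (d.M : ℝ) ^ 2) * (N : ℝ) ^ 2 := by
    field_simp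
    ring
  rw [h2, h3, lt_div_iff₀ hLpos] at h1
  have h4 : Cm * (N : ℝ) ^ 2 ≤ c ^ 2 / (256 * (d.M : ℝ) ^ 2) * (N : ℝ) ^ 2 * L := by
    have h5 : Cm ≤ c ^ 2 / (256 * (d.M : ℝ) ^ 2) * L := by
      have h6 : E ≤ L := by linarith
      rw [hE, div_le_iff₀ (by positivity)] at h6
      rw [div_mul_eq_mul_div, le_div_iff₀ (by positivity)]
      linarith
    calc Cm * (N : ℝ) ^ 2 ≤ (c ^ 2 / (256 * (d.M : ℝ) ^ 2) * L) * (N : ℝ) ^ 2 :=
          mul_le_mul_of_nonneg_right h5 (by positivity)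
      _ = _ := by ring
  linarith

open Classical in
/-- the sign attached to a set of primes -/
noncomputable def hh (S : Set ℕ) (n : ℕ) : ℤ := if H359R2.fS S n = 0 then 1 else -1

theorem hh_CM (S : Set ℕ) : CM (hh S) := by
  classical
  refine ⟨?_, ?_⟩
  · intro m n hm hn
    unfold hh
    rw [H359R2.fS_mul S m n hm hn]
    generalize H359R2.fS S m = x
    generalize H359R2.fS S n = y
    revert x y
    decide
  · intro m _
    unfold hh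
    split_ifs
    · left; rfl
    · right; rfl

/-- `x ^ 2 + 1` -/
def d1 : QF := ⟨0, 1, by norm_num⟩

theorem d1_f (n : ℕ) : d1.f n = n ^ 2 + 1 := by
  unfold QF.f d1
  simp

theorem fS_mod (S : Set ℕ) (n : ℕ) (hn : n ≠ 0) (k : ℕ)
    (hk : H359R2.fS S n = ((k : ℕ) : ZMod 2)) : (hh S n = 1 ↔ k % 2 = 0) := by
  classical
  unfold hh
  rw [hk]
  have h1 : ((k : ℕ) : ZMod 2) = 0 ↔ k % 2 = 0 := by
    rw [ZMod.natCast_eq_zero_iff]
    exact Nat.dvd_iff_mod_eq_zero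
  by_cases h : k % 2 = 0
  · rw [if_pos (h1.2 h)]
    simp [h]
  · rw [if_neg (fun e => h (h1.1 e))]
    simp only [h, iff_false]
    norm_num

theorem main_both (S : Set ℕ) (hS : ∃ p ∈ S, p.Prime ∧ p % 4 ≠ 3) (e : ℕ) (he : e < 2) :
    ∃ N0 : ℕ, ∀ N : ℕ, N0 ≤ N → (N : ℝ) / Real.log N ^ 233 ≤
      (Set.ncard {n : ℕ | n ≤ N ∧ ∃ s m : ℕ, n ^ 2 + 1 = s ^ 2 * m ∧ Squarefree m ∧
        (s : ℝ) ≤ Real.log N ^ 238 ∧
        Set.ncard {p : ℕ | p.Prime ∧ p ∣ m ∧ p ∈ S} % 2 = e} : ℝ) := by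
  classical
  obtain ⟨p, hpS, hp, hp4⟩ := hS
  have : Fact p.Prime := ⟨hp⟩
  obtain ⟨a, b, hab⟩ := Nat.Prime.sq_add_sq hp4
  have ha : 1 ≤ a := by
    by_contra h0
    have h1 : a = 0 := by omega
    rw [h1] at hab
    have h2 : p = b ^ 2 := by rw [← hab]; ring
    rw [h2] at hp
    exact Nat.Prime.not_prime_pow (le_refl 2) hp
  have hb : 1 ≤ b := by
    by_contra h0
    have h1 : b = 0 := by omega
    rw [h1] at hab
    have h2 : p = a ^ 2 := by rw [← hab]; ring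
    rw [h2] at hp
    exact Nat.Prime.not_prime_pow (le_refl 2) hp
  have hpi : hh S (nm d1 (a, b)) = -1 := by
    have h1 : nm d1 (a, b) = p := by
      rw [← hab]
      unfold nm d1
      simp
    rw [h1]
    unfold hh
    rw [H359R2.fS_prime hp hpS, if_neg one_ne_zero]
  obtain ⟨v, hv⟩ : ∃ v : ℤ, v = if e = 0 then 1 else -1 := ⟨_, rfl⟩
  have hP : ∃ N0 : ℕ, ∀ N : ℕ, N0 ≤ N → (N : ℝ) / (Real.log N) ^ 232 ≤
      ((Set.ncard {n : ℕ | n ≤ N ∧ hh S (n ^ 2 + 1) = v} : ℕ) : ℝ) := by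
    by_cases he0 : e = 0
    · rw [if_pos he0] at hv
      obtain ⟨N0, hN0⟩ := PF_large (hh_CM S) d1
      refine ⟨N0 + 3, ?_⟩
      intro N hN
      have h1 := hN0 N (by omega)
      have h2 : {n : ℕ | n ≤ N ∧ hh S (n ^ 2 + 1) = v} = ((PF (hh S) d1 N : Finset ℕ) : Set ℕ) := by
        ext n
        unfold PF
        rw [Finset.mem_coe, mem_filter, mem_range, d1_f, hv, Set.mem_ofPred_eq, Nat.lt_succ_iff]
      rw [h2, Set.ncard_coe_finset]
      refine le_trans ?_ h1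
      have hlog : 1 ≤ Real.log N := by
        have h3 : Real.exp 1 ≤ N := by
          have := Real.exp_one_lt_d9
          have h4 : (3 : ℝ) ≤ N := by exact_mod_cast (by omega : 3 ≤ N)
          linarith
        have := Real.log_le_log (Real.exp_pos 1) h3
        rwa [Real.log_exp] at this
      apply div_le_div_of_nonneg_left (Nat.cast_nonneg _) (by positivity)
      exact pow_le_pow_right₀ hlog (by norm_num)
    · rw [if_neg he0] at hv
      obtain ⟨N0, hN0⟩ := SF_large (hh_CM S) d1 ha hb hpi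
      refine ⟨N0, ?_⟩
      intro N hN
      have h2 : {n : ℕ | n ≤ N ∧ hh S (n ^ 2 + 1) = v} = ((SF (hh S) d1 N : Finset ℕ) : Set ℕ) := by
        ext n
        rw [Finset.mem_coe, mem_SF, d1_f, hv, Set.mem_ofPred_eq]
      rw [h2, Set.ncard_coe_finset]
      exact hN0 N hN
  obtain ⟨N0, hN0⟩ := nearsq (fun n => hh S (n ^ 2 + 1) = v) 232 hP
  refine ⟨N0, ?_⟩
  intro N hN
  refine (hN0 N hN).trans ?_
  have hfin : {n : ℕ | n ≤ N ∧ ∃ s m : ℕ, n ^ 2 + 1 = s ^ 2 * m ∧ Squarefree m ∧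
        (s : ℝ) ≤ Real.log N ^ 238 ∧
        Set.ncard {p : ℕ | p.Prime ∧ p ∣ m ∧ p ∈ S} % 2 = e}.Finite :=
    (Set.finite_Icc 0 N).subset fun n hn => ⟨Nat.zero_le _, hn.1⟩
  have hsub : {n : ℕ | n ≤ N ∧ hh S (n ^ 2 + 1) = v ∧ ∃ s m : ℕ, n ^ 2 + 1 = s ^ 2 * m ∧
      Squarefree m ∧ (s : ℝ) ≤ (Real.log N) ^ (232 + 6)} ⊆
      {n : ℕ | n ≤ N ∧ ∃ s m : ℕ, n ^ 2 + 1 = s ^ 2 * m ∧ Squarefree m ∧
        (s : ℝ) ≤ Real.log N ^ 238 ∧
        Set.ncard {p : ℕ | p.Prime ∧ p ∣ m ∧ p ∈ S} % 2 = e} := by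
    rintro n ⟨hn, hsgn, s, m, hsm, hm, hs⟩
    refine ⟨hn, s, m, hsm, hm, hs, ?_⟩
    have hs0 : s ≠ 0 := by
      rintro rfl
      simp at hsm
    rw [hsm, (hh_CM S).mul _ _ (pow_ne_zero 2 hs0) hm.ne_zero, (hh_CM S).sq hs0, one_mul] at hsgn
    have hk := fS_mod S m hm.ne_zero _ (H359R2.fS_squarefree hm)
    by_cases he0 : e = 0
    · rw [if_pos he0] at hv
      rw [hv] at hsgn
      rw [he0]
      exact hk.1 hsgn
    · rw [if_neg he0] at hv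
      rw [hv] at hsgn
      have h1 : ¬ (Set.ncard {p : ℕ | p.Prime ∧ p ∣ m ∧ p ∈ S} % 2 = 0) := by
        intro h0
        rw [hk.2 h0] at hsgn
        norm_num at hsgn
      omega
  exact_mod_cast Set.ncard_le_ncard hsub hfin

end Pool.Agent.H492R2
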