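import Pool.Agent.H358R2.Count

/-!
Counting bad vectors, with the sum of the divisor function instead of a uniform bound.
-/

namespace Pool.Agent.H492R2

open Finset Pool.Agent.H358R2

theorem card_badF2 (h : ℕ → ℤ) (d : QF) (A R : ℕ) :
    A * (badF h d A R).card ≤
      (∑ N ∈ SF h d (d.M * R ^ 2), (d.f N).divisors.card) * (4 * d.M * R ^ 2) := by
  classical
  set I : ℕ → Finset ((ℕ × ℕ) × (ℕ × ℕ)) := fun N => if A ≤ N then edgesF d R N else ∅ with hI
  set G : (ℕ × ℕ) × (ℕ × ℕ) → Finset (ℕ × ℕ) := fun p =>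
    (range (R / sz p.1 + 1) ×ˢ range (R / sz p.2 + 1)).image fun q => q.1 • p.1 + q.2 • p.2 with hG
  have hsub : badF h d A R ⊆ (SF h d (d.M * R ^ 2)).biUnion fun N => (I N).biUnion G := by
    intro u hu
    rw [mem_badF] at hu
    obtain ⟨hsz, c, e, γ, δ, hE, hS, hAle, hu', hc, he⟩ := hu
    have hc0 := (edge_sz_pos hE).1
    have he0 := (edge_sz_pos hE).2
    rw [mem_biUnion]
    refine ⟨ip d c e, ?_, ?_⟩
    · rw [mem_SF]
      refine ⟨?_, hS⟩
      calc ip d c e ≤ d.M * (sz c * sz e) := ip_le_sz c e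
        _ ≤ d.M * (R * R) := Nat.mul_le_mul_left _ (Nat.mul_le_mul (hc.trans hsz) (he.trans hsz))
        _ = d.M * R ^ 2 := by ring
    · rw [mem_biUnion]
      refine ⟨(c, e), ?_, ?_⟩
      · rw [hI]
        simp only [hAle, if_true]
        rw [mem_edgesF]
        exact ⟨hE, rfl, hc.trans hsz, he.trans hsz⟩
      · rw [hG]
        simp only [mem_image, mem_product, mem_range]
        have hszu : γ * sz c + δ * sz e ≤ R := by
          rw [← sz_comb, ← hu']; exact hsz
        refine ⟨(γ, δ), ⟨?_, ?_⟩, hu'.symm⟩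
        · apply Nat.lt_succ_of_le
          rw [Nat.le_div_iff_mul_le hc0]
          exact le_trans (Nat.le_add_right _ _) hszu
        · apply Nat.lt_succ_of_le
          rw [Nat.le_div_iff_mul_le he0]
          exact le_trans (Nat.le_add_left _ _) hszu
  have hGcard : ∀ N ∈ SF h d (d.M * R ^ 2), ∀ p ∈ I N, A * (G p).card ≤ 4 * d.M * R ^ 2 := by
    intro N hN p hp
    by_cases hAN : A ≤ N
    · simp only [hI, hAN, if_true] at hp
      rw [mem_edgesF] at hp
      obtain ⟨hE, hip, h1, h2⟩ := hp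
      have hc0 := (edge_sz_pos hE).1
      have hd0 := (edge_sz_pos hE).2
      have hcard : (G p).card ≤ (R / sz p.1 + 1) * (R / sz p.2 + 1) := by
        rw [hG]
        refine card_image_le.trans ?_
        rw [card_product, card_range, card_range]
      have e1 : (R / sz p.1 + 1) * sz p.1 ≤ 2 * R := by
        have := Nat.div_mul_le_self R (sz p.1)
        rw [add_mul, one_mul]; omega
      have e2 : (R / sz p.2 + 1) * sz p.2 ≤ 2 * R := by
        have := Nat.div_mul_le_self R (sz p.2)
        rw [add_mul, one_mul]; omega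
      calc A * (G p).card ≤ (d.M * (sz p.1 * sz p.2)) * ((R / sz p.1 + 1) * (R / sz p.2 + 1)) := by
            apply Nat.mul_le_mul _ hcard
            rw [← hip] at hAN
            exact hAN.trans (ip_le_sz _ _)
        _ = d.M * (((R / sz p.1 + 1) * sz p.1) * ((R / sz p.2 + 1) * sz p.2)) := by ring
        _ ≤ d.M * ((2 * R) * (2 * R)) := Nat.mul_le_mul_left _ (Nat.mul_le_mul e1 e2)
        _ = 4 * d.M * R ^ 2 := by ring
    · simp only [hI, hAN, if_false] at hp
      exact absurd hp (Finset.notMem_empty _)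
  have hIcard : ∀ N ∈ SF h d (d.M * R ^ 2), (I N).card ≤ (d.f N).divisors.card := by
    intro N hN
    rw [mem_SF] at hN
    by_cases hAN : A ≤ N
    · simp only [hI, hAN, if_true]
      exact card_edgesF R N
    · simp only [hI, hAN, if_false, card_empty]
      exact Nat.zero_le _
  calc A * (badF h d A R).card
      ≤ A * ((SF h d (d.M * R ^ 2)).biUnion fun N => (I N).biUnion G).card :=
        Nat.mul_le_mul_left _ (card_le_card hsub)
    _ ≤ A * ∑ N ∈ SF h d (d.M * R ^ 2), ((I N).biUnion G).card :=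
        Nat.mul_le_mul_left _ card_biUnion_le
    _ ≤ A * ∑ N ∈ SF h d (d.M * R ^ 2), ∑ p ∈ I N, (G p).card :=
        Nat.mul_le_mul_left _ (sum_le_sum fun N _ => card_biUnion_le)
    _ = ∑ N ∈ SF h d (d.M * R ^ 2), ∑ p ∈ I N, A * (G p).card := by
        rw [mul_sum]
        apply sum_congr rfl
        intro N _
        rw [mul_sum]
    _ ≤ ∑ N ∈ SF h d (d.M * R ^ 2), ∑ p ∈ I N, 4 * d.M * R ^ 2 :=
        sum_le_sum fun N hN => sum_le_sum fun p hp => hGcard N hN p hp
    _ ≤ ∑ N ∈ SF h d (d.M * R ^ 2), (d.f N).divisors.card * (4 * d.M * R ^ 2) := by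
        apply sum_le_sum
        intro N hN
        rw [sum_const, smul_eq_mul]
        exact Nat.mul_le_mul_right _ (hIcard N hN)
    _ = (∑ N ∈ SF h d (d.M * R ^ 2), (d.f N).divisors.card) * (4 * d.M * R ^ 2) := by
        rw [sum_mul]

end Pool.Agent.H492R2
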