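import Pool.Agent.H358R2.Basic
import Pool.Agent.H359R2.Count

/-! # CNT2 : second moment of the divisor function at values of the quadratic -/

namespace Pool.Agent.H492R2

open Finset Pool.Agent.H358R2

namespace CNT2

/-- the sum over `(0, M]` -/
lemma sum_Ioc (d : ℕ) (hd : 1 ≤ d) (M : ℕ) :
    ∑ n ∈ Finset.Ioc 0 M, (H359R2.tau (n ^ 2 + d) : ℝ) ^ 2 ≤
      (48 * d * (2 + d) + (H359R2.tau (1 ^ 2 + d) : ℝ) ^ 2) * M *
        (1 + Real.log ((2 * M + d : ℕ) : ℝ)) ^ 32 := by
  induction M using Nat.strong_induction_on with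
  | _ M ih =>
    rcases Nat.lt_or_ge M 2 with h2 | h2
    · interval_cases M
      · simp
      · have h1 : Finset.Ioc 0 1 = {1} := by decide
        rw [h1, Finset.sum_singleton]
        have hlog : 0 ≤ Real.log ((2 * 1 + d : ℕ) : ℝ) := Real.log_natCast_nonneg _
        have hpow : 1 ≤ (1 + Real.log ((2 * 1 + d : ℕ) : ℝ)) ^ 32 := one_le_pow₀ (by linarith)
        have ht : 0 ≤ (H359R2.tau (1 ^ 2 + d) : ℝ) ^ 2 := by positivity
        have hd0 : (0 : ℝ) ≤ 48 * d * (2 + d) := by positivity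
        calc (H359R2.tau (1 ^ 2 + d) : ℝ) ^ 2
            ≤ (48 * d * (2 + d) + (H359R2.tau (1 ^ 2 + d) : ℝ) ^ 2) := by linarith
          _ = (48 * d * (2 + d) + (H359R2.tau (1 ^ 2 + d) : ℝ) ^ 2) * ((1 : ℕ) : ℝ) * 1 := by
              push_cast; ring
          _ ≤ _ := by
              apply mul_le_mul_of_nonneg_left hpow
              positivity
    · set X := (M + 1) / 2 with hX
      have hX1 : X < M := by omega
      have hX2 : M ≤ X + X := by omega
      have hX3 : 2 * X ≤ M + 1 := by omega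
      set c1 : ℝ := 48 * d * (2 + d) + (H359R2.tau (1 ^ 2 + d) : ℝ) ^ 2 with hc1
      set L : ℝ := (1 + Real.log ((2 * M + d : ℕ) : ℝ)) ^ 32 with hL
      have hLX : (1 + Real.log ((2 * X + d : ℕ) : ℝ)) ^ 32 ≤ L := by
        rw [hL]
        apply pow_le_pow_left₀
        · have := Real.log_natCast_nonneg (2 * X + d)
          linarith
        · have : Real.log ((2 * X + d : ℕ) : ℝ) ≤ Real.log ((2 * M + d : ℕ) : ℝ) := by
            apply Real.log_le_log
            · exact_mod_cast (by omega : 0 < 2 * X + d)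
            · exact_mod_cast (by omega : 2 * X + d ≤ 2 * M + d)
          linarith
      have hL0 : 0 ≤ L := by
        rw [hL]
        have := Real.log_natCast_nonneg (2 * M + d)
        positivity
      have h3 := ih X hX1
      have h4 := H359R2.second_moment d X hd
      have hsub : Finset.Ioc 0 M ⊆ Finset.Ioc 0 X ∪ Finset.Ioc X (X + X) := by
        intro n hn
        simp only [Finset.mem_union, Finset.mem_Ioc] at hn ⊢
        omega
      have h5 : ∑ n ∈ Finset.Ioc 0 M, (H359R2.tau (n ^ 2 + d) : ℝ) ^ 2 ≤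
          ∑ n ∈ Finset.Ioc 0 X, (H359R2.tau (n ^ 2 + d) : ℝ) ^ 2 +
          ∑ n ∈ Finset.Ioc X (X + X), (H359R2.tau (n ^ 2 + d) : ℝ) ^ 2 := by
        rw [← Finset.sum_union]
        · apply Finset.sum_le_sum_of_subset_of_nonneg hsub
          intro _ _ _
          positivity
        · rw [Finset.disjoint_left]
          intro n hn hn'
          simp only [Finset.mem_Ioc] at hn hn'
          omega
      refine h5.trans ?_
      have hc1p : 0 ≤ c1 := by rw [hc1]; positivity
      have h6 : c1 * X * (1 + Real.log ((2 * X + d : ℕ) : ℝ)) ^ 32 ≤ c1 * X * L :=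
        mul_le_mul_of_nonneg_left hLX (by positivity)
      have h7 : 8 * d * (3 * X + d) * (1 + Real.log ((2 * X + d : ℕ) : ℝ)) ^ 32 ≤
          8 * d * (3 * X + d) * L :=
        mul_le_mul_of_nonneg_left hLX (by positivity)
      have h8 : c1 * X * L + 8 * d * (3 * X + d) * L ≤ c1 * M * L := by
        rw [← add_mul]
        apply mul_le_mul_of_nonneg_right _ hL0
        have hXr : 2 * (X : ℝ) ≤ M + 1 := by exact_mod_cast hX3
        have hMr : (2 : ℝ) ≤ M := by exact_mod_cast h2
        have hdr : (1 : ℝ) ≤ d := by exact_mod_cast hd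
        have hcl : 48 * d * (2 + d) ≤ c1 := by
          rw [hc1]
          have : 0 ≤ (H359R2.tau (1 ^ 2 + d) : ℝ) ^ 2 := by positivity
          linarith
        have h9 : 8 * (d : ℝ) * (3 * X + d) ≤ 8 * d * ((2 + d) * (M + 1)) := by
          apply mul_le_mul_of_nonneg_left _ (by positivity)
          have h13 : (d : ℝ) * 1 ≤ d * (M + 1) :=
            mul_le_mul_of_nonneg_left (by linarith) (by linarith)
          have h14 : (2 + (d : ℝ)) * (M + 1) = 2 * (M + 1) + d * (M + 1) := by ring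
          rw [h14]
          linarith
        have h10 : 8 * (d : ℝ) * ((2 + d) * (M + 1)) ≤ c1 * ((M + 1) / 6) := by
          have : 8 * (d : ℝ) * ((2 + d) * (M + 1)) = (48 * d * (2 + d)) * ((M + 1) / 6) := by ring
          rw [this]
          apply mul_le_mul_of_nonneg_right hcl
          positivity
        have h11 : c1 * X ≤ c1 * ((M + 1) / 2) :=
          mul_le_mul_of_nonneg_left (by linarith) hc1p
        have h12 : c1 * ((M + 1) / 2) + c1 * ((M + 1) / 6) ≤ c1 * M := by
          rw [← mul_add]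
          apply mul_le_mul_of_nonneg_left _ hc1p
          linarith
        linarith
      linarith

lemma tau_le (d : QF) (n : ℕ) :
    ((d.f n).divisors.card : ℝ) ≤ (H359R2.tau ((2 * n + d.b) ^ 2 + (4 * d.c - d.b ^ 2)) : ℝ) := by
  have hneg := d.neg
  have h1 : (2 * n + d.b) ^ 2 + (4 * d.c - d.b ^ 2) = 4 * d.f n := by
    unfold QF.f
    zify [hneg.le]
    ring
  rw [h1]
  unfold H359R2.tau
  have h2 : (d.f n).divisors ⊆ (4 * d.f n).divisors := by
    apply Nat.divisors_subset_of_dvd
    · have := d.f_pos n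
      omega
    · exact dvd_mul_left _ _
  exact_mod_cast Finset.card_le_card h2

end CNT2

/-- CNT2 : second moment of the divisor function at values of the quadratic. -/
theorem moment (d : QF) : ∃ C : ℝ, 0 < C ∧ ∀ N : ℕ, 3 ≤ N →
    ∑ n ∈ range (N + 1), ((d.f n).divisors.card : ℝ) ^ 2 ≤ C * N * (Real.log N) ^ 32 := by
  have hneg := d.neg
  set D : ℕ := 4 * d.c - d.b ^ 2 with hD
  have hD1 : 1 ≤ D := by omega
  set c1 : ℝ := 48 * D * (2 + D) + (H359R2.tau (1 ^ 2 + D) : ℝ) ^ 2 with hc1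
  set c2 : ℝ := (H359R2.tau (0 ^ 2 + D) : ℝ) ^ 2 with hc2
  set c3 : ℝ := 2 + Real.log ((4 + 2 * d.b + D : ℕ) : ℝ) with hc3
  have hc3p : 2 ≤ c3 := by
    rw [hc3]
    have := Real.log_natCast_nonneg (4 + 2 * d.b + D)
    linarith
  have hc1p : 0 < c1 := by
    rw [hc1]
    have : (1 : ℝ) ≤ D := by exact_mod_cast hD1
    positivity
  have hc2p : 0 ≤ c2 := by rw [hc2]; positivity
  refine ⟨c2 + c1 * (2 + d.b) * c3 ^ 32, by positivity, ?_⟩
  intro N hN
  have hNr : (3 : ℝ) ≤ N := by exact_mod_cast hN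
  have hlogN : 1 ≤ Real.log N := by
    rw [Real.le_log_iff_exp_le (by linarith)]
    have := Real.exp_one_lt_d9
    linarith
  have h1 : ∑ n ∈ range (N + 1), ((d.f n).divisors.card : ℝ) ^ 2 ≤
      ∑ n ∈ range (N + 1), (H359R2.tau ((2 * n + d.b) ^ 2 + D) : ℝ) ^ 2 := by
    apply Finset.sum_le_sum
    intro n _
    exact pow_le_pow_left₀ (by positivity) (CNT2.tau_le d n) 2
  have h2 : ∑ n ∈ range (N + 1), (H359R2.tau ((2 * n + d.b) ^ 2 + D) : ℝ) ^ 2 ≤
      ∑ n ∈ insert 0 (Finset.Ioc 0 (2 * N + d.b)), (H359R2.tau (n ^ 2 + D) : ℝ) ^ 2 := by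
    rw [← Finset.sum_image (s := range (N + 1)) (g := fun n => 2 * n + d.b)
      (f := fun n => (H359R2.tau (n ^ 2 + D) : ℝ) ^ 2)]
    · apply Finset.sum_le_sum_of_subset_of_nonneg
      · intro n hn
        rw [Finset.mem_image] at hn
        obtain ⟨m, hm, rfl⟩ := hn
        rw [Finset.mem_range] at hm
        rw [Finset.mem_insert, Finset.mem_Ioc]
        omega
      · intro _ _ _
        positivity
    · intro a _ b _ hab
      simp only at hab
      omega
  rw [Finset.sum_insert (by simp)] at h2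
  have h3 := CNT2.sum_Ioc D hD1 (2 * N + d.b)
  have h4 : 1 + Real.log ((2 * (2 * N + d.b) + D : ℕ) : ℝ) ≤ c3 * Real.log N := by
    have h5 : ((2 * (2 * N + d.b) + D : ℕ) : ℝ) ≤ N * ((4 + 2 * d.b + D : ℕ) : ℝ) := by
      have : 2 * (2 * N + d.b) + D ≤ N * (4 + 2 * d.b + D) := by nlinarith
      exact_mod_cast this
    have h6 : Real.log ((2 * (2 * N + d.b) + D : ℕ) : ℝ) ≤
        Real.log N + Real.log ((4 + 2 * d.b + D : ℕ) : ℝ) := by
      rw [← Real.log_mul (by positivity) (by positivity)]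
      apply Real.log_le_log _ h5
      exact_mod_cast (by omega : 0 < 2 * (2 * N + d.b) + D)
    have h7 := Real.log_natCast_nonneg (4 + 2 * d.b + D)
    rw [hc3]
    have h8 : Real.log ((4 + 2 * d.b + D : ℕ) : ℝ) * 1 ≤
        Real.log ((4 + 2 * d.b + D : ℕ) : ℝ) * Real.log N := mul_le_mul_of_nonneg_left hlogN h7
    have h9 : (2 + Real.log ((4 + 2 * d.b + D : ℕ) : ℝ)) * Real.log N =
        2 * Real.log N + Real.log ((4 + 2 * d.b + D : ℕ) : ℝ) * Real.log N := by ring
    rw [h9]
    linarith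
  have h5 : (1 + Real.log ((2 * (2 * N + d.b) + D : ℕ) : ℝ)) ^ 32 ≤ c3 ^ 32 * Real.log N ^ 32 := by
    rw [← mul_pow]
    apply pow_le_pow_left₀ _ h4
    have := Real.log_natCast_nonneg (2 * (2 * N + d.b) + D)
    linarith
  have h6 : ((2 * N + d.b : ℕ) : ℝ) ≤ (2 + d.b) * N := by
    have : 2 * N + d.b ≤ (2 + d.b) * N := by nlinarith
    exact_mod_cast this
  have h7 : 1 ≤ Real.log N ^ 32 := one_le_pow₀ hlogN
  calc ∑ n ∈ range (N + 1), ((d.f n).divisors.card : ℝ) ^ 2
      ≤ c2 + c1 * ((2 * N + d.b : ℕ) : ℝ) *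
        (1 + Real.log ((2 * (2 * N + d.b) + D : ℕ) : ℝ)) ^ 32 := by
          refine (h1.trans h2).trans ?_
          exact add_le_add le_rfl h3
    _ ≤ c2 * (N * Real.log N ^ 32) + c1 * ((2 + d.b) * N) * (c3 ^ 32 * Real.log N ^ 32) := by
          apply add_le_add
          · have h8 : (1 : ℝ) ≤ N * Real.log N ^ 32 :=
              one_le_mul_of_one_le_of_one_le (by linarith) h7
            calc c2 = c2 * 1 := (mul_one _).symm
              _ ≤ _ := mul_le_mul_of_nonneg_left h8 hc2p
          · have hLn : 0 ≤ 1 + Real.log ((2 * (2 * N + d.b) + D : ℕ) : ℝ) := by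
              have := Real.log_natCast_nonneg (2 * (2 * N + d.b) + D)
              linarith
            apply mul_le_mul _ h5 (by positivity) (by positivity)
            exact mul_le_mul_of_nonneg_left h6 hc1p.le
    _ = _ := by ring

end Pool.Agent.H492R2
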