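import Pool.Agent.H492R2.Defs

/-!
Task PER4 (helper294).
-/

namespace Pool.Agent.H492R2

namespace Per4

open Polynomial

lemma Sh_pow_apply (m : ℕ) (u : ℕ → ZMod 2) (n : ℕ) : (Sh ^ m) u n = u (n + m) := by
  induction m generalizing u n with
  | zero => simp
  | succ m ih =>
    rw [pow_succ, Module.End.mul_apply, ih]
    show u (n + m + 1) = _
    congr 1

lemma op_apply (R : (ZMod 2)[X]) (u : ℕ → ZMod 2) (n N : ℕ) (hN : R.natDegree < N) :
    op R u n = ∑ i ∈ Finset.range N, R.coeff i * u (n + i) := by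
  unfold op
  rw [Polynomial.aeval_eq_sum_range' hN, LinearMap.sum_apply, Finset.sum_apply]
  refine Finset.sum_congr rfl fun i _ => ?_
  rw [LinearMap.smul_apply, Pi.smul_apply, Sh_pow_apply, smul_eq_mul]

lemma op_mul (P Q : (ZMod 2)[X]) (u : ℕ → ZMod 2) : op (P * Q) u = op Q (op P u) := by
  unfold op
  rw [mul_comm, map_mul, Module.End.mul_apply]

/-- restriction to multiples of `k` -/
def res (k : ℕ) : (ℕ → ZMod 2) →ₗ[ZMod 2] (ℕ → ZMod 2) where
  toFun u := fun n => u (k * n)
  map_add' _ _ := rfl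
  map_smul' _ _ := rfl

lemma op_expand (k : ℕ) (R : (ZMod 2)[X]) (v : ℕ → ZMod 2) (m : ℕ) :
    op (Polynomial.expand (ZMod 2) k R) v (k * m) = op R (fun n => v (k * n)) m := by
  have key : ∀ R : (ZMod 2)[X], res k ((Polynomial.aeval Sh (Polynomial.expand (ZMod 2) k R)) v) =
      (Polynomial.aeval Sh R) (res k v) := by
    intro R
    rw [Polynomial.expand_aeval]
    induction R using Polynomial.induction_on' with
    | add p q hp hq => rw [map_add, LinearMap.add_apply, map_add, hp, hq, map_add,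
        LinearMap.add_apply]
    | monomial n a =>
      rw [Polynomial.aeval_monomial, Polynomial.aeval_monomial]
      funext j
      simp only [Module.algebraMap_end_eq_smul_id, LinearMap.smul_apply, Module.End.mul_apply,
        LinearMap.id_apply, map_smul, Pi.smul_apply]
      congr 1
      rw [← pow_mul]
      show ((Sh ^ (k * n)) v) (k * j) = (Sh ^ n) (res k v) j
      rw [Sh_pow_apply, Sh_pow_apply]
      show _ = v (k * (j + n))
      rw [mul_add]
  have := congrFun (key R) m
  exact this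

end Per4

open Per4 Polynomial in
/-- PER4 : passing to multiples of `k`. -/
theorem op_dilate (T : Finset ℕ) (X k : ℕ) (hT : ∀ x ∈ T, 1 ≤ x ∧ x < X) (hk : 1 ≤ k) (hkX : k ≤ X)
    (u v : ℕ → ZMod 2) (huv : ∀ m, v (k * m) = u m) (S : ℕ)
    (hv : ∀ s ≤ S, op (PP T 1) v s = 0) (m : ℕ) (hm : k * m + X ^ 3 ≤ S) :
    op (PP T k) u m = 0 := by
  classical
  have hu : u = fun n => v (k * n) := by funext n; rw [huv]
  set Q : (ZMod 2)[X] := ∏ x ∈ T, ∑ l ∈ Finset.range (k / Nat.gcd x k),
    ((Polynomial.X : (ZMod 2)[X]) ^ x) ^ l with hQ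
  have hPQ : PP T 1 * Q = Polynomial.expand (ZMod 2) k (PP T k) := by
    unfold PP
    rw [hQ, ← Finset.prod_mul_distrib, map_prod]
    refine Finset.prod_congr rfl fun x hx => ?_
    rw [Nat.gcd_one_right, Nat.div_one, map_add, map_one, map_pow, Polynomial.expand_X,
      ← pow_mul]
    have h1 : (Polynomial.X : (ZMod 2)[X]) ^ x + 1 = Polynomial.X ^ x - 1 :=
      (CharTwo.sub_eq_add _ _).symm
    rw [h1, mul_comm, geom_sum_mul, CharTwo.sub_eq_add, ← pow_mul]
    congr 2
    have h2 : x * (k / Nat.gcd x k) = x * k / Nat.gcd x k :=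
      (Nat.mul_div_assoc x (Nat.gcd_dvd_right x k)).symm
    have h3 : k * (x / Nat.gcd x k) = k * x / Nat.gcd x k :=
      (Nat.mul_div_assoc k (Nat.gcd_dvd_left x k)).symm
    rw [h2, h3, mul_comm x k]
  have hdeg : Q.natDegree ≤ X ^ 3 := by
    rw [hQ]
    refine (Polynomial.natDegree_prod_le _ _).trans ?_
    have h1 : ∀ x ∈ T, (∑ l ∈ Finset.range (k / Nat.gcd x k),
        ((Polynomial.X : (ZMod 2)[X]) ^ x) ^ l).natDegree ≤ X * X := by
      intro x hx
      refine Polynomial.natDegree_sum_le_of_forall_le _ _ fun l hl => ?_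
      rw [← pow_mul, Polynomial.natDegree_X_pow]
      rw [Finset.mem_range] at hl
      have h2 : k / Nat.gcd x k ≤ k := Nat.div_le_self _ _
      exact Nat.mul_le_mul (hT x hx).2.le (by omega)
    refine (Finset.sum_le_sum h1).trans ?_
    rw [Finset.sum_const, smul_eq_mul]
    have h3 : T.card ≤ X := by
      have h4 : T ⊆ Finset.range X := fun x hx => Finset.mem_range.mpr (hT x hx).2
      simpa using Finset.card_le_card h4
    calc T.card * (X * X) ≤ X * (X * X) := Nat.mul_le_mul_right _ h3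
      _ = X ^ 3 := by ring
  rw [hu, ← op_expand, ← hPQ, op_mul, op_apply Q _ _ (X ^ 3 + 1) (by omega)]
  refine Finset.sum_eq_zero fun i hi => ?_
  rw [Finset.mem_range] at hi
  rw [hv _ (by omega), mul_zero]

end Pool.Agent.H492R2
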