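import Pool.Agent.H492R2.PER1
import Pool.Agent.H492R2.PER4
import Pool.Agent.H678R2.H492_PER3

/-!
From vanishing pattern sums at all levels to constancy.
-/

namespace Pool.Agent.H492R2

open Finset

theorem op_shift (P : Polynomial (ZMod 2)) (u : ℕ → ZMod 2) (n s : ℕ) :
    op P (fun m => u (n + m)) s = op P u (n + s) := by
  rw [PER.op_apply, PER.op_apply]
  simp only [add_assoc]

theorem sum_le_sq {T I : Finset ℕ} {X : ℕ} (hT : ∀ x ∈ T, 1 ≤ x ∧ x < X) (hI : I ⊆ T) : ∑ i ∈ I, i ≤ X ^ 2 := by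
  have hTX : T ⊆ range X := fun x hx => mem_range.2 (hT x hx).2
  have hc : I.card ≤ X := by
    calc I.card ≤ T.card := card_le_card hI
      _ ≤ (range X).card := card_le_card hTX
      _ = X := card_range X
  calc ∑ i ∈ I, i ≤ ∑ i ∈ I, X := sum_le_sum fun i hi => (hT i (hI hi)).2.le
    _ = I.card * X := by rw [sum_const, smul_eq_mul]
    _ ≤ X * X := Nat.mul_le_mul_right _ hc
    _ = X ^ 2 := by ring

theorem card_lt {T : Finset ℕ} {X : ℕ} (hT : ∀ x ∈ T, 1 ≤ x ∧ x < X) (hX : 1 ≤ X) :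
    T.card + 1 ≤ X := by
  have hTX : T ⊆ (range X).erase 0 := by
    intro x hx
    rw [mem_erase, mem_range]
    exact ⟨by have := (hT x hx).1; omega, (hT x hx).2⟩
  have h := card_le_card hTX
  rw [card_erase_of_mem (mem_range.2 (by omega)), card_range] at h
  omega

/-- the difference polynomial kills -/
theorem killed (w : ℕ → ℕ → ZMod 2) (T0 : Finset ℕ) (X D N : ℕ) (hT0 : T0.Nonempty)
    (hT0X : T0 ⊆ range X)
    (hrel : ∀ c n r, 1 ≤ c → D * c ≤ n → n ≤ N → 1 ≤ r → r ≤ X →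
      ∑ x ∈ T0, w c (n + x * r) = 0) :
    ∃ T : Finset ℕ, (∀ x ∈ T, 1 ≤ x ∧ x < X) ∧ ∀ c n, 1 ≤ c → (D + X ^ 2) * c ≤ n →
      n + X ^ 2 ≤ N → op (PP T 1) (w c) n = 0 := by
  classical
  obtain ⟨t0, ht0, hmin⟩ := T0.exists_min_image (fun x => x) hT0
  have ht0X : t0 < X := mem_range.1 (hT0X ht0)
  have hX : 1 ≤ X := by omega
  set T : Finset ℕ := (T0.erase t0).image (fun x => x - t0) with hTdef
  have hT : ∀ x ∈ T, 1 ≤ x ∧ x < X := by
    intro x hx
    rw [hTdef, mem_image] at hx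
    obtain ⟨y, hy, rfl⟩ := hx
    rw [mem_erase] at hy
    have h1 := hmin y hy.2
    have h2 := mem_range.1 (hT0X hy.2)
    have h3 := hy.1
    omega
  refine ⟨T, hT, ?_⟩
  intro c n hc hn hnN
  have hcard := card_lt hT hX
  rw [op_PP_one, ← diff_identity (w c) T n]
  apply sum_congr rfl
  intro I hI
  rw [mem_powerset] at hI
  have hIc : I.card ≤ T.card := card_le_card hI
  have hsum := sum_le_sq hT hI
  obtain ⟨r, hr⟩ : ∃ r, r = T.card + 1 - I.card := ⟨_, rfl⟩
  have hr1 : 1 ≤ r := by omega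
  have hrX : r ≤ X := by omega
  rw [← hr]
  have ht0r : t0 * r ≤ X ^ 2 := by
    calc t0 * r ≤ X * X := Nat.mul_le_mul ht0X.le hrX
      _ = X ^ 2 := by ring
  have hX2 : X ^ 2 ≤ X ^ 2 * c := Nat.le_mul_of_pos_right _ (by omega)
  have hDn : D * c + X ^ 2 ≤ n := by
    calc D * c + X ^ 2 ≤ D * c + X ^ 2 * c := Nat.add_le_add_left hX2 _
      _ = (D + X ^ 2) * c := by ring
      _ ≤ n := hn
  set S : ℕ := ∑ i ∈ I, i with hS
  have h := hrel c (n + S - t0 * r) r hc (by omega) (by omega) hr1 hrX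
  rw [← add_sum_erase T0 _ ht0] at h
  have e1 : n + S - t0 * r + t0 * r = n + S := by omega
  rw [e1] at h
  have e2 : ∑ x ∈ T0.erase t0, w c (n + S - t0 * r + x * r) = ∑ x ∈ T, w c (n + S + x * r) := by
    rw [hTdef, sum_image]
    · apply sum_congr rfl
      intro x hx
      rw [mem_erase] at hx
      have h1 := hmin x hx.2
      congr 1
      obtain ⟨y, rfl⟩ := Nat.exists_eq_add_of_le h1
      rw [Nat.add_sub_cancel_left]
      have : (t0 + y) * r = t0 * r + y * r := by ring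
      omega
    · intro x hx y hy hxy
      rw [mem_coe, mem_erase] at hx hy
      have h1 := hmin x hx.2
      have h2 := hmin y hy.2
      simp only at hxy
      omega
  rw [e2] at h
  rw [CharTwo.add_eq_zero] at h
  exact h

/-- constancy from vanishing at all levels -/
theorem constancy (w : ℕ → ℕ → ZMod 2)
    (hw : ∀ k c n, 1 ≤ k → 1 ≤ c → w (k * c) (k * n) = w c n) (T : Finset ℕ) (X D N : ℕ)
    (hX : 1 ≤ X) (hT : ∀ x ∈ T, 1 ≤ x ∧ x < X)
    (hop : ∀ c n, 1 ≤ c → D * c ≤ n → n ≤ N → op (PP T 1) (w c) n = 0) (c n : ℕ) (hc : 1 ≤ c)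
    (hn : D * c ≤ n) (hnN : 2 * X ^ 2 * n + 3 * X ^ 3 ≤ N) : w c (n + 1) = w c n := by
  have hcard := card_lt hT hX
  obtain ⟨a, ha1, ha2⟩ : ∃ a, X ≤ 2 ^ a ∧ 2 ^ a ≤ 2 * X := by
    refine ⟨Nat.clog 2 X, Nat.le_pow_clog (by norm_num) X, ?_⟩
    rcases Nat.lt_or_ge 1 X with h | h
    · have h1 := Nat.pow_pred_clog_lt_self (b := 2) (by norm_num) h
      have h2 : 0 < Nat.clog 2 X := Nat.clog_pos (by norm_num) h
      obtain ⟨k, hk⟩ : ∃ k, Nat.clog 2 X = k + 1 := ⟨Nat.clog 2 X - 1, by omega⟩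
      rw [hk] at h1 ⊢
      simp only [Nat.pred_succ] at h1
      rw [pow_succ]
      omega
    · have : X = 1 := by omega
      rw [this]
      simp
  set q : ℕ := 2 ^ a with hq
  have hq1 : 1 ≤ q := by rw [hq]; exact Nat.one_le_two_pow
  have hqc : 1 ≤ q * c := Nat.mul_pos hq1 hc
  have hwin := window_period T X hX hT a (by omega) ha2 (fun m => w (q * c) (q * n + m)) (by
    intro k hk1 hkX m hm
    apply op_dilate T X k hT hk1 hkX (fun m => w (q * c) (q * n + m))
      (fun s => w (k * (q * c)) (k * (q * n) + s)) _ (3 * X ^ 3) _ m _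
    · intro m
      rw [← mul_add, hw k (q * c) (q * n + m) hk1 hqc]
    · intro s hs
      rw [op_shift (PP T 1) (w (k * (q * c))) (k * (q * n)) s]
      apply hop
      · exact Nat.mul_pos hk1 hqc
      · calc D * (k * (q * c)) = k * q * (D * c) := by ring
          _ ≤ k * q * n := Nat.mul_le_mul_left _ hn
          _ = k * (q * n) := by ring
          _ ≤ _ := Nat.le_add_right _ _
      · calc k * (q * n) + s ≤ X * (2 * X * n) + 3 * X ^ 3 := by
              apply Nat.add_le_add _ hs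
              exact Nat.mul_le_mul hkX (Nat.mul_le_mul_right _ ha2)
          _ = 2 * X ^ 2 * n + 3 * X ^ 3 := by ring
          _ ≤ N := hnN
    · calc k * m + X ^ 3 ≤ X * (2 * X ^ 2) + X ^ 3 :=
            Nat.add_le_add_right (Nat.mul_le_mul hkX hm) _
        _ = 3 * X ^ 3 := by ring)
  simp only [add_zero] at hwin
  rw [← hw q c (n + 1) hq1 hc, ← hw q c n hq1 hc, mul_add, mul_one]
  exact hwin

end Pool.Agent.H492R2
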