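import Pool.Agent.H492R2.Walk

/-!
Measure of the exceptional directions.
-/

namespace Pool.Agent.H492R2

open MeasureTheory Set Pool.Agent.H358R2

theorem act_inj {d : QF} {ω : ℕ × ℕ × Bool} (hω : Ok d ω) {u v : ℕ × ℕ} (hu : Mid u)
    (hv : Mid v) (h : act d ω u = act d ω v) : u = v := by
  obtain ⟨hu1, hu2⟩ := mid_ineq hω hu
  obtain ⟨hv1, hv2⟩ := mid_ineq hω hv
  replace hu1 := hu1.le
  replace hv1 := hv1.le
  have hf := nw_ne hω
  unfold nw nm at hf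
  unfold act at h
  have hne : ((ω.1 : ℤ) ^ 2 + d.b * (ω.1 * ω.2.1) + d.c * ω.2.1 ^ 2) ≠ 0 := by exact_mod_cast hf
  split_ifs at h
  · rw [Prod.mk.injEq] at h
    obtain ⟨h1, h2⟩ := h
    zify [hu1, hv1] at h1 h2
    have e1 : ((ω.1 : ℤ) ^ 2 + d.b * (ω.1 * ω.2.1) + d.c * ω.2.1 ^ 2) * u.1 =
        ((ω.1 : ℤ) ^ 2 + d.b * (ω.1 * ω.2.1) + d.c * ω.2.1 ^ 2) * v.1 := by
      linear_combination ((ω.1 : ℤ) + d.b * ω.2.1) * h1 + (d.c * ω.2.1 : ℤ) * h2
    have e2 : ((ω.1 : ℤ) ^ 2 + d.b * (ω.1 * ω.2.1) + d.c * ω.2.1 ^ 2) * u.2 =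
        ((ω.1 : ℤ) ^ 2 + d.b * (ω.1 * ω.2.1) + d.c * ω.2.1 ^ 2) * v.2 := by
      linear_combination (ω.1 : ℤ) * h2 - (ω.2.1 : ℤ) * h1
    have e1' := mul_left_cancel₀ hne e1
    have e2' := mul_left_cancel₀ hne e2
    ext
    · exact_mod_cast e1'
    · exact_mod_cast e2'
  · rw [Prod.mk.injEq] at h
    obtain ⟨h1, h2⟩ := h
    zify [hu2, hv2] at h1 h2
    have e1 : ((ω.1 : ℤ) ^ 2 + d.b * (ω.1 * ω.2.1) + d.c * ω.2.1 ^ 2) * u.1 =
        ((ω.1 : ℤ) ^ 2 + d.b * (ω.1 * ω.2.1) + d.c * ω.2.1 ^ 2) * v.1 := by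
      linear_combination (ω.1 : ℤ) * h1 - (d.c * ω.2.1 : ℤ) * h2
    have e2 : ((ω.1 : ℤ) ^ 2 + d.b * (ω.1 * ω.2.1) + d.c * ω.2.1 ^ 2) * u.2 =
        ((ω.1 : ℤ) ^ 2 + d.b * (ω.1 * ω.2.1) + d.c * ω.2.1 ^ 2) * v.2 := by
      linear_combination ((ω.1 : ℤ) + d.b * ω.2.1) * h2 + (ω.2.1 : ℤ) * h1
    have e1' := mul_left_cancel₀ hne e1
    have e2' := mul_left_cancel₀ hne e2
    ext
    · exact_mod_cast e1'
    · exact_mod_cast e2'

/-- vectors that are bad, or whose image is bad -/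
noncomputable def BF (h : ℕ → ℤ) (d : QF) (A R : ℕ) (ω : ℕ × ℕ × Bool) : Finset (ℕ × ℕ) :=
  letI := Classical.decPred fun u : ℕ × ℕ =>
    Mid u ∧ sz u ≤ R ∧ (Bad h d A u ∨ Bad h d A (act d ω u))
  (Finset.range (R + 1) ×ˢ Finset.range (R + 1)).filter fun u =>
    Mid u ∧ sz u ≤ R ∧ (Bad h d A u ∨ Bad h d A (act d ω u))

theorem mem_BF {h : ℕ → ℤ} {d : QF} {A R : ℕ} {ω : ℕ × ℕ × Bool} {u : ℕ × ℕ} :
    u ∈ BF h d A R ω ↔ Mid u ∧ sz u ≤ R ∧ (Bad h d A u ∨ Bad h d A (act d ω u)) := by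
  classical
  unfold BF
  simp only [Finset.mem_filter, Finset.mem_product, Finset.mem_range]
  constructor
  · rintro ⟨_, h⟩; exact h
  · intro h
    refine ⟨?_, h⟩
    obtain ⟨_, h1, _⟩ := h
    unfold sz at h1
    omega

theorem card_BF (h : ℕ → ℤ) {d : QF} (A R : ℕ) {ω : ℕ × ℕ × Bool} (hω : Ok d ω)
    {W : ℕ} (hn : ω.1 + d.M * ω.2.1 ≤ W) :
    (BF h d A R ω).card ≤ 2 * (badF h d A (W * R)).card := by
  have hM := d.M_pos
  have hW : 0 < W := by
    have := hω.1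
    omega
  classical
  have hsub : BF h d A R ω ⊆ badF h d A (W * R) ∪
      (BF h d A R ω).filter (fun u => Bad h d A (act d ω u)) := by
    intro u hu
    have hu' := mem_BF.1 hu
    rw [Finset.mem_union]
    rcases hu'.2.2 with hb | hb
    · left
      rw [mem_badF]
      refine ⟨hu'.2.1.trans ?_, hb⟩
      exact Nat.le_mul_of_pos_left _ hW
    · right
      rw [Finset.mem_filter]
      exact ⟨hu, hb⟩
  have hcard2 : ((BF h d A R ω).filter (fun u => Bad h d A (act d ω u))).card ≤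
      (badF h d A (W * R)).card := by
    apply Finset.card_le_card_of_injOn (act d ω)
    · intro u hu
      rw [Finset.mem_coe, Finset.mem_filter] at hu
      have hu' := mem_BF.1 hu.1
      rw [Finset.mem_coe, mem_badF]
      refine ⟨(sz_act ω u).trans ?_, hu.2⟩
      exact Nat.mul_le_mul hn hu'.2.1
    · intro u hu v hv huv
      rw [Finset.mem_coe, Finset.mem_filter] at hu hv
      exact act_inj hω (mem_BF.1 hu.1).1 (mem_BF.1 hv.1).1 huv
  calc (BF h d A R ω).card ≤ _ := Finset.card_le_card hsub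
    _ ≤ _ := Finset.card_union_le _ _
    _ ≤ 2 * (badF h d A (W * R)).card := by omega

/-- the exceptional set for the bad vectors -/
def B3 (h : ℕ → ℤ) (d : QF) (A R : ℕ) (ω : ℕ × ℕ × Bool) (r : ℝ) : Set ℝ :=
  ⋃ u ∈ BF h d A R ω, Metric.closedBall (ag d u) r

theorem vol_B3 (h : ℕ → ℤ) {d : QF} (A R : ℕ) {ω : ℕ × ℕ × Bool} (hω : Ok d ω)
    {W : ℕ} (hn : ω.1 + d.M * ω.2.1 ≤ W) {r : ℝ} (hr : 0 ≤ r) :
    volume (B3 h d A R ω r) ≤ ENNReal.ofReal ((badF h d A (W * R)).card * (4 * r)) := by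
  unfold B3
  refine (measure_biUnion_finset_le _ _).trans ?_
  simp only [Real.volume_closedBall]
  rw [Finset.sum_const, nsmul_eq_mul, ← ENNReal.ofReal_natCast, ← ENNReal.ofReal_mul (Nat.cast_nonneg _)]
  apply ENNReal.ofReal_le_ofReal
  have h1 : ((BF h d A R ω).card : ℝ) ≤ 2 * (badF h d A (W * R)).card := by
    exact_mod_cast card_BF h A R hω hn
  nlinarith

theorem exists_GU {h : ℕ → ℤ} {d : QF} {A R K : ℕ} {ω : ℕ × ℕ × Bool} {θ : ℝ}
    (hθ : Jn d θ) (hK : 2 ≤ K) (hR : 4 ≤ R) (hB : θ ∉ B1 d K R)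
    (hB3 : θ ∉ B3 h d A R ω (16 * d.M * K ^ 2 / R ^ 2)) :
    GU h d A (16 * d.M * K ^ 2 / R ^ 2) θ ω := by
  obtain ⟨a, b, hE, ha, hb, hta, htb, s1, s2, s3, s4, s5, s6, s7, s8, s9⟩ :=
    nbr_angle hθ hK hR hB
  have hM : Mid a := ⟨ha, by omega, by omega⟩
  have hde : |ag d a - θ| ≤ 16 * d.M * K ^ 2 / R ^ 2 := by
    rw [abs_of_nonpos (by linarith)]
    linarith
  have hnot : ¬ (Bad h d A a ∨ Bad h d A (act d ω a)) := by
    intro hor
    apply hB3
    unfold B3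
    rw [mem_iUnion₂]
    refine ⟨a, mem_BF.2 ⟨hM, s1, hor⟩, ?_⟩
    rw [Metric.mem_closedBall, Real.dist_eq, abs_sub_comm]
    exact hde
  push Not at hnot
  exact ⟨a, hM, hde, hnot.1, hnot.2⟩

theorem al_abs_le {d : QF} {ω : ℕ × ℕ × Bool} (hω : 0 < ω.1) :
    |al d ω| ≤ d.M * ω.2.1 / ω.1 := by
  have hk := d.κ_pos
  have hkM := d.κ_le
  have hω' : (0 : ℝ) < ω.1 := by exact_mod_cast hω
  have hb : (0 : ℝ) ≤ d.b := Nat.cast_nonneg _
  have hm : (0 : ℝ) ≤ ω.2.1 := Nat.cast_nonneg _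
  have h0 : (0 : ℝ) ≤ d.κ * ω.2.1 / ((ω.1 : ℝ) + (d.b : ℝ) / 2 * ω.2.1) := by positivity
  have h := arctan_lip (d.κ * ω.2.1 / ((ω.1 : ℝ) + (d.b : ℝ) / 2 * ω.2.1)) 0
  rw [Real.arctan_zero, sub_zero, sub_zero, abs_of_nonneg h0] at h
  have h2 : d.κ * ω.2.1 / ((ω.1 : ℝ) + (d.b : ℝ) / 2 * ω.2.1) ≤ d.M * ω.2.1 / ω.1 := by
    apply div_le_div₀ (by positivity) (mul_le_mul_of_nonneg_right hkM hm) hω'
    have : 0 ≤ (d.b : ℝ) / 2 * ω.2.1 := by positivity
    linarith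
  unfold al
  split_ifs
  · exact h.trans h2
  · rw [abs_neg]; exact h.trans h2

/-- main measure estimate -/
theorem vol_not_AG {h : ℕ → ℤ} {d : QF} {A K Q R W : ℕ} (hK : 2 ≤ K) (hQ : 4 ≤ Q)
    (hR : 4 ≤ R) (hA : 16 * K ^ 2 * A ≤ Q ^ 2) {lo0 hi0 : ℝ}
    (hJ : ∀ θ, lo0 ≤ θ → θ ≤ hi0 → Jn d θ) {η c : ℝ}
    (hc : (2 + 128 * (d.M : ℝ)) / K +
      (badF h d A (W * R)).card * (4 * (16 * d.M * K ^ 2 / R ^ 2)) ≤ c) :
    ∀ (L : List (ℕ × ℕ × Bool)),
      (∀ ω ∈ L, Ok d ω ∧ ω.1 + d.M * ω.2.1 ≤ W ∧ |al d ω| ≤ η) →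
      ∀ lo hi : ℝ, lo0 + L.length * η ≤ lo → hi ≤ hi0 - L.length * η →
      volume {θ | lo ≤ θ ∧ θ ≤ hi ∧
        ¬ AG h d A (1 / (K * Q ^ 2)) (16 * d.M * K ^ 2 / R ^ 2) L θ} ≤
          L.length * ENNReal.ofReal c := by
  intro L
  induction L with
  | nil =>
    intro hL lo hi hlo hhi
    simp [AG]
  | cons ω L ih =>
    intro hL lo hi hlo hhi
    obtain ⟨hω1, hω2, hω3⟩ := hL ω (by simp)
    have hη0 : 0 ≤ η := (abs_nonneg _).trans hω3
    have hL0 : (0 : ℝ) ≤ L.length := Nat.cast_nonneg _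
    have hlen : (((ω :: L).length : ℕ) : ℝ) = L.length + 1 := by
      simp
    rw [hlen] at hlo hhi
    have hLη : 0 ≤ (L.length : ℝ) * η := mul_nonneg hL0 hη0
    rw [abs_le] at hω3
    set ρ : ℝ := 1 / (K * Q ^ 2) with hρ
    set r : ℝ := 16 * d.M * K ^ 2 / R ^ 2 with hr
    have hr0 : 0 ≤ r := by rw [hr]; positivity
    set S1 : Set ℝ := B1 d K R ∪ B3 h d A R ω r with hS1
    set S2 : Set ℝ := B1 d K Q ∪ B2 d Q ρ with hS2
    set S3 : Set ℝ := {θ | lo + al d ω ≤ θ ∧ θ ≤ hi + al d ω ∧ ¬ AG h d A ρ r L θ} with hS3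
    have hsub : {θ | lo ≤ θ ∧ θ ≤ hi ∧ ¬ AG h d A ρ r (ω :: L) θ} ⊆
        S1 ∪ ((fun θ => θ + al d ω) ⁻¹' S2 ∪ (fun θ => θ + al d ω) ⁻¹' S3) := by
      rintro θ ⟨g1, g2, g3⟩
      by_contra hnot
      have n1 : θ ∉ S1 := fun hx => hnot (Or.inl hx)
      have n2 : θ + al d ω ∉ S2 := fun hx => hnot (Or.inr (Or.inl hx))
      have n3 : θ + al d ω ∉ S3 := fun hx => hnot (Or.inr (Or.inr hx))
      apply g3
      rw [hS1, mem_union] at n1
      rw [hS2, mem_union] at n2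
      push Not at n1 n2
      refine ⟨?_, ?_, ?_⟩
      · exact exists_GU (hJ _ (by linarith) (by linarith)) hK hR n1.1 n1.2
      · exact exists_At (hJ _ (by linarith) (by linarith)) hK hQ hA n2.1 n2.2
      · by_contra hno
        apply n3
        rw [hS3, mem_ofPred_eq]
        exact ⟨by linarith, by linarith, hno⟩
    have hK0 : 0 < K := by omega
    have v1 : volume S1 ≤ ENNReal.ofReal (64 * d.M / K) +
        ENNReal.ofReal ((badF h d A (W * R)).card * (4 * r)) :=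
      (measure_union_le _ _).trans (add_le_add (vol_B1 hK0 (by omega))
        (vol_B3 h A R hω1 hω2 hr0))
    have v2 : volume ((fun θ => θ + al d ω) ⁻¹' S2) ≤
        ENNReal.ofReal (64 * d.M / K) + ENNReal.ofReal (2 / K) := by
      rw [measure_preimage_add_right]
      exact (measure_union_le _ _).trans (add_le_add (vol_B1 hK0 (by omega)) (vol_B2 hK0 (by omega)))
    have v3 : volume ((fun θ => θ + al d ω) ⁻¹' S3) ≤ L.length * ENNReal.ofReal c := by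
      rw [measure_preimage_add_right]
      exact ih (fun x hx => hL x (List.mem_cons_of_mem _ hx)) (lo + al d ω) (hi + al d ω)
        (by linarith) (by linarith)
    have v12 : volume S1 + volume ((fun θ => θ + al d ω) ⁻¹' S2) ≤ ENNReal.ofReal c := by
      refine (add_le_add v1 v2).trans ?_
      rw [← ENNReal.ofReal_add (by positivity) (by positivity),
        ← ENNReal.ofReal_add (by positivity) (by positivity),
        ← ENNReal.ofReal_add (by positivity) (by positivity)]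
      apply ENNReal.ofReal_le_ofReal
      refine le_trans (le_of_eq ?_) hc
      ring
    calc volume {θ | lo ≤ θ ∧ θ ≤ hi ∧ ¬ AG h d A ρ r (ω :: L) θ}
        ≤ volume (S1 ∪ ((fun θ => θ + al d ω) ⁻¹' S2 ∪ (fun θ => θ + al d ω) ⁻¹' S3)) :=
          measure_mono hsub
      _ ≤ volume S1 + (volume ((fun θ => θ + al d ω) ⁻¹' S2) +
            volume ((fun θ => θ + al d ω) ⁻¹' S3)) :=
          (measure_union_le _ _).trans (add_le_add_right (measure_union_le _ _) _)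
      _ = (volume S1 + volume ((fun θ => θ + al d ω) ⁻¹' S2)) +
            volume ((fun θ => θ + al d ω) ⁻¹' S3) := by rw [add_assoc]
      _ ≤ ENNReal.ofReal c + L.length * ENNReal.ofReal c := add_le_add v12 v3
      _ = ((ω :: L).length : ENNReal) * ENNReal.ofReal c := by
          simp only [List.length_cons, Nat.cast_add, Nat.cast_one]
          ring

/-- short lists of rotations with tiny total angle have sign one -/
theorem main_lemma {h : ℕ → ℤ} (H : CM h) {d : QF} {lo0 hi0 : ℝ}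
    (hJ : ∀ θ, lo0 ≤ θ → θ ≤ hi0 → Jn d θ) (hlen0 : lo0 < hi0) (hlen4 : hi0 - lo0 ≤ 4)
    {A K Q R W : ℕ} (hQ : 4 ≤ Q)
    (hRdef : R = 8 * K ^ 2 * Q) (hA : 16 * K ^ 2 * A ≤ Q ^ 2)
    (hbad : ((badF h d A (W * R)).card : ℝ) ≤ 128 * K * Q ^ 2)
    (L : List (ℕ × ℕ × Bool)) (hL0 : L ≠ [])
    (hK : 516 * (d.M : ℝ) * (L.length + 1) < K * (hi0 - lo0)) {η : ℝ}
    (hL : ∀ ω ∈ L, Ok d ω ∧ ω.1 + d.M * ω.2.1 ≤ W ∧ |al d ω| ≤ η)
    (hη : L.length * η ≤ (hi0 - lo0) / 4)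
    (htot : |tot d L| ≤ 1 / (2 * (K * Q ^ 2))) : sg h d L = 1 := by
  have hd' : (1 : ℝ) ≤ d.M := by exact_mod_cast d.M_pos
  have hL' : (0 : ℝ) ≤ L.length := Nat.cast_nonneg _
  have hKd' : 129 * (d.M : ℝ) ≤ K := by
    have h1 : (K : ℝ) * (hi0 - lo0) ≤ K * 4 := mul_le_mul_of_nonneg_left hlen4 (Nat.cast_nonneg _)
    nlinarith
  have hKd : 129 * d.M ≤ K := by exact_mod_cast hKd'
  have hMp := d.M_pos
  have hK2 : 2 ≤ K := by omega
  have hR4 : 4 ≤ R := by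
    rw [hRdef]
    have : 1 ≤ K ^ 2 := Nat.one_le_pow _ _ (by omega)
    nlinarith
  have hK' : (0 : ℝ) < K := by
    have : 0 < K := by omega
    exact_mod_cast this
  have hQ' : (0 : ℝ) < Q := by
    have : 0 < Q := by omega
    exact_mod_cast this
  have hR' : (0 : ℝ) < R := by
    have : 0 < R := by omega
    exact_mod_cast this
  set bad : ℕ := (badF h d A (W * R)).card with hbad'
  set ρ : ℝ := 1 / (K * Q ^ 2) with hρ
  set r : ℝ := 16 * d.M * K ^ 2 / R ^ 2 with hr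
  have hρ0 : 0 < ρ := by rw [hρ]; positivity
  have hrρ : r < ρ / 2 := by
    have e1 : r = d.M / (4 * K ^ 2 * Q ^ 2) := by
      rw [hr, hRdef]
      push_cast
      field_simp
      ring
    have e2 : ρ / 2 = (2 * K) / (4 * K ^ 2 * Q ^ 2) := by
      rw [hρ]
      field_simp
      ring
    rw [e1, e2]
    apply div_lt_div_of_pos_right _ (by positivity)
    linarith
  have hbadle : (bad : ℝ) * (4 * r) ≤ 128 * d.M / K := by
    calc (bad : ℝ) * (4 * r) ≤ (128 * K * Q ^ 2) * (4 * r) :=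
          mul_le_mul_of_nonneg_right hbad (by positivity)
      _ = 128 * d.M / K := by
        rw [hr, hRdef]
        push_cast
        field_simp
        ring
  set c : ℝ := (2 + 128 * (d.M : ℝ)) / K + bad * (4 * r) with hc
  have hc0 : 0 ≤ c := by rw [hc]; positivity
  have hcle : c ≤ 258 * d.M / K := by
    rw [hc]
    calc (2 + 128 * (d.M : ℝ)) / K + bad * (4 * r) ≤ (2 + 128 * (d.M : ℝ)) / K + 128 * d.M / K := by linarith
      _ = (2 + 256 * (d.M : ℝ)) / K := by ring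
      _ ≤ 258 * d.M / K := by
        apply div_le_div_of_nonneg_right _ hK'.le
        linarith
  have hv1 := vol_not_AG (h := h) (W := W) hK2 hQ hR4 hA hJ (le_refl c) L hL
    (lo0 + (hi0 - lo0) / 4) (hi0 - (hi0 - lo0) / 4) (by linarith) (by linarith)
  set S1 : Set ℝ := {θ | lo0 + (hi0 - lo0) / 4 ≤ θ ∧ θ ≤ hi0 - (hi0 - lo0) / 4 ∧
    ¬ AG h d A ρ r L θ} with hS1
  set S2 : Set ℝ := B1 d K Q ∪ B2 d Q ρ with hS2
  have hv2 : volume S2 ≤ ENNReal.ofReal (258 * d.M / K) := by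
    refine (measure_union_le _ _).trans ((add_le_add (vol_B1 (by omega) (by omega))
      (vol_B2 (by omega) (by omega))).trans ?_)
    rw [← ENNReal.ofReal_add (by positivity) (by positivity)]
    apply ENNReal.ofReal_le_ofReal
    rw [← add_div]
    apply div_le_div_of_nonneg_right _ hK'.le
    linarith
  have hex : ∃ θ ∈ Icc (lo0 + (hi0 - lo0) / 4) (hi0 - (hi0 - lo0) / 4), θ ∉ S1 ∪ S2 := by
    by_contra hno
    push Not at hno
    have hsub : Icc (lo0 + (hi0 - lo0) / 4) (hi0 - (hi0 - lo0) / 4) ⊆ S1 ∪ S2 := hno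
    have h1 : volume (Icc (lo0 + (hi0 - lo0) / 4) (hi0 - (hi0 - lo0) / 4)) ≤
        L.length * ENNReal.ofReal c + ENNReal.ofReal (258 * d.M / K) :=
      (measure_mono hsub).trans ((measure_union_le _ _).trans (add_le_add hv1 hv2))
    rw [Real.volume_Icc, ← ENNReal.ofReal_natCast, ← ENNReal.ofReal_mul (Nat.cast_nonneg _),
      ← ENNReal.ofReal_add (by positivity) (by positivity)] at h1
    rw [ENNReal.ofReal_le_ofReal_iff (by positivity)] at h1
    have h3 : (L.length : ℝ) * c ≤ L.length * (258 * d.M / K) :=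
      mul_le_mul_of_nonneg_left hcle (Nat.cast_nonneg _)
    have h4 : ((L.length : ℝ) + 1) * (258 * d.M / K) < (hi0 - lo0) / 2 := by
      rw [mul_div_assoc', div_lt_iff₀ hK']
      nlinarith
    linarith
  obtain ⟨θ, ⟨t1, t2⟩, hθ⟩ := hex
  rw [mem_union] at hθ
  push Not at hθ
  obtain ⟨g1, g2⟩ := hθ
  have hAG : AG h d A ρ r L θ := by
    by_contra hno
    exact g1 ⟨t1, t2, hno⟩
  rw [hS2, mem_union] at g2
  push Not at g2
  obtain ⟨a, b, hab⟩ := exists_At (hJ θ (by linarith) (by linarith)) hK2 hQ hA g2.1 g2.2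
  obtain ⟨ω, L', rfl⟩ := List.exists_cons_of_ne_nil hL0
  have hna : nm d a ≠ 0 := nm_pos_of_sz (edge_sz_pos hab.1).1
  have htot' : |tot d (ω :: L')| ≤ ρ / 2 := by
    refine htot.trans (le_of_eq ?_)
    rw [hρ]; field_simp
  rw [abs_le] at htot'
  have hab2 : At d A (ρ / 2) (θ + tot d (ω :: L')) a b := by
    obtain ⟨k1, k2, k3, k4, k5, k6⟩ := hab
    exact ⟨k1, k2, k3, k4, by linarith, by linarith⟩
  have hw := walk H hrρ (by linarith : ρ / 2 ≤ ρ) L' ω θ a b a b (fun x hx => (hL x hx).1) hAG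
    (hab.mono (by linarith)) hab2
  rcases H.pm _ hna with e | e
  · rw [e] at hw; linarith
  · rw [e] at hw; linarith

end Pool.Agent.H492R2
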