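import Pool.Agent.H492R2.Const
import Pool.Agent.H492R2.Meas

/-!
A pattern with product minus one exists at polynomial height.
-/

namespace Pool.Agent.H492R2

open Finset Pool.Agent.H358R2

theorem det_nm (d : QF) (a b : ℕ × ℕ) (m : ℕ) (h : a.1 * b.2 = a.2 * b.1 + m) :
    nm d a * nm d b = nm d (ip d a b, m) := by
  unfold nm ip
  zify at h ⊢
  have hm : (m : ℤ) = a.1 * b.2 - a.2 * b.1 := by linarith
  rw [hm]
  ring

theorem contra {h : ℕ → ℤ} (H : CM h) {d : QF} {p q : ℕ} (hp : 1 ≤ p) (hq : 1 ≤ q)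
    (hπ : h (nm d (p, q)) = -1) (D N : ℕ) (hD : 1 ≤ D)
    (hconst : ∀ c n, 1 ≤ c → D * c ≤ n → n ≤ N → h (nm d (n + 1, c)) = h (nm d (n, c)))
    (hN : d.M * (2 * D * q * (1 + p + q)) ^ 2 ≤ N) : False := by
  obtain ⟨s, hs⟩ : ∃ s, s = 2 * D * q := ⟨_, rfl⟩
  have hDq : 1 ≤ D * q := Nat.mul_pos hD hq
  have hs' : s = 2 * (D * q) := by rw [hs]; ring
  have hs1 : 1 ≤ s := by omega
  rw [← hs] at hN
  have hsq : 1 ≤ s * q := Nat.mul_pos hs1 hq
  -- constancy of the sign
  obtain ⟨v, hv⟩ : ∃ v, v = h (nm d (D * (s * q), s * q)) := ⟨_, rfl⟩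
  have hconst' : ∀ k, D * (s * q) + k ≤ N + 1 → h (nm d (D * (s * q) + k, s * q)) = v := by
    intro k
    induction k with
    | zero => intro _; rw [add_zero, hv]
    | succ k ih =>
      intro hk
      rw [← add_assoc, hconst (s * q) (D * (s * q) + k) hsq (Nat.le_add_right _ _) (by omega)]
      exact ih (by omega)
  have hvpm : v = 1 ∨ v = -1 := by
    rw [hv]
    apply H.pm
    apply nm_pos_of_sz
    unfold sz
    simp only
    omega
  obtain ⟨z, hz⟩ : ∃ z : ℕ → ℕ × ℕ, ∀ i, z i = (s - i + i * p, i * q) := ⟨_, fun i => rfl⟩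
  have hx : ∀ i, i ≤ s → s ≤ (z i).1 := by
    intro i hi
    rw [hz]
    simp only
    have : i * 1 ≤ i * p := Nat.mul_le_mul_left _ hp
    omega
  have hzsz : ∀ i, i ≤ s → sz (z i) ≤ s * (1 + p + q) := by
    intro i hi
    rw [hz]
    unfold sz
    simp only
    have h1 : i * p ≤ s * p := Nat.mul_le_mul_right _ hi
    have h2 : i * q ≤ s * q := Nat.mul_le_mul_right _ hi
    have h3 : s * (1 + p + q) = s + s * p + s * q := by ring
    omega
  have hstep : ∀ i, i + 1 ≤ s → h (nm d (z i)) * h (nm d (z (i + 1))) = v := by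
    intro i hi
    have hdet : (z i).1 * (z (i + 1)).2 = (z i).2 * (z (i + 1)).1 + s * q := by
      rw [hz, hz]
      simp only
      obtain ⟨t, ht⟩ := Nat.exists_eq_add_of_le hi
      have e1 : s - i = t + 1 := by omega
      have e2 : s - (i + 1) = t := by omega
      rw [e1, e2, ht]
      ring
    have hip1 : D * (s * q) ≤ ip d (z i) (z (i + 1)) := by
      have h1 := hx i (by omega)
      have h2 := hx (i + 1) hi
      calc D * (s * q) = (D * q) * s := by ring
        _ ≤ s * s := Nat.mul_le_mul_right _ (by omega)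
        _ ≤ (z i).1 * (z (i + 1)).1 := Nat.mul_le_mul h1 h2
        _ ≤ ip d (z i) (z (i + 1)) := by
          unfold ip
          rw [add_assoc]
          exact Nat.le_add_right _ _
    have hip2 : ip d (z i) (z (i + 1)) ≤ N := by
      refine le_trans (ip_le_sz _ _) (le_trans ?_ hN)
      apply Nat.mul_le_mul_left
      rw [pow_two]
      exact Nat.mul_le_mul (hzsz i (by omega)) (hzsz (i + 1) hi)
    obtain ⟨k, hk⟩ := Nat.exists_eq_add_of_le hip1
    have hn1 : nm d (z i) ≠ 0 := by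
      apply nm_pos_of_sz
      have := hx i (by omega)
      unfold sz; omega
    have hn2 : nm d (z (i + 1)) ≠ 0 := by
      apply nm_pos_of_sz
      have := hx (i + 1) hi
      unfold sz; omega
    rw [← H.mul _ _ hn1 hn2, det_nm d _ _ _ hdet, hk]
    apply hconst'
    omega
  have hz0 : h (nm d (z 0)) = 1 := by
    have : nm d (z 0) = s ^ 2 := by
      rw [hz]
      unfold nm
      simp
    rw [this]
    exact H.sq (by omega)
  have hall : ∀ i, i ≤ s → h (nm d (z i)) = v ^ i := by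
    intro i
    induction i with
    | zero => intro _; rw [hz0, pow_zero]
    | succ i ih =>
      intro hi
      have h1 := hstep i hi
      rw [ih (by omega)] at h1
      rw [pow_succ]
      rcases hvpm with e | e
      · rw [e] at h1 ⊢
        simp only [one_pow, one_mul] at h1 ⊢
        exact h1
      · rw [e] at h1 ⊢
        rcases neg_one_pow_eq_or ℤ i with f | f
        · rw [f] at h1 ⊢
          linarith
        · rw [f] at h1 ⊢
          linarith
  have hlast := hall s le_rfl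
  have hvs : v ^ s = 1 := by
    rw [hs', pow_mul]
    rcases hvpm with e | e <;> rw [e] <;> norm_num
  have hzs : nm d (z s) = s ^ 2 * nm d (p, q) := by
    rw [hz, Nat.sub_self, zero_add]
    unfold nm
    simp only
    ring
  have hn : nm d (p, q) ≠ 0 := by
    apply nm_pos_of_sz
    unfold sz
    simp only
    omega
  rw [hvs, hzs, H.mul _ _ (pow_ne_zero 2 (by omega)) hn, H.sq (by omega), hπ] at hlast
  norm_num at hlast

theorem sum_of_prod {ι : Type*} (s : Finset ι) (f : ι → ℤ) (hf : ∀ i ∈ s, f i = 1 ∨ f i = -1) :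
    (∏ i ∈ s, f i = 1 ∧ ∑ i ∈ s, (if f i = 1 then (0 : ZMod 2) else 1) = 0) ∨
      (∏ i ∈ s, f i = -1 ∧ ∑ i ∈ s, (if f i = 1 then (0 : ZMod 2) else 1) = 1) := by
  classical
  induction s using Finset.induction_on with
  | empty => left; simp
  | insert a s ha ih =>
    have ih' := ih (fun i hi => hf i (mem_insert_of_mem hi))
    rw [prod_insert ha, sum_insert ha]
    rcases hf a (mem_insert_self _ _) with e | e
    · rw [e, if_pos rfl, one_mul, zero_add]
      exact ih'
    · rw [e, if_neg (by norm_num)]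
      rcases ih' with ⟨h1, h2⟩ | ⟨h1, h2⟩
      · right
        rw [h1, h2]
        exact ⟨by norm_num, by decide⟩
      · left
        rw [h1, h2]
        exact ⟨by norm_num, by decide⟩

/-- existence of a pattern of sign minus one -/
theorem exists_pattern {h : ℕ → ℤ} (H : CM h) {d : QF} {p q : ℕ} (hp : 1 ≤ p) (hq : 1 ≤ q)
    (hπ : h (nm d (p, q)) = -1) (D X : ℕ) (hX : 1 ≤ X) (T0 : Finset ℕ) (hT0 : T0.Nonempty)
    (hT0X : T0 ⊆ range X) (N : ℕ)
    (hN : 2 * X ^ 2 * (d.M * (2 * (D + X ^ 2) * q * (1 + p + q)) ^ 2) + 3 * X ^ 3 + X ^ 2 ≤ N) :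
    ∃ c n r, 1 ≤ c ∧ D * c ≤ n ∧ n ≤ N ∧ 1 ≤ r ∧ r ≤ X ∧
      ∏ x ∈ T0, h (nm d (n + x * r, c)) = -1 := by
  by_contra hcon
  push Not at hcon
  have hnz : ∀ n c, 1 ≤ c → nm d (n, c) ≠ 0 := by
    intro n c hc
    apply nm_pos_of_sz
    unfold sz
    simp only
    omega
  obtain ⟨w, hw⟩ : ∃ w : ℕ → ℕ → ZMod 2, ∀ c n, w c n = if h (nm d (n, c)) = 1 then 0 else 1 :=
    ⟨_, fun _ _ => rfl⟩
  have hscale : ∀ k c n, 1 ≤ k → 1 ≤ c → w (k * c) (k * n) = w c n := by
    intro k c n hk hc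
    rw [hw, hw]
    have : nm d (k * n, k * c) = nm d (k • (n, c)) := by
      simp only [Prod.smul_mk, smul_eq_mul]
    rw [this, H.color_smul (by omega) (hnz n c hc)]
  have hrel : ∀ c n r, 1 ≤ c → D * c ≤ n → n ≤ N → 1 ≤ r → r ≤ X →
      ∑ x ∈ T0, w c (n + x * r) = 0 := by
    intro c n r hc hn hnN hr hrX
    have hne := hcon c n r hc hn hnN hr hrX
    simp only [hw]
    rcases sum_of_prod T0 (fun x => h (nm d (n + x * r, c)))
      (fun x _ => H.pm _ (hnz _ c hc)) with e | e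
    · exact e.2
    · exact absurd e.1 hne
  obtain ⟨T, hT, hop⟩ := killed w T0 X D N hT0 hT0X hrel
  have hX2 : 1 ≤ X ^ 2 := Nat.one_le_pow _ _ hX
  have hc := constancy w hscale T X (D + X ^ 2) (N - X ^ 2) hX hT (by
    intro c n hc hn hnN
    apply hop c n hc hn
    omega)
  apply contra H hp hq hπ (D + X ^ 2) (d.M * (2 * (D + X ^ 2) * q * (1 + p + q)) ^ 2) (by omega)
    _ le_rfl
  intro c n hc1 hn hnN
  have h1 := hc c n hc1 hn (by
    have : 2 * X ^ 2 * n ≤ 2 * X ^ 2 * (d.M * (2 * (D + X ^ 2) * q * (1 + p + q)) ^ 2) :=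
      Nat.mul_le_mul_left _ hnN
    omega)
  rw [hw, hw] at h1
  rcases H.pm _ (hnz (n + 1) c hc1) with e | e <;> rcases H.pm _ (hnz n c hc1) with f | f
  · rw [e, f]
  · rw [e, f] at h1
    exact absurd h1 (by norm_num)
  · rw [e, f] at h1
    exact absurd h1 (by norm_num)
  · rw [e, f]

end Pool.Agent.H492R2
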