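import Pool.Agent.H492R2.Contra
import Pool.Agent.H492R2.ANG
import Pool.Agent.H407R2.H492_PTE

/-!
Few bad vectors are impossible.
-/

namespace Pool.Agent.H492R2

open Finset Pool.Agent.H358R2

theorem sg_append (h : ℕ → ℤ) (d : QF) (L1 L2 : List (ℕ × ℕ × Bool)) :
    sg h d (L1 ++ L2) = sg h d L1 * sg h d L2 := by
  induction L1 with
  | nil => simp [sg]
  | cons a L ih => simp only [List.cons_append, sg, ih]; ring

theorem tot_append (d : QF) (L1 L2 : List (ℕ × ℕ × Bool)) :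
    tot d (L1 ++ L2) = tot d L1 + tot d L2 := by
  induction L1 with
  | nil => simp [tot]
  | cons a L ih => simp only [List.cons_append, tot, ih]; ring

theorem sg_map (h : ℕ → ℤ) (d : QF) (f : ℕ → ℕ × ℕ × Bool) (L : List ℕ) :
    sg h d (L.map f) = (L.map fun x => h (nw d (f x))).prod := by
  induction L with
  | nil => simp [sg]
  | cons a L ih => simp only [List.map_cons, sg, ih, List.prod_cons]

theorem tot_map (d : QF) (f : ℕ → ℕ × ℕ × Bool) (L : List ℕ) :
    tot d (L.map f) = (L.map fun x => al d (f x)).sum := by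
  induction L with
  | nil => simp [tot]
  | cons a L ih => simp only [List.map_cons, tot, ih, List.sum_cons]

theorem core {h : ℕ → ℤ} (H : CM h) {d : QF} {p q : ℕ} (hp : 1 ≤ p) (hq : 1 ≤ q)
    (hπ : h (nm d (p, q)) = -1) {lo hi : ℝ}
    (hJ : ∀ θ, lo ≤ θ → θ ≤ hi → Jn d θ) (hlen0 : lo < hi) (hlen4 : hi - lo ≤ 4)
    {C1 C2 : ℕ} (hC1 : 1032 * (d.M : ℝ) < C1 * (hi - lo)) (hC2a : 10 * d.M ≤ C2)
    (hC2b : 4 * (d.M : ℝ) ≤ C2 * (hi - lo)) {j X K W Q A : ℕ} (hj : 16 ≤ j) (hX : X = j ^ 3)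
    (hK : K = C1 * X)
    (hW : W = 3 * (2 * X ^ 2 * (d.M * (2 * (C2 * X ^ 2 + X ^ 2) * q * (1 + p + q)) ^ 2) +
      3 * X ^ 3 + X ^ 2))
    (hQ : 4 ≤ Q) (hA : 16 * K ^ 2 * A ≤ Q ^ 2) (hang : 8 * X * K * Q ^ 2 ≤ 2 ^ j)
    (hbad : ((badF h d A (W * (8 * K ^ 2 * Q))).card : ℝ) ≤ 128 * K * Q ^ 2) : False := by
  classical
  have hM := d.M_pos
  have hMr : (1 : ℝ) ≤ d.M := by exact_mod_cast hM
  have hX1 : 1 ≤ X := by rw [hX]; exact Nat.one_le_pow _ _ (by omega)
  have hX2 : 1 ≤ X ^ 2 := Nat.one_le_pow _ _ hX1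
  obtain ⟨A', B', hA', hB', hdisj, hAne, hBne, hpow⟩ := pte_cube j hj
  rw [← hX] at hA' hB'
  have hT0X : A' ∪ B' ⊆ range X := union_subset hA' hB'
  obtain ⟨N1, hN1⟩ : ∃ N1, N1 = 2 * X ^ 2 *
      (d.M * (2 * (C2 * X ^ 2 + X ^ 2) * q * (1 + p + q)) ^ 2) + 3 * X ^ 3 + X ^ 2 := ⟨_, rfl⟩
  obtain ⟨c, n, r, hc, hn, hnN, hr, hrX, hprod⟩ := exists_pattern H hp hq hπ (C2 * X ^ 2) X hX1
    (A' ∪ B') (hAne.mono subset_union_left) hT0X N1 (le_of_eq hN1.symm)
  rw [← hN1] at hW
  -- elementary inequalities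
  have hC2pos : 1 ≤ C2 := by omega
  have hcX : c ≤ X ^ 2 * c := Nat.le_mul_of_pos_left _ hX2
  have hCc : C2 * c ≤ n := by
    calc C2 * c ≤ C2 * (X ^ 2 * c) := Nat.mul_le_mul_left _ hcX
      _ = C2 * X ^ 2 * c := by ring
      _ ≤ n := hn
  have hMc : 10 * d.M * c ≤ n := (Nat.mul_le_mul_right _ hC2a).trans hCc
  have hXn : C2 * X ^ 2 ≤ n := by
    calc C2 * X ^ 2 = C2 * X ^ 2 * 1 := by ring
      _ ≤ C2 * X ^ 2 * c := Nat.mul_le_mul_left _ hc
      _ ≤ n := hn
  have hn1 : 1 ≤ n := le_trans (Nat.mul_pos hC2pos hX2) hXn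
  have hMc' : d.M * c ≤ n := by
    have : d.M * c ≤ 10 * d.M * c := Nat.mul_le_mul_right _ (by omega)
    omega
  have hX2N : X ^ 2 ≤ N1 := by rw [hN1]; exact Nat.le_add_left _ _
  obtain ⟨fA, hfA⟩ : ∃ f : ℕ → ℕ × ℕ × Bool, ∀ x, f x = (n + x * r, c, true) :=
    ⟨_, fun _ => rfl⟩
  obtain ⟨fB, hfB⟩ : ∃ f : ℕ → ℕ × ℕ × Bool, ∀ x, f x = (n + x * r, c, false) :=
    ⟨_, fun _ => rfl⟩
  set Ls : List (ℕ × ℕ × Bool) := A'.toList.map fA ++ B'.toList.map fB with hLs
  have hlenN : Ls.length ≤ X := by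
    rw [hLs, List.length_append, List.length_map, List.length_map, length_toList, length_toList,
      ← card_union_of_disjoint hdisj]
    calc (A' ∪ B').card ≤ (range X).card := card_le_card hT0X
      _ = X := card_range X
  have hne : Ls ≠ [] := by
    obtain ⟨a, ha⟩ := hAne
    intro h0
    have : fA a ∈ Ls := by
      rw [hLs, List.mem_append]
      left
      exact List.mem_map_of_mem (mem_toList.2 ha)
    rw [h0] at this
    exact absurd this List.not_mem_nil
  have hmem : ∀ ω ∈ Ls, ∃ x, x < X ∧ ω.1 = n + x * r ∧ ω.2.1 = c := by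
    intro ω hω
    rw [hLs, List.mem_append, List.mem_map, List.mem_map] at hω
    rcases hω with ⟨x, hx, rfl⟩ | ⟨x, hx, rfl⟩
    · rw [mem_toList] at hx
      rw [hfA]
      exact ⟨x, mem_range.1 (hA' hx), rfl, rfl⟩
    · rw [mem_toList] at hx
      rw [hfB]
      exact ⟨x, mem_range.1 (hB' hx), rfl, rfl⟩
  have hXr : (1 : ℝ) ≤ X := by exact_mod_cast hX1
  have hlenR : (Ls.length : ℝ) ≤ X := by exact_mod_cast hlenN
  have hC2R : (0 : ℝ) < C2 := by exact_mod_cast hC2pos
  have hδ : 0 < hi - lo := by linarith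
  have hKR : (K : ℝ) = C1 * X := by rw [hK]; push_cast; ring
  have hC1R : (0 : ℝ) < C1 := by
    by_contra h0
    push Not at h0
    have : (C1 : ℝ) * (hi - lo) ≤ 0 := mul_nonpos_of_nonpos_of_nonneg h0 hδ.le
    linarith
  have hKpos : (0 : ℝ) < K := by rw [hKR]; positivity
  have hQR : (0 : ℝ) < Q := by
    have : 0 < Q := by omega
    exact_mod_cast this
  have hsg := main_lemma H hJ hlen0 hlen4 (A := A) (K := K) (Q := Q) (R := 8 * K ^ 2 * Q) (W := W)
    hQ rfl hA hbad Ls hne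
    (by
      rw [hKR]
      calc 516 * (d.M : ℝ) * (Ls.length + 1) ≤ 516 * (d.M : ℝ) * (X + X) := by
            apply mul_le_mul_of_nonneg_left (by linarith) (by positivity)
        _ = (1032 * d.M) * X := by ring
        _ < (C1 * (hi - lo)) * X := mul_lt_mul_of_pos_right hC1 (by linarith)
        _ = C1 * X * (hi - lo) := by ring)
    (η := d.M / (C2 * X ^ 2))
    (by
      intro ω hω
      obtain ⟨x, hx, h1, h2⟩ := hmem ω hω
      have hok : Ok d ω := by
        refine ⟨by rw [h1]; omega, ?_⟩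
        rw [h1, h2]
        omega
      have hxr : x * r ≤ X ^ 2 := by
        calc x * r ≤ X * X := Nat.mul_le_mul hx.le hrX
          _ = X ^ 2 := by ring
      refine ⟨hok, ?_, ?_⟩
      · rw [h1, h2, hW]
        omega
      · refine (al_abs_le hok.1).trans ?_
        rw [h1, h2]
        have hnn : (0 : ℝ) < ((n + x * r : ℕ) : ℝ) := by
          have : 0 < n + x * r := by omega
          exact_mod_cast this
        rw [div_le_div_iff₀ hnn (by positivity)]
        have h3 : (C2 : ℝ) * X ^ 2 * c ≤ ((n + x * r : ℕ) : ℝ) := by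
          have : C2 * X ^ 2 * c ≤ n + x * r := hn.trans (Nat.le_add_right _ _)
          exact_mod_cast this
        calc (d.M : ℝ) * c * (C2 * X ^ 2) = d.M * (C2 * X ^ 2 * c) := by ring
          _ ≤ d.M * ((n + x * r : ℕ) : ℝ) := mul_le_mul_of_nonneg_left h3 (by positivity))
    (by
      have h4 : (Ls.length : ℝ) * (d.M / (C2 * X ^ 2)) ≤ X * (d.M / (C2 * X ^ 2)) :=
        mul_le_mul_of_nonneg_right hlenR (by positivity)
      have h5 : (X : ℝ) * (d.M / (C2 * X ^ 2)) ≤ d.M / C2 := by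
        rw [mul_div_assoc', div_le_div_iff₀ (by positivity) hC2R]
        have : (X : ℝ) * 1 ≤ X * X := mul_le_mul_of_nonneg_left hXr (by positivity)
        nlinarith [mul_pos hC2R (by linarith : (0 : ℝ) < d.M)]
      have h6 : (d.M : ℝ) / C2 ≤ (hi - lo) / 4 := by
        rw [div_le_div_iff₀ hC2R (by norm_num)]
        linarith
      linarith)
    (by
      have hsumA : tot d (A'.toList.map fA) =
          ∑ x ∈ A', Real.arctan ((d.κ * c) / (((n : ℝ) + d.b / 2 * c) + (r : ℝ) * x)) := by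
        rw [tot_map, Finset.sum_map_toList]
        apply sum_congr rfl
        intro x _
        rw [hfA]
        unfold al
        simp only [if_true]
        congr 2
        push_cast
        ring
      have hsumB : tot d (B'.toList.map fB) =
          -∑ x ∈ B', Real.arctan ((d.κ * c) / (((n : ℝ) + d.b / 2 * c) + (r : ℝ) * x)) := by
        rw [tot_map, Finset.sum_map_toList, ← sum_neg_distrib]
        apply sum_congr rfl
        intro x _
        rw [hfB]
        unfold al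
        simp only [Bool.false_eq_true, if_false]
        congr 3
        push_cast
        ring
      rw [hLs, tot_append, hsumA, hsumB, ← sub_eq_add_neg]
      have hnR : (1 : ℝ) ≤ n := by exact_mod_cast hn1
      have hb0 : (0 : ℝ) ≤ (d.b : ℝ) / 2 * c := by positivity
      refine (angle_small ((n : ℝ) + d.b / 2 * c) (d.κ * c) (by linarith) r X j (by omega)
        A' B' hA' hB' hpow ?_).trans ?_
      · have h7 : 2 * r * X ≤ n := by
          calc 2 * r * X ≤ 2 * X * X := Nat.mul_le_mul_right _ (Nat.mul_le_mul_left _ hrX)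
            _ = 2 * X ^ 2 := by ring
            _ ≤ C2 * X ^ 2 := Nat.mul_le_mul_right _ (by omega)
            _ ≤ n := hXn
        have h7' : 2 * (r : ℝ) * X ≤ n := by exact_mod_cast h7
        linarith
      · rw [div_le_div_iff₀ (by positivity) (by positivity)]
        have h8 : (8 : ℝ) * X * K * Q ^ 2 ≤ 2 ^ j := by exact_mod_cast hang
        calc 4 * (X : ℝ) * (2 * (K * Q ^ 2)) = 8 * X * K * Q ^ 2 := by ring
          _ ≤ 1 * 2 ^ j := by rw [one_mul]; exact h8)
  have hsg2 : sg h d Ls = ∏ x ∈ A' ∪ B', h (nm d (n + x * r, c)) := by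
    rw [hLs, sg_append, sg_map, sg_map, prod_union hdisj, Finset.prod_map_toList,
      Finset.prod_map_toList]
    congr 1
    · apply prod_congr rfl
      intro x _
      rw [hfA]
      rfl
    · apply prod_congr rfl
      intro x _
      rw [hfB]
      rfl
  rw [hsg2, hprod] at hsg
  norm_num at hsg

end Pool.Agent.H492R2
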