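import Mathlib

/-!
Sequences over `ZMod 2` and the shift operator.
-/

namespace Pool.Agent.H492R2

open Polynomial

/-- the shift operator on sequences -/
def Sh : (ℕ → ZMod 2) →ₗ[ZMod 2] (ℕ → ZMod 2) where
  toFun u := fun n => u (n + 1)
  map_add' _ _ := rfl
  map_smul' _ _ := rfl

/-- a polynomial in the shift operator applied to a sequence -/
noncomputable def op (P : (ZMod 2)[X]) (u : ℕ → ZMod 2) : ℕ → ZMod 2 :=
  (Polynomial.aeval Sh P) u

/-- the product of `X ^ (x / gcd (x,k)) + 1`, `x ∈ T` -/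
noncomputable def PP (T : Finset ℕ) (k : ℕ) : (ZMod 2)[X] :=
  ∏ x ∈ T, ((Polynomial.X : (ZMod 2)[X]) ^ (x / Nat.gcd x k) + 1)

end Pool.Agent.H492R2
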