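import Mathlib

set_option autoImplicit false

namespace Pool.Agent.H492R2.ErdosPow

/-- First part: doubling at the top forces all earlier sums to be small. -/
lemma partA (n M : ℕ) (hM : 2 * (M - 1) ^ n < M ^ n) :
    ∀ k : ℕ, k + 1 ≤ M → ∑ i ∈ Finset.Icc 1 k, i ^ n < (k + 1) ^ n := by
  intro k
  induction k with
  | zero => intro _; simp
  | succ k ih =>
    intro hk
    have h1 := ih (by omega)
    rw [Finset.sum_Icc_succ_top (by omega)]
    have h2 : (k + 1) * M ≤ (k + 1 + 1) * (M - 1) := by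
      obtain ⟨t, rfl⟩ : ∃ t, M = k + 2 + t := ⟨M - (k + 2), by omega⟩
      have : k + 2 + t - 1 = k + 1 + t := by omega
      rw [this]
      nlinarith
    have h3 : (k + 1) ^ n * M ^ n ≤ (k + 1 + 1) ^ n * (M - 1) ^ n := by
      rw [← mul_pow, ← mul_pow]
      exact Nat.pow_le_pow_left h2 n
    have hpos : 0 < (M - 1) ^ n := by
      apply pow_pos; omega
    have hk1 : 0 < (k + 1) ^ n := by positivity
    have h4 : (M - 1) ^ n * (2 * (k + 1) ^ n) < (M - 1) ^ n * (k + 1 + 1) ^ n := by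
      calc (M - 1) ^ n * (2 * (k + 1) ^ n) = (k + 1) ^ n * (2 * (M - 1) ^ n) := by ring
        _ < (k + 1) ^ n * M ^ n := by
            exact Nat.mul_lt_mul_of_pos_left hM hk1
        _ ≤ (k + 1 + 1) ^ n * (M - 1) ^ n := h3
        _ = (M - 1) ^ n * (k + 1 + 1) ^ n := by ring
    have h5 := lt_of_mul_lt_mul_left h4 (Nat.zero_le _)
    omega

/-- Bonferroni lower bound. -/
lemma bonf3 (d : ℝ) (h0 : 0 ≤ d) (h1 : d ≤ 1) (n : ℕ) :
    1 - n * d + n * (n - 1) / 2 * d ^ 2 - n * (n - 1) * (n - 2) / 6 * d ^ 3 ≤ (1 - d) ^ n := by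
  induction n with
  | zero => simp
  | succ n ih =>
    have h2 : (0:ℝ) ≤ 1 - d := by linarith
    have h3 := mul_le_mul_of_nonneg_right ih h2
    have h4 : (0:ℝ) ≤ (n:ℝ) * (n - 1) * (n - 2) := by
      rcases n with _ | _ | n
      · simp
      · simp
      · push_cast
        have : (0:ℝ) ≤ n := Nat.cast_nonneg n
        have e : ((n:ℝ) + 1 + 1) * (n + 1 + 1 - 1) * (n + 1 + 1 - 2) = (n + 2) * (n + 1) * n := by
          ring
        rw [e]; positivity
    have h5 : (0:ℝ) ≤ (n:ℝ) * (n - 1) * (n - 2) * d ^ 4 := by positivity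
    rw [pow_succ (1 - d) n]
    refine le_trans (le_trans ?_ (sub_le_self _ (by positivity : (0:ℝ) ≤ (n:ℝ) * (n - 1) * (n - 2) * d ^ 4 / 6))) h3
    push_cast
    exact le_of_eq (by ring)

lemma bonf2 (d : ℝ) (h0 : 0 ≤ d) (h1 : d ≤ 1) (n : ℕ) :
    (1 - d) ^ n ≤ 1 - n * d + n * (n - 1) / 2 * d ^ 2 := by
  induction n with
  | zero => simp
  | succ n ih =>
    have h2 : (0:ℝ) ≤ 1 - d := by linarith
    have h3 := mul_le_mul_of_nonneg_right ih h2
    have h4 : (0:ℝ) ≤ (n:ℝ) * (n - 1) := by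
      rcases n with _ | n
      · simp
      · push_cast
        have : (0:ℝ) ≤ n := Nat.cast_nonneg n
        have e : ((n:ℝ) + 1) * (n + 1 - 1) = (n + 1) * n := by ring
        rw [e]; positivity
    have h5 : (0:ℝ) ≤ (n:ℝ) * (n - 1) * d ^ 3 / 2 := by positivity
    rw [pow_succ (1 - d) n]
    refine le_trans h3 ?_
    push_cast
    nlinarith [h5]

/-- The correction polynomial. -/
noncomputable def del (h : ℝ) (k : ℕ) : ℝ :=
  ((k:ℝ) ^ 2 - k) / 2 * h ^ 2 + ((k:ℝ) ^ 3 - k) / 3 * h ^ 3 +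
    ((k:ℝ) - 1) * k * (k + 1) * (k + 2) / 6 * h ^ 4

lemma del_nonneg (h : ℝ) (hh : 0 ≤ h) (k : ℕ) : 0 ≤ del h k := by
  unfold del
  rcases k with _ | k
  · simp
  · push_cast
    have hk : (0:ℝ) ≤ k := Nat.cast_nonneg k
    have e1 : ((k:ℝ) + 1) ^ 2 - (k + 1) = k * (k + 1) := by ring
    have e2 : ((k:ℝ) + 1) ^ 3 - (k + 1) = k * (k + 1) * (k + 2) := by ring
    have e3 : ((k:ℝ) + 1) - 1 = k := by ring
    rw [e1, e2, e3]
    positivity

/-- `a_k = (k^2-k)/2`. -/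
lemma del_le (h : ℝ) (hh : 0 ≤ h) (hh' : h ≤ 1 / 100) (k : ℕ) (hk : (k:ℝ) * h ≤ 1 / 4) :
    del h k ≤ 6 / 5 * (((k:ℝ) ^ 2 - k) / 2 * h ^ 2) := by
  unfold del
  rcases k with _ | k
  · simp
  · push_cast at *
    have hk0 : (0:ℝ) ≤ k := Nat.cast_nonneg k
    have e1 : ((k:ℝ) + 1) ^ 2 - (k + 1) = k * (k + 1) := by ring
    have e2 : ((k:ℝ) + 1) ^ 3 - (k + 1) = k * (k + 1) * (k + 2) := by ring
    have e3 : ((k:ℝ) + 1) - 1 = k := by ring
    rw [e1, e2, e3]
    have key : (k * (k + 1) * (k + 2) / 3 * h ^ 3 +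
        (k:ℝ) * (k + 1) * (k + 1 + 1) * (k + 1 + 2) / 6 * h ^ 4) ≤
        1 / 5 * (k * (k + 1) / 2 * h ^ 2) := by
      have f : (k * (k + 1) * (k + 2) / 3 * h ^ 3 +
        (k:ℝ) * (k + 1) * (k + 1 + 1) * (k + 1 + 2) / 6 * h ^ 4) =
        (k * (k + 1) / 2 * h ^ 2) * (2 / 3 * ((k + 2) * h) + 1 / 3 * ((k + 2) * h) * ((k + 3) * h)) := by
        ring
      rw [f, mul_comm (1 / 5 : ℝ)]
      apply mul_le_mul_of_nonneg_left _ (by positivity)
      have g1 : ((k:ℝ) + 2) * h ≤ 26 / 100 := by nlinarith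
      have g2 : ((k:ℝ) + 3) * h ≤ 27 / 100 := by nlinarith
      have g3 : 0 ≤ ((k:ℝ) + 2) * h := by positivity
      have g4 : 0 ≤ ((k:ℝ) + 3) * h := by positivity
      have g5 : ((k:ℝ) + 2) * h * (((k:ℝ) + 3) * h) ≤ 26 / 100 * (27 / 100) := by
        apply mul_le_mul g1 g2 g4 (by norm_num)
      nlinarith
    linarith

lemma wk (h : ℝ) (hh : 0 ≤ h) (hh' : h ≤ 1 / 100) (k : ℕ) (hk : (k:ℝ) * h ≤ 1 / 4) :
    (1 - h) ^ k * (1 - del h k) ≤ 1 - k * h := by
  induction k with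
  | zero => simp [del]
  | succ k ih =>
    have hk0 : (0:ℝ) ≤ k := Nat.cast_nonneg k
    push_cast at hk
    have hk' : (k:ℝ) * h ≤ 1 / 4 := by nlinarith
    have h1 := ih hk'
    have hd0 := del_nonneg h hh k
    have hd1 := del_nonneg h hh (k + 1)
    have hdl := del_le h hh hh' k hk'
    have hdl1 := del_le h hh hh' (k + 1) (by push_cast; linarith)
    have small : ∀ j : ℕ, (j:ℝ) * h ≤ 1 / 4 → del h j ≤ 1 / 10 := by
      intro j hj
      have q1 := del_le h hh hh' j hj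
      have hj0 : (0:ℝ) ≤ j := Nat.cast_nonneg j
      have q2 : ((j:ℝ) ^ 2 - j) / 2 * h ^ 2 ≤ (j * h) ^ 2 / 2 := by
        nlinarith [mul_nonneg hj0 (sq_nonneg h)]
      have q3 : ((j:ℝ) * h) ^ 2 ≤ (1 / 4) ^ 2 := by
        apply pow_le_pow_left₀ (by positivity) hj
      nlinarith
    have s0 := small k hk'
    have s1 := small (k + 1) (by push_cast; linarith)
    have hpos : 0 < 1 - del h k := by linarith
    have hp1 : 0 < 1 - del h (k + 1) := by linarith
    -- main polynomial inequality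
    have key : (1 - k * h) * ((1 - h) * (1 - del h (k + 1))) ≤
        (1 - ((k:ℝ) + 1) * h) * (1 - del h k) := by
      have dd : del h (k + 1) - del h k =
          k * h ^ 2 + (k:ℝ) * (k + 1) * h ^ 3 + 2 / 3 * ((k:ℝ) * (k + 1) * (k + 2)) * h ^ 4 := by
        unfold del; push_cast; ring
      have d2 : ((k:ℝ) ^ 2 + k) / 2 * h ^ 2 ≤ del h (k + 1) := by
        unfold del
        push_cast
        have u1 : 0 ≤ (((k:ℝ) + 1) ^ 3 - (k + 1)) / 3 * h ^ 3 := by
          have e2 : ((k:ℝ) + 1) ^ 3 - (k + 1) = k * (k + 1) * (k + 2) := by ring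
          rw [e2]; positivity
        have u2 : 0 ≤ ((k:ℝ) + 1 - 1) * (k + 1) * (k + 1 + 1) * (k + 1 + 2) / 6 * h ^ 4 := by
          have e3 : ((k:ℝ) + 1) - 1 = k := by ring
          rw [e3]; positivity
        nlinarith
      -- (1-(k+1)h)(D' - D) ≥ k h^2 (1 - D')
      have goal2 : k * h ^ 2 * (1 - del h (k + 1)) ≤
          (1 - ((k:ℝ) + 1) * h) * (del h (k + 1) - del h k) := by
        rw [dd]
        have v1 : k * h ^ 2 * (1 - del h (k + 1)) ≤ k * h ^ 2 * (1 - ((k:ℝ) ^ 2 + k) / 2 * h ^ 2) := by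
          apply mul_le_mul_of_nonneg_left _ (by positivity)
          linarith
        refine le_trans v1 ?_
        have v2 : (1 - ((k:ℝ) + 1) * h) * (k * h ^ 2 + (k:ℝ) * (k + 1) * h ^ 3 +
            2 / 3 * ((k:ℝ) * (k + 1) * (k + 2)) * h ^ 4) -
            k * h ^ 2 * (1 - ((k:ℝ) ^ 2 + k) / 2 * h ^ 2) =
            (k * (k + 1) * h ^ 4) * (2 / 3 * (k + 2) * (1 - ((k:ℝ) + 1) * h) - (k + 1) + k / 2) := by
          ring
        have v3 : 0 ≤ 2 / 3 * ((k:ℝ) + 2) * (1 - ((k:ℝ) + 1) * h) - (k + 1) + k / 2 := by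
          nlinarith
        have v4 : 0 ≤ (k * (k + 1) * h ^ 4) * (2 / 3 * ((k:ℝ) + 2) * (1 - ((k:ℝ) + 1) * h) -
            (k + 1) + k / 2) := by positivity
        linarith
      nlinarith [goal2]
    -- conclude
    have e : (1 - h) ^ (k + 1) * (1 - del h (k + 1)) * (1 - del h k) =
        ((1 - h) ^ k * (1 - del h k)) * ((1 - h) * (1 - del h (k + 1))) := by ring
    have f : (1 - h) ^ (k + 1) * (1 - del h (k + 1)) * (1 - del h k) ≤
        (1 - ((k:ℝ) + 1) * h) * (1 - del h k) := by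
      rw [e]
      refine le_trans (mul_le_mul_of_nonneg_right h1 ?_) key
      apply mul_nonneg (by linarith) hp1.le
    push_cast
    exact le_of_mul_le_mul_right f hpos

end Pool.Agent.H492R2.ErdosPow
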