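import Mathlib
import Pool.Agent.H492R2.ErdosPow

set_option autoImplicit false

namespace Pool.Agent.H492R2.ErdosPow

lemma sum0 (K : ℕ) : ∑ k ∈ Finset.range (K + 1), (1 / 2 : ℝ) ^ k = 2 - (1 / 2) ^ K := by
  induction K with
  | zero => norm_num
  | succ K ih => rw [Finset.sum_range_succ, ih, pow_succ]; ring

lemma sumA (K : ℕ) : ∑ k ∈ Finset.range (K + 1), (1 / 2 : ℝ) ^ k * (((k:ℝ) ^ 2 - k) / 2) =
    2 - (1 / 2) ^ K * (2 + 3 / 2 * K + 1 / 2 * (K:ℝ) ^ 2) := by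
  induction K with
  | zero => norm_num
  | succ K ih => rw [Finset.sum_range_succ, ih, pow_succ]; push_cast; ring

lemma sumB (K : ℕ) : ∑ k ∈ Finset.range (K + 1), (1 / 2 : ℝ) ^ k * (((k:ℝ) ^ 3 - k) / 3) =
    8 - (1 / 2) ^ K * (8 + 17 / 3 * K + 2 * (K:ℝ) ^ 2 + 1 / 3 * (K:ℝ) ^ 3) := by
  induction K with
  | zero => norm_num
  | succ K ih => rw [Finset.sum_range_succ, ih, pow_succ]; push_cast; ring

lemma sumC (K : ℕ) : ∑ k ∈ Finset.range (K + 1), (1 / 2 : ℝ) ^ k *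
      (((k:ℝ) - 1) * k * (k + 1) * (k + 2) / 6) =
    32 - (1 / 2) ^ K * (32 + 67 / 3 * K + 47 / 6 * (K:ℝ) ^ 2 + 5 / 3 * (K:ℝ) ^ 3 +
      1 / 6 * (K:ℝ) ^ 4) := by
  induction K with
  | zero => norm_num
  | succ K ih => rw [Finset.sum_range_succ, ih, pow_succ]; push_cast; ring

lemma sumA2 (K : ℕ) : ∑ k ∈ Finset.range (K + 1), (1 / 2 : ℝ) ^ k * (((k:ℝ) ^ 2 - k) / 2) ^ 2 =
    26 - (1 / 2) ^ K * (26 + 18 * K + 25 / 4 * (K:ℝ) ^ 2 + 3 / 2 * (K:ℝ) ^ 3 +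
      1 / 4 * (K:ℝ) ^ 4) := by
  induction K with
  | zero => norm_num
  | succ K ih => rw [Finset.sum_range_succ, ih, pow_succ]; push_cast; ring

lemma sumA3 (K : ℕ) : ∑ k ∈ Finset.range (K + 1), (1 / 2 : ℝ) ^ k * (((k:ℝ) ^ 2 - k) / 2) ^ 3 =
    818 - (1 / 2) ^ K * (818 + 567 * K + 393 / 2 * (K:ℝ) ^ 2 + 363 / 8 * (K:ℝ) ^ 3 +
      63 / 8 * (K:ℝ) ^ 4 + 9 / 8 * (K:ℝ) ^ 5 + 1 / 8 * (K:ℝ) ^ 6) := by
  induction K with
  | zero => norm_num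
  | succ K ih => rw [Finset.sum_range_succ, ih, pow_succ]; push_cast; ring

/-- `2^{-K}` is tiny compared with `(K+1)^{-6}`. -/
lemma pow_small (K : ℕ) (hK : 200 ≤ K) : (K + 1) ^ 6 * 10 ^ 20 ≤ 2 ^ K := by
  induction K, hK using Nat.le_induction with
  | base => norm_num
  | succ K hK ih =>
    rw [pow_succ 2 K]
    have h1 : (K + 1 + 1) ^ 6 ≤ 2 * (K + 1) ^ 6 := by
      have h2 : 200 * (K + 1 + 1) ≤ 201 * (K + 1) := by omega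
      have h3 := Nat.pow_le_pow_left h2 6
      rw [mul_pow, mul_pow] at h3
      have h4 : (201:ℕ) ^ 6 ≤ 2 * 200 ^ 6 := by norm_num
      have h5 : 200 ^ 6 * (K + 1 + 1) ^ 6 ≤ 200 ^ 6 * (2 * (K + 1) ^ 6) := by
        calc 200 ^ 6 * (K + 1 + 1) ^ 6 ≤ 201 ^ 6 * (K + 1) ^ 6 := h3
          _ ≤ (2 * 200 ^ 6) * (K + 1) ^ 6 := Nat.mul_le_mul_right _ h4
          _ = 200 ^ 6 * (2 * (K + 1) ^ 6) := by ring
      exact Nat.le_of_mul_le_mul_left h5 (by norm_num)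
    calc (K + 1 + 1) ^ 6 * 10 ^ 20 ≤ (2 * (K + 1) ^ 6) * 10 ^ 20 := Nat.mul_le_mul_right _ h1
      _ = (K + 1) ^ 6 * 10 ^ 20 * 2 := by ring
      _ ≤ 2 ^ K * 2 := Nat.mul_le_mul_right _ ih

/-- per-term lower bound -/
lemma term_lower (h : ℝ) (hh : 0 ≤ h) (hh' : h ≤ 1 / 100) (n : ℕ) (hn : 2 ≤ n)
    (hρ : 1 / 2 < (1 - h) ^ n)
    (k : ℕ) (hk : (k:ℝ) * h ≤ 1 / 4) :
    (1 / 2 : ℝ) ^ k * (1 - n * del h k + n * (n - 1) / 2 * ((((k:ℝ) ^ 2 - k) / 2) ^ 2 * h ^ 4)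
      - (n:ℝ) ^ 3 / 6 * (216 / 125 * ((((k:ℝ) ^ 2 - k) / 2) ^ 3 * h ^ 6))) ≤ (1 - k * h) ^ n := by
  have hk0 : (0:ℝ) ≤ k := Nat.cast_nonneg k
  have hn2 : (2:ℝ) ≤ n := by exact_mod_cast hn
  have ha0 : (0:ℝ) ≤ ((k:ℝ) ^ 2 - k) / 2 := by
    rcases k with _ | k
    · simp
    · push_cast
      have : (0:ℝ) ≤ k := Nat.cast_nonneg k
      have e1 : ((k:ℝ) + 1) ^ 2 - (k + 1) = k * (k + 1) := by ring
      rw [e1]; positivity
  have hd0 := del_nonneg h hh k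
  have hdl := del_le h hh hh' k hk
  have hd1 : del h k ≤ 1 := by
    have q2 : ((k:ℝ) ^ 2 - k) / 2 * h ^ 2 ≤ (k * h) ^ 2 / 2 := by
      nlinarith [mul_nonneg hk0 (sq_nonneg h)]
    have q3 : ((k:ℝ) * h) ^ 2 ≤ (1 / 4) ^ 2 := by
      apply pow_le_pow_left₀ (by positivity) hk
    nlinarith
  have hdl2 : ((k:ℝ) ^ 2 - k) / 2 * h ^ 2 ≤ del h k := by
    unfold del
    have u1 : 0 ≤ (((k:ℝ)) ^ 3 - k) / 3 * h ^ 3 := by
      rcases k with _ | k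
      · simp
      · push_cast
        have : (0:ℝ) ≤ k := Nat.cast_nonneg k
        have e2 : ((k:ℝ) + 1) ^ 3 - (k + 1) = k * (k + 1) * (k + 2) := by ring
        rw [e2]; positivity
    have u2 : 0 ≤ ((k:ℝ) - 1) * k * (k + 1) * (k + 2) / 6 * h ^ 4 := by
      rcases k with _ | k
      · simp
      · push_cast
        have : (0:ℝ) ≤ k := Nat.cast_nonneg k
        have e3 : ((k:ℝ) + 1) - 1 = k := by ring
        rw [e3]; positivity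
    linarith
  have hb := bonf3 (del h k) hd0 hd1 n
  have hw := wk h hh hh' k hk
  have hsq : (((k:ℝ) ^ 2 - k) / 2) ^ 2 * h ^ 4 ≤ del h k ^ 2 := by
    have := pow_le_pow_left₀ (by positivity) hdl2 2
    calc _ = (((k:ℝ) ^ 2 - k) / 2 * h ^ 2) ^ 2 := by ring
      _ ≤ _ := this
  have hcu : del h k ^ 3 ≤ 216 / 125 * ((((k:ℝ) ^ 2 - k) / 2) ^ 3 * h ^ 6) := by
    have := pow_le_pow_left₀ hd0 hdl 3
    calc _ ≤ _ := this
      _ = _ := by ring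
  have hP : (1 - n * del h k + n * (n - 1) / 2 * ((((k:ℝ) ^ 2 - k) / 2) ^ 2 * h ^ 4)
      - (n:ℝ) ^ 3 / 6 * (216 / 125 * ((((k:ℝ) ^ 2 - k) / 2) ^ 3 * h ^ 6))) ≤ (1 - del h k) ^ n := by
    refine le_trans ?_ hb
    have c1 : (n:ℝ) * (n - 1) / 2 * ((((k:ℝ) ^ 2 - k) / 2) ^ 2 * h ^ 4) ≤
        (n:ℝ) * (n - 1) / 2 * del h k ^ 2 := by
      apply mul_le_mul_of_nonneg_left hsq
      have : (0:ℝ) ≤ n - 1 := by linarith
      positivity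
    have c2 : (n:ℝ) * (n - 1) * (n - 2) / 6 * del h k ^ 3 ≤
        (n:ℝ) ^ 3 / 6 * (216 / 125 * ((((k:ℝ) ^ 2 - k) / 2) ^ 3 * h ^ 6)) := by
      have g1 : (n:ℝ) * (n - 1) * (n - 2) / 6 ≤ (n:ℝ) ^ 3 / 6 := by nlinarith
      exact mul_le_mul g1 hcu (by positivity) (by positivity)
    linarith
  have hh1 : 0 < 1 - h := by linarith
  have h1d : 0 ≤ 1 - del h k := by linarith
  calc _ ≤ (1 / 2 : ℝ) ^ k * (1 - del h k) ^ n := by
        apply mul_le_mul_of_nonneg_left hP (by positivity)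
    _ ≤ ((1 - h) ^ n) ^ k * (1 - del h k) ^ n := by
        apply mul_le_mul_of_nonneg_right _ (by positivity)
        exact pow_le_pow_left₀ (by norm_num) hρ.le k
    _ = ((1 - h) ^ k * (1 - del h k)) ^ n := by
        rw [mul_pow, ← pow_mul, ← pow_mul, mul_comm n k]
    _ ≤ (1 - k * h) ^ n := by
        apply pow_le_pow_left₀ (by positivity) hw

/-- The final numeric inequality. -/
lemma final_ineq (h τ ε : ℝ) (hh : 0 < h) (hh' : h ≤ 1 / 800)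
    (hτ1 : 6931 / 10000 - 17 / 10 * h ≤ τ) (hτ2 : τ ≤ 6932 / 10000) (hε : 0 ≤ ε)
    (hε' : ε ≤ h ^ 2 / 1000) :
    2 * (1 - τ * h + τ * (τ - h) / 2 * h ^ 2) <
      (2 - ε) - τ * (2 * h + 8 * h ^ 2 + 32 * h ^ 3) + τ * (τ - h) / 2 * h ^ 2 * (26 - 1 / 1000)
        - τ ^ 3 / 6 * (216 / 125 * 818) * h ^ 3 := by
  have key : 0 < (12 - 1 / 2000) * τ ^ 2 - 8 * τ - 1 / 1000 - h * (13 * τ + 32 * τ + 236 * τ ^ 3) := by
    have t0 : 69 / 100 ≤ τ := by linarith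
    have t1 : τ ^ 2 ≤ (6932 / 10000) ^ 2 := by
      apply pow_le_pow_left₀ (by linarith) hτ2
    have t3 : τ ^ 3 ≤ (6932 / 10000) ^ 3 := by
      apply pow_le_pow_left₀ (by linarith) hτ2
    have t4 : (12 - 1 / 2000) * τ ^ 2 - 8 * τ ≥ 190 / 1000 := by nlinarith
    have t5 : h * (13 * τ + 32 * τ + 236 * τ ^ 3) ≤ 1 / 800 * (13 * τ + 32 * τ + 236 * τ ^ 3) := by
      apply mul_le_mul_of_nonneg_right hh'
      have : 0 ≤ τ := by linarith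
      positivity
    nlinarith
  have h2 : 0 < h ^ 2 := by positivity
  have k2 := mul_pos h2 key
  have t0 : 0 ≤ τ := by linarith
  have t3 : 0 ≤ τ ^ 3 := by positivity
  have p1 : 0 ≤ τ * h ^ 3 := by positivity
  have p2 : 0 ≤ τ ^ 3 * h ^ 3 := by positivity
  nlinarith [k2, p1, p2]

end Pool.Agent.H492R2.ErdosPow
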