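import Mathlib
import Pool.Agent.H492R2.ErdosPow2

set_option autoImplicit false

namespace Pool.Agent.H492R2.ErdosPow

lemma main_large (m n : ℕ) (hm : 800 ≤ m)
    (hn : 1 / 2 < (1 - 1 / (m:ℝ)) ^ n) (hn1 : (1 - 1 / (m:ℝ)) ^ (n + 1) ≤ 1 / 2) :
    (1 + 1 / (m:ℝ)) ^ n < ∑ k ∈ Finset.range m, (1 - k * (1 / (m:ℝ))) ^ n := by
  set h : ℝ := 1 / (m:ℝ) with hh
  have hm' : (800:ℝ) ≤ m := by exact_mod_cast hm
  have hpos : 0 < h := by positivity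
  have hle : h ≤ 1 / 800 := by
    rw [hh]; apply one_div_le_one_div_of_le (by norm_num) hm'
  have h1 : 0 < 1 - h := by linarith
  have hmh : (m:ℝ) * h = 1 := by rw [hh]; field_simp
  -- bounds on n * h
  have hl2a := Real.log_two_gt_d9
  have hl2b := Real.log_two_lt_d9
  have hlog1 : Real.log (1 - h) ≤ -h := by
    have := Real.log_le_sub_one_of_pos h1
    linarith
  have hlog2 : -(h / (1 - h)) ≤ Real.log (1 - h) := by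
    have := Real.one_sub_inv_le_log_of_pos h1
    have e : 1 - (1 - h)⁻¹ = -(h / (1 - h)) := by field_simp; ring
    linarith
  have hlogn : - Real.log 2 < n * Real.log (1 - h) := by
    have := Real.log_lt_log (by norm_num) hn
    rw [Real.log_pow] at this
    have e : Real.log (1 / 2) = - Real.log 2 := by rw [one_div, Real.log_inv]
    linarith
  have hlogn1 : ((n:ℝ) + 1) * Real.log (1 - h) ≤ - Real.log 2 := by
    have := Real.log_le_log (by positivity) hn1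
    rw [Real.log_pow] at this
    push_cast at this
    have e : Real.log (1 / 2) = - Real.log 2 := by rw [one_div, Real.log_inv]
    linarith
  have hn0 : (0:ℝ) ≤ n := Nat.cast_nonneg n
  have hτ2 : (n:ℝ) * h ≤ 6932 / 10000 := by nlinarith
  have hτ1 : 6931 / 10000 - 17 / 10 * h ≤ (n:ℝ) * h := by
    have a1 : ((n:ℝ) + 1) * (-(h / (1 - h))) ≤ - Real.log 2 := by
      refine le_trans (mul_le_mul_of_nonneg_left hlog2 (by positivity)) hlogn1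
    have a2 : Real.log 2 ≤ ((n:ℝ) + 1) * h / (1 - h) := by
      have : ((n:ℝ) + 1) * (-(h / (1 - h))) = - (((n:ℝ) + 1) * h / (1 - h)) := by ring
      linarith
    rw [le_div_iff₀ h1] at a2
    nlinarith
  have hn2 : 2 ≤ n := by
    by_contra hc
    have : (n:ℝ) ≤ 1 := by
      have : n ≤ 1 := by omega
      exact_mod_cast this
    nlinarith
  have hn2' : (2:ℝ) ≤ n := by exact_mod_cast hn2
  -- cutoff
  set K := m / 4 with hK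
  have hK4 : 4 * K ≤ m := by omega
  have hK200 : 200 ≤ K := by omega
  have hKm : m ≤ 4 * (K + 1) := by omega
  have hKm' : (m:ℝ) ≤ 4 * (K + 1) := by exact_mod_cast hKm
  have hsub : ∑ k ∈ Finset.range (K + 1), (1 - k * h) ^ n ≤
      ∑ k ∈ Finset.range m, (1 - k * h) ^ n := by
    apply Finset.sum_le_sum_of_subset_of_nonneg
    · intro x hx
      rw [Finset.mem_range] at *
      omega
    · intro i hi _
      rw [Finset.mem_range] at hi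
      have : (i:ℝ) * h ≤ 1 := by
        have hi' : (i:ℝ) ≤ m := by exact_mod_cast hi.le
        nlinarith
      apply pow_nonneg; linarith
  have hterm : ∑ k ∈ Finset.range (K + 1),
      ((1 / 2 : ℝ) ^ k * (1 - n * del h k + n * (n - 1) / 2 * ((((k:ℝ) ^ 2 - k) / 2) ^ 2 * h ^ 4)
      - (n:ℝ) ^ 3 / 6 * (216 / 125 * ((((k:ℝ) ^ 2 - k) / 2) ^ 3 * h ^ 6)))) ≤
      ∑ k ∈ Finset.range (K + 1), (1 - k * h) ^ n := by
    apply Finset.sum_le_sum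
    intro k hk
    rw [Finset.mem_range] at hk
    apply term_lower h hpos.le (by linarith) n hn2 hn k
    have hk' : (k:ℝ) ≤ K := by exact_mod_cast (by omega : k ≤ K)
    have hK4' : 4 * (K:ℝ) ≤ m := by exact_mod_cast hK4
    nlinarith
  have hsplit : ∑ k ∈ Finset.range (K + 1),
      ((1 / 2 : ℝ) ^ k * (1 - n * del h k + n * (n - 1) / 2 * ((((k:ℝ) ^ 2 - k) / 2) ^ 2 * h ^ 4)
      - (n:ℝ) ^ 3 / 6 * (216 / 125 * ((((k:ℝ) ^ 2 - k) / 2) ^ 3 * h ^ 6)))) =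
      ∑ k ∈ Finset.range (K + 1), (1 / 2 : ℝ) ^ k
      - n * h ^ 2 * ∑ k ∈ Finset.range (K + 1), (1 / 2 : ℝ) ^ k * (((k:ℝ) ^ 2 - k) / 2)
      - n * h ^ 3 * ∑ k ∈ Finset.range (K + 1), (1 / 2 : ℝ) ^ k * (((k:ℝ) ^ 3 - k) / 3)
      - n * h ^ 4 * ∑ k ∈ Finset.range (K + 1), (1 / 2 : ℝ) ^ k *
        (((k:ℝ) - 1) * k * (k + 1) * (k + 2) / 6)
      + n * (n - 1) / 2 * h ^ 4 *
        ∑ k ∈ Finset.range (K + 1), (1 / 2 : ℝ) ^ k * (((k:ℝ) ^ 2 - k) / 2) ^ 2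
      - (n:ℝ) ^ 3 / 6 * (216 / 125 * h ^ 6) *
        ∑ k ∈ Finset.range (K + 1), (1 / 2 : ℝ) ^ k * (((k:ℝ) ^ 2 - k) / 2) ^ 3 := by
    simp only [Finset.mul_sum, ← Finset.sum_sub_distrib, ← Finset.sum_add_distrib]
    apply Finset.sum_congr rfl
    intro k _
    unfold del
    ring
  rw [hsplit, sum0, sumA, sumB, sumC, sumA2, sumA3] at hterm
  set P : ℝ := (1 / 2) ^ K with hP
  have hP0 : 0 < P := by positivity
  have hKpos : (0:ℝ) ≤ K := Nat.cast_nonneg K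
  have hPsmall : P * ((K:ℝ) + 1) ^ 6 * 10 ^ 20 ≤ 1 := by
    have := pow_small K hK200
    have h2 : (((K:ℝ) + 1) ^ 6 * 10 ^ 20) ≤ 2 ^ K := by exact_mod_cast this
    have h3 : P * 2 ^ K = 1 := by
      rw [hP, ← mul_pow]; norm_num
    calc P * ((K:ℝ) + 1) ^ 6 * 10 ^ 20 = P * (((K:ℝ) + 1) ^ 6 * 10 ^ 20) := by ring
      _ ≤ P * 2 ^ K := mul_le_mul_of_nonneg_left h2 hP0.le
      _ = 1 := h3
  have hPh : P ≤ h ^ 2 / 1000 := by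
    have q1 : 1 ≤ 16 * ((K:ℝ) + 1) ^ 2 * h ^ 2 := by
      have : 1 ≤ 4 * ((K:ℝ) + 1) * h := by nlinarith
      nlinarith
    have q2 : ((K:ℝ) + 1) ^ 2 ≤ ((K:ℝ) + 1) ^ 6 := by
      apply pow_le_pow_right₀ (by linarith) (by norm_num)
    have q3 : P * ((K:ℝ) + 1) ^ 2 * 10 ^ 20 ≤ 1 := by
      refine le_trans ?_ hPsmall
      exact mul_le_mul_of_nonneg_right (mul_le_mul_of_nonneg_left q2 hP0.le) (by norm_num)
    have q4 : P * 1 ≤ P * (16 * ((K:ℝ) + 1) ^ 2 * h ^ 2) := mul_le_mul_of_nonneg_left q1 hP0.le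
    have q5 : P * ((K:ℝ) + 1) ^ 2 ≤ 1 / 10 ^ 20 := by
      rw [le_div_iff₀ (by norm_num)]; exact q3
    have q6 : P * (16 * ((K:ℝ) + 1) ^ 2 * h ^ 2) = (P * ((K:ℝ) + 1) ^ 2) * (16 * h ^ 2) := by ring
    have q7 : (P * ((K:ℝ) + 1) ^ 2) * (16 * h ^ 2) ≤ 1 / 10 ^ 20 * (16 * h ^ 2) := by
      apply mul_le_mul_of_nonneg_right q5 (by positivity)
    nlinarith [sq_nonneg h]
  have hA2 : 26 - 1 / 1000 ≤ 26 - P * (26 + 18 * K + 25 / 4 * (K:ℝ) ^ 2 + 3 / 2 * (K:ℝ) ^ 3 +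
      1 / 4 * (K:ℝ) ^ 4) := by
    have r1 : 26 + 18 * K + 25 / 4 * (K:ℝ) ^ 2 + 3 / 2 * (K:ℝ) ^ 3 +
      1 / 4 * (K:ℝ) ^ 4 ≤ 26 * ((K:ℝ) + 1) ^ 6 := by
      have e : 26 * ((K:ℝ) + 1) ^ 6 - (26 + 18 * K + 25 / 4 * (K:ℝ) ^ 2 + 3 / 2 * (K:ℝ) ^ 3 +
        1 / 4 * (K:ℝ) ^ 4) = 138 * K + (390 - 25 / 4) * (K:ℝ) ^ 2 + (520 - 3 / 2) * (K:ℝ) ^ 3 +
        (390 - 1 / 4) * (K:ℝ) ^ 4 + 156 * (K:ℝ) ^ 5 + 26 * (K:ℝ) ^ 6 := by ring
      have : 0 ≤ 138 * K + (390 - 25 / 4) * (K:ℝ) ^ 2 + (520 - 3 / 2) * (K:ℝ) ^ 3 +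
        (390 - 1 / 4) * (K:ℝ) ^ 4 + 156 * (K:ℝ) ^ 5 + 26 * (K:ℝ) ^ 6 := by positivity
      linarith
    have r2 := mul_le_mul_of_nonneg_left r1 hP0.le
    nlinarith
  have hfin := final_ineq h ((n:ℝ) * h) P hpos hle hτ1 hτ2 hP0.le hPh
  -- upper bound for (1+h)^n
  have hup : (1 + h) ^ n < 2 * (1 - (n:ℝ) * h * h + (n:ℝ) * h * ((n:ℝ) * h - h) / 2 * h ^ 2) := by
    have b := bonf2 (h ^ 2) (by positivity) (by nlinarith) n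
    have e1 : (1 + h) ^ n * (1 - h) ^ n = (1 - h ^ 2) ^ n := by
      rw [← mul_pow]; congr 1; ring
    have hpn : 0 < (1 + h) ^ n := by positivity
    have e2 : (1 + h) ^ n * (1 / 2) < (1 + h) ^ n * (1 - h) ^ n :=
      mul_lt_mul_of_pos_left hn hpn
    rw [e1] at e2
    have e3 : 1 - (n:ℝ) * h ^ 2 + n * (n - 1) / 2 * (h ^ 2) ^ 2 =
      1 - (n:ℝ) * h * h + (n:ℝ) * h * ((n:ℝ) * h - h) / 2 * h ^ 2 := by ring
    linarith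
  refine lt_of_lt_of_le (lt_trans hup hfin) (le_trans ?_ (le_trans hterm hsub))
  have s1 : (n:ℝ) * h ^ 2 * (2 - P * (2 + 3 / 2 * K + 1 / 2 * (K:ℝ) ^ 2)) ≤ n * h ^ 2 * 2 := by
    apply mul_le_mul_of_nonneg_left _ (by positivity)
    have : 0 ≤ P * (2 + 3 / 2 * K + 1 / 2 * (K:ℝ) ^ 2) := by positivity
    linarith
  have s2 : (n:ℝ) * h ^ 3 * (8 - P * (8 + 17 / 3 * K + 2 * (K:ℝ) ^ 2 + 1 / 3 * (K:ℝ) ^ 3)) ≤
      n * h ^ 3 * 8 := by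
    apply mul_le_mul_of_nonneg_left _ (by positivity)
    have : 0 ≤ P * (8 + 17 / 3 * K + 2 * (K:ℝ) ^ 2 + 1 / 3 * (K:ℝ) ^ 3) := by positivity
    linarith
  have s3 : (n:ℝ) * h ^ 4 * (32 - P * (32 + 67 / 3 * K + 47 / 6 * (K:ℝ) ^ 2 + 5 / 3 * (K:ℝ) ^ 3 +
      1 / 6 * (K:ℝ) ^ 4)) ≤ n * h ^ 4 * 32 := by
    apply mul_le_mul_of_nonneg_left _ (by positivity)
    have : 0 ≤ P * (32 + 67 / 3 * K + 47 / 6 * (K:ℝ) ^ 2 + 5 / 3 * (K:ℝ) ^ 3 +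
      1 / 6 * (K:ℝ) ^ 4) := by positivity
    linarith
  have s4 : (n:ℝ) * (n - 1) / 2 * h ^ 4 * (26 - 1 / 1000) ≤
      n * (n - 1) / 2 * h ^ 4 * (26 - P * (26 + 18 * K + 25 / 4 * (K:ℝ) ^ 2 +
      3 / 2 * (K:ℝ) ^ 3 + 1 / 4 * (K:ℝ) ^ 4)) := by
    apply mul_le_mul_of_nonneg_left hA2
    have : (0:ℝ) ≤ n - 1 := by linarith
    positivity
  have s5 : (n:ℝ) ^ 3 / 6 * (216 / 125 * h ^ 6) * (818 - P * (818 + 567 * K +
      393 / 2 * (K:ℝ) ^ 2 + 363 / 8 * (K:ℝ) ^ 3 +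
      63 / 8 * (K:ℝ) ^ 4 + 9 / 8 * (K:ℝ) ^ 5 + 1 / 8 * (K:ℝ) ^ 6)) ≤
      (n:ℝ) ^ 3 / 6 * (216 / 125 * h ^ 6) * 818 := by
    apply mul_le_mul_of_nonneg_left _ (by positivity)
    have : 0 ≤ P * (818 + 567 * K + 393 / 2 * (K:ℝ) ^ 2 + 363 / 8 * (K:ℝ) ^ 3 +
      63 / 8 * (K:ℝ) ^ 4 + 9 / 8 * (K:ℝ) ^ 5 + 1 / 8 * (K:ℝ) ^ 6) := by positivity
    linarith
  have e4 : (2 - P) - (n:ℝ) * h * (2 * h + 8 * h ^ 2 + 32 * h ^ 3) +
      (n:ℝ) * h * ((n:ℝ) * h - h) / 2 * h ^ 2 * (26 - 1 / 1000)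
        - ((n:ℝ) * h) ^ 3 / 6 * (216 / 125 * 818) * h ^ 3 =
      (2 - P) - n * h ^ 2 * 2 - n * h ^ 3 * 8 - n * h ^ 4 * 32 +
      (n:ℝ) * (n - 1) / 2 * h ^ 4 * (26 - 1 / 1000) - (n:ℝ) ^ 3 / 6 * (216 / 125 * h ^ 6) * 818 := by
    ring
  rw [e4]
  linarith

end Pool.Agent.H492R2.ErdosPow
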