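import Mathlib

set_option autoImplicit false

namespace Pool.Agent.H492R2.ErdosPow

/-- `sumPow n k = 1^n + ... + k^n`. -/
def sumPow (n : ℕ) : ℕ → ℕ
  | 0 => 0
  | (k + 1) => sumPow n k + (k + 1) ^ n

lemma sumPow_eq (n k : ℕ) : sumPow n k = ∑ i ∈ Finset.Icc 1 k, i ^ n := by
  induction k with
  | zero => simp [sumPow]
  | succ k ih => rw [sumPow, ih, Finset.sum_Icc_succ_top (by omega)]

/-- candidate for the largest admissible exponent -/
def cand (m : ℕ) : ℕ := 69314718056 * (2 * m - 1) / 200000000000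

def check (m : ℕ) : Bool :=
  Nat.ble (2 * (m - 1) ^ (cand m + 1)) (m ^ (cand m + 1)) &&
  Nat.blt ((m + 1) ^ (cand m)) (sumPow (cand m) m)

def checkAll : ℕ → Bool
  | 0 => true
  | (k + 1) => check (k + 3) && checkAll k

lemma checkAll_spec (N : ℕ) (h : checkAll N = true) (k : ℕ) (hk : k < N) : check (k + 3) = true := by
  induction N with
  | zero => omega
  | succ N ih =>
    rw [checkAll, Bool.and_eq_true] at h
    rcases Nat.lt_succ_iff_lt_or_eq.mp hk with h1 | h1
    · exact ih h.2 h1
    · rw [h1]; exact h.1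

lemma check_800 : checkAll 800 = true := by decide +kernel

end Pool.Agent.H492R2.ErdosPow
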