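import Mathlib
import Pool.Agent.H492R2.ErdosPow3
import Pool.Agent.H492R2.ErdosPow4

set_option autoImplicit false

namespace Pool.Agent.H492R2.ErdosPow

/-- Monotonicity in the exponent. -/
lemma mono_exp (m n N : ℕ) (hn : n ≤ N) (h : (m + 1) ^ N < ∑ i ∈ Finset.Icc 1 m, i ^ N) :
    (m + 1) ^ n < ∑ i ∈ Finset.Icc 1 m, i ^ n := by
  have h1 : ∑ i ∈ Finset.Icc 1 m, i ^ N ≤ (∑ i ∈ Finset.Icc 1 m, i ^ n) * (m + 1) ^ (N - n) := by
    rw [Finset.sum_mul]
    apply Finset.sum_le_sum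
    intro i hi
    rw [Finset.mem_Icc] at hi
    have : i ^ N = i ^ n * i ^ (N - n) := by rw [← pow_add]; congr 1; omega
    rw [this]
    exact Nat.mul_le_mul_left _ (Nat.pow_le_pow_left (by omega) _)
  have h2 : (m + 1) ^ N = (m + 1) ^ n * (m + 1) ^ (N - n) := by
    rw [← pow_add]; congr 1; omega
  rw [h2] at h
  exact lt_of_mul_lt_mul_right (lt_of_lt_of_le h h1) (Nat.zero_le _)

/-- large case with a general exponent, integer form -/
lemma large_nat (m n : ℕ) (hm : 800 ≤ m) (hn : 1 / 2 < (1 - 1 / (m:ℝ)) ^ n) :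
    (m + 1) ^ n < ∑ i ∈ Finset.Icc 1 m, i ^ n := by
  have hm' : (800:ℝ) ≤ m := by exact_mod_cast hm
  have hm0 : (0:ℝ) < m := by linarith
  have hlt : 1 - 1 / (m:ℝ) < 1 := by
    have : 0 < 1 / (m:ℝ) := by positivity
    linarith
  have hge : 0 ≤ 1 - 1 / (m:ℝ) := by
    have : 1 / (m:ℝ) ≤ 1 := by rw [div_le_one hm0]; linarith
    linarith
  -- largest exponent
  obtain ⟨N, hN⟩ := exists_pow_lt_of_lt_one (by norm_num : (0:ℝ) < 1 / 2) hlt
  classical
  have hex : ∃ N, (1 - 1 / (m:ℝ)) ^ N ≤ 1 / 2 := ⟨N, hN.le⟩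
  set N0 := Nat.find hex with hN0
  have hs := Nat.find_spec hex
  rw [← hN0] at hs
  have hN0pos : N0 ≠ 0 := by
    intro h0
    rw [h0] at hs
    norm_num at hs
  obtain ⟨N1, hN1⟩ := Nat.exists_eq_succ_of_ne_zero hN0pos
  have hlow : 1 / 2 < (1 - 1 / (m:ℝ)) ^ N1 := by
    have := Nat.find_min hex (m := N1) (by rw [← hN0]; omega)
    exact not_le.mp this
  have hnN : n ≤ N1 := by
    by_contra hc
    have : N1 + 1 ≤ n := by omega
    have h2 := pow_le_pow_of_le_one hge hlt.le this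
    rw [hN1] at hs
    exact absurd (lt_of_lt_of_le hn (le_trans h2 hs)) (lt_irrefl _)
  apply mono_exp m n N1 hnN
  rw [hN1] at hs
  have hmain := main_large m N1 hm hlow hs
  have e1 : (1 + 1 / (m:ℝ)) ^ N1 = ((m:ℝ) + 1) ^ N1 / (m:ℝ) ^ N1 := by
    rw [← div_pow]; congr 1; field_simp
  have e2 : ∑ k ∈ Finset.range m, (1 - k * (1 / (m:ℝ))) ^ N1 =
      (∑ i ∈ Finset.Icc 1 m, (i:ℝ) ^ N1) / (m:ℝ) ^ N1 := by
    rw [Finset.sum_div]
    rw [← Finset.sum_range_reflect]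
    have : Finset.Icc 1 m = Finset.image (fun j => j + 1) (Finset.range m) := by
      ext x
      simp only [Finset.mem_Icc, Finset.mem_image, Finset.mem_range]
      constructor
      · rintro ⟨h1, h2⟩
        exact ⟨x - 1, by omega, by omega⟩
      · rintro ⟨y, hy, rfl⟩
        omega
    rw [this, Finset.sum_image (by intro a _ b _ hab; simpa using hab)]
    apply Finset.sum_congr rfl
    intro j hj
    rw [Finset.mem_range] at hj
    rw [← div_pow]
    congr 1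
    have : ((m - 1 - j : ℕ) : ℝ) = (m:ℝ) - 1 - j := by
      rw [Nat.sub_sub, Nat.cast_sub (by omega)]
      push_cast; ring
    rw [this]
    push_cast
    field_simp
    ring
  rw [e1, e2, div_lt_div_iff_of_pos_right (by positivity)] at hmain
  exact_mod_cast hmain

lemma small_nat (m n : ℕ) (hm3 : 3 ≤ m) (hm : m < 800) (hn : m ^ n < 2 * (m - 1) ^ n) :
    (m + 1) ^ n < ∑ i ∈ Finset.Icc 1 m, i ^ n := by
  have h1 := checkAll_spec 800 check_800 (m - 3) (by omega)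
  rw [show m - 3 + 3 = m by omega] at h1
  unfold check at h1
  rw [Bool.and_eq_true] at h1
  have h2 : 2 * (m - 1) ^ (cand m + 1) ≤ m ^ (cand m + 1) := Nat.ble_eq.mp h1.1
  have h3 : (m + 1) ^ (cand m) < sumPow (cand m) m := by
    have := h1.2
    simpa [Nat.blt] using this
  rw [sumPow_eq] at h3
  apply mono_exp m n (cand m) _ h3
  by_contra hc
  have hle : cand m + 1 ≤ n := by omega
  obtain ⟨t, ht⟩ := Nat.exists_eq_add_of_le hle
  rw [ht, pow_add m, pow_add (m - 1) (cand m + 1) t] at hn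
  have h4 : 2 * (m - 1) ^ (cand m + 1) * (m - 1) ^ t ≤ m ^ (cand m + 1) * m ^ t :=
    Nat.mul_le_mul h2 (Nat.pow_le_pow_left (by omega) t)
  have : 2 * ((m - 1) ^ (cand m + 1) * (m - 1) ^ t) = 2 * (m - 1) ^ (cand m + 1) * (m - 1) ^ t := by
    ring
  exact absurd hn (not_lt.mpr (by rw [this]; exact h4))

theorem partB (m n : ℕ) (hm : 2 ≤ m) (hn0 : 1 ≤ n) (hn : 1 / 2 < (1 - 1 / (m:ℝ)) ^ n) :
    (m + 1) ^ n < ∑ i ∈ Finset.Icc 1 m, i ^ n := by
  by_cases hl : 800 ≤ m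
  · exact large_nat m n hl hn
  · have hm' : (2:ℝ) ≤ m := by exact_mod_cast hm
    have hnat : m ^ n < 2 * (m - 1) ^ n := by
      have e1 : (1 - 1 / (m:ℝ)) = ((m:ℝ) - 1) / m := by field_simp
      rw [e1, div_pow, lt_div_iff₀ (by positivity)] at hn
      have e2 : ((m - 1 : ℕ) : ℝ) = (m:ℝ) - 1 := by
        rw [Nat.cast_sub (by omega)]; norm_num
      have : ((m ^ n : ℕ) : ℝ) < ((2 * (m - 1) ^ n : ℕ) : ℝ) := by
        push_cast
        rw [e2]
        linarith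
      exact_mod_cast this
    rcases Nat.lt_or_ge m 3 with h3 | h3
    · have : m = 2 := by omega
      subst this
      exfalso
      have : 2 ^ 1 ≤ 2 ^ n := Nat.pow_le_pow_right (by norm_num) hn0
      norm_num at hnat
      omega
    · exact small_nat m n h3 (by omega) hnat

theorem partA' (m n : ℕ) (hm : 2 ≤ m) (hn : (1 - 1 / ((m:ℝ) - 1)) ^ n < 1 / 2) :
    ∑ i ∈ Finset.Icc 1 (m - 2), i ^ n < (m - 1) ^ n := by
  have h := partA n (m - 1) ?_ (m - 2) (by omega)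
  · rwa [show m - 2 + 1 = m - 1 by omega] at h
  · have hm' : (2:ℝ) ≤ m := by exact_mod_cast hm
    have hpos : 0 < (m:ℝ) - 1 := by linarith
    have e1 : (1 - 1 / ((m:ℝ) - 1)) = ((m:ℝ) - 2) / ((m:ℝ) - 1) := by field_simp; ring
    rw [e1, div_pow, div_lt_iff₀ (by positivity)] at hn
    have e2 : ((m - 1 : ℕ) : ℝ) = (m:ℝ) - 1 := by
      rw [Nat.cast_sub (by omega)]; norm_num
    have e3 : ((m - 1 - 1 : ℕ) : ℝ) = (m:ℝ) - 2 := by
      rw [Nat.sub_sub, Nat.cast_sub (by omega)]; norm_num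
    have : ((2 * (m - 1 - 1) ^ n : ℕ) : ℝ) < (((m - 1) ^ n : ℕ) : ℝ) := by
      push_cast
      rw [e2, e3]
      linarith
    exact_mod_cast this

end Pool.Agent.H492R2.ErdosPow
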