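import Pool.Agent.H492R2.Core
import Pool.Agent.H492R2.CNT1
import Pool.Agent.H492R2.CNT2

/-!
Sign changes are frequent at every scale.
-/

namespace Pool.Agent.H492R2

open Finset Pool.Agent.H358R2

theorem W_le (X M C2 q t : ℕ) (hX : 1 ≤ X) :
    3 * (2 * X ^ 2 * (M * (2 * (C2 * X ^ 2 + X ^ 2) * q * t) ^ 2) +
      3 * X ^ 3 + X ^ 2) ≤ 3 * (8 * M * (C2 + 1) ^ 2 * q ^ 2 * t ^ 2 + 4) * X ^ 6 := by
  have h3 : X ^ 3 ≤ X ^ 6 := Nat.pow_le_pow_right hX (by norm_num)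
  have h2 : X ^ 2 ≤ X ^ 6 := Nat.pow_le_pow_right hX (by norm_num)
  calc 3 * (2 * X ^ 2 * (M * (2 * (C2 * X ^ 2 + X ^ 2) * q * t) ^ 2) + 3 * X ^ 3 + X ^ 2)
      ≤ 3 * (2 * X ^ 2 * (M * (2 * (C2 * X ^ 2 + X ^ 2) * q * t) ^ 2) + 3 * X ^ 6 + X ^ 6) := by
        omega
    _ = 3 * (8 * M * (C2 + 1) ^ 2 * q ^ 2 * t ^ 2 + 4) * X ^ 6 := by ring

theorem SF_mono {h : ℕ → ℤ} {d : QF} {X Y : ℕ} (hXY : X ≤ Y) : SF h d X ⊆ SF h d Y := by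
  intro n hn
  rw [mem_SF] at hn ⊢
  exact ⟨hn.1.trans hXY, hn.2⟩

/-- purely finite form -/
theorem finite_form {h : ℕ → ℤ} (H : CM h) {d : QF} {p q : ℕ} (hp : 1 ≤ p) (hq : 1 ≤ q)
    (hπ : h (nm d (p, q)) = -1) {lo hi : ℝ}
    (hJ : ∀ θ, lo ≤ θ → θ ≤ hi → Jn d θ) (hlen0 : lo < hi) (hlen4 : hi - lo ≤ 4)
    {C1 C2 : ℕ} (hC1 : 1032 * (d.M : ℝ) < C1 * (hi - lo)) (hC2a : 10 * d.M ≤ C2)
    (hC2b : 4 * (d.M : ℝ) ≤ C2 * (hi - lo)) {l N X K W G : ℕ} (hl : 8 ≤ l) (hN : N < 2 ^ l)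
    (hX : X = (2 * l) ^ 3) (hK : K = C1 * X)
    (hW : W = 3 * (2 * X ^ 2 * (d.M * (2 * (C2 * X ^ 2 + X ^ 2) * q * (1 + p + q)) ^ 2) +
      3 * X ^ 3 + X ^ 2))
    (hG : G = 64 * d.M * W ^ 2 * K ^ 4) (hbig : 128 * K ^ 2 * G ≤ N) :
    (N : ℝ) < 4 * (G : ℝ) ^ 2 * K * ∑ n ∈ SF h d N, ((d.f n).divisors.card : ℝ) := by
  by_contra hcon
  push Not at hcon
  have hM := d.M_pos
  have hX1 : 1 ≤ X := by rw [hX]; exact Nat.one_le_pow _ _ (by omega)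
  have hC1pos : 1 ≤ C1 := by
    by_contra h0
    have : C1 = 0 := by omega
    rw [this] at hC1
    simp only [Nat.cast_zero, zero_mul] at hC1
    have : (0 : ℝ) ≤ 1032 * (d.M : ℝ) := by positivity
    linarith
  have hKX : X ≤ K := by rw [hK]; exact Nat.le_mul_of_pos_left _ hC1pos
  have hK1 : 1 ≤ K := hX1.trans hKX
  have hW1 : 1 ≤ W := by
    rw [hW]
    have : 1 ≤ X ^ 2 := Nat.one_le_pow _ _ hX1
    omega
  have hG1 : 1 ≤ G := by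
    rw [hG]
    have h1 : 1 ≤ W ^ 2 := Nat.one_le_pow _ _ hW1
    have h2 : 1 ≤ K ^ 4 := Nat.one_le_pow _ _ hK1
    have h3 : 1 ≤ 64 * d.M := by omega
    exact Nat.mul_pos (Nat.mul_pos h3 h1) h2
  obtain ⟨Q, hQ⟩ : ∃ Q, Q = Nat.sqrt (N / G) := ⟨_, rfl⟩
  have hQle : Q ^ 2 ≤ N / G := by rw [hQ, pow_two]; exact Nat.sqrt_le _
  have hQlt : N / G < (Q + 1) ^ 2 := by rw [hQ, pow_two]; exact Nat.lt_succ_sqrt _
  have hdiv : 128 * K ^ 2 ≤ N / G := by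
    rw [Nat.le_div_iff_mul_le hG1]; exact hbig
  have hQ11 : 11 * K ≤ Q := by
    by_contra hlt
    push Not at hlt
    have h1 : (Q + 1) ^ 2 ≤ (11 * K) ^ 2 := Nat.pow_le_pow_left hlt 2
    have h2 : (11 * K) ^ 2 = 121 * K ^ 2 := by ring
    omega
  have hQ4 : 4 ≤ Q := by omega
  have hK2 : 1 ≤ K ^ 2 := Nat.one_le_pow _ _ hK1
  have hQ2 : 121 * K ^ 2 ≤ Q ^ 2 := by
    calc 121 * K ^ 2 = (11 * K) ^ 2 := by ring
      _ ≤ Q ^ 2 := Nat.pow_le_pow_left hQ11 2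
  have hGQ : G * Q ^ 2 ≤ N := (Nat.mul_le_mul_left _ hQle).trans (Nat.mul_div_le N G)
  have hNQ : N < 4 * G * Q ^ 2 := by
    have h1 : N < G * (Q + 1) ^ 2 := by
      rw [mul_comm]; exact (Nat.div_lt_iff_lt_mul hG1).1 hQlt
    have h2 : (Q + 1) ^ 2 ≤ (2 * Q) ^ 2 := Nat.pow_le_pow_left (by omega) 2
    calc N < G * (Q + 1) ^ 2 := h1
      _ ≤ G * (2 * Q) ^ 2 := Nat.mul_le_mul_left _ h2
      _ = 4 * G * Q ^ 2 := by ring
  obtain ⟨A, hA⟩ : ∃ A, A = Q ^ 2 / (16 * K ^ 2) := ⟨_, rfl⟩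
  have hA1 : 16 * K ^ 2 * A ≤ Q ^ 2 := by rw [hA]; exact Nat.mul_div_le _ _
  have hA2 : Q ^ 2 ≤ 32 * K ^ 2 * A := by
    have h1 : Q ^ 2 < 16 * K ^ 2 * (A + 1) := by
      rw [hA, mul_comm]
      exact Nat.lt_mul_of_div_lt (Nat.lt_succ_self _) (by omega)
    have h2 : 16 * K ^ 2 * (A + 1) = 16 * K ^ 2 * A + 16 * K ^ 2 := by ring
    have h3 : 32 * K ^ 2 * A = 2 * (16 * K ^ 2 * A) := by ring
    omega
  have hNN : N * N ≤ 2 ^ (2 * l) := by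
    rw [two_mul, pow_add]
    exact Nat.mul_le_mul hN.le hN.le
  have hang : 8 * X * K * Q ^ 2 ≤ 2 ^ (2 * l) := by
    refine le_trans (Nat.mul_le_mul ?_ (hQle.trans (Nat.div_le_self _ _))) hNN
    calc 8 * X * K ≤ 8 * K * K := Nat.mul_le_mul_right _ (Nat.mul_le_mul_left _ hKX)
      _ = 8 * K ^ 2 * 1 := by ring
      _ ≤ 128 * K ^ 2 * G := Nat.mul_le_mul (by omega) hG1
      _ ≤ N := hbig
  refine core H hp hq hπ hJ hlen0 hlen4 hC1 hC2a hC2b (j := 2 * l) (by omega) hX hK hW hQ4 hA1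
    hang ?_
  -- the number of bad vectors
  have hcnt := card_badF2 h d A (W * (8 * K ^ 2 * Q))
  have hR : d.M * (W * (8 * K ^ 2 * Q)) ^ 2 = G * Q ^ 2 := by rw [hG]; ring
  have hR4 : 4 * d.M * (W * (8 * K ^ 2 * Q)) ^ 2 = 4 * (G * Q ^ 2) := by rw [← hR]; ring
  rw [hR, hR4] at hcnt
  set bad := (badF h d A (W * (8 * K ^ 2 * Q))).card with hbad
  have hsum : ∑ n ∈ SF h d (G * Q ^ 2), (d.f n).divisors.card ≤
      ∑ n ∈ SF h d N, (d.f n).divisors.card :=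
    sum_le_sum_of_subset (SF_mono hGQ)
  set S := ∑ n ∈ SF h d N, (d.f n).divisors.card with hS
  have hcast : ∑ n ∈ SF h d N, ((d.f n).divisors.card : ℝ) = (S : ℝ) := by
    rw [hS]; push_cast; rfl
  rw [hcast] at hcon
  have hcon' : 4 * G ^ 2 * K * S ≤ N := by exact_mod_cast hcon
  have h1 : A * bad ≤ S * (4 * (G * Q ^ 2)) := hcnt.trans (Nat.mul_le_mul_right _ hsum)
  have hQpos : 0 < Q ^ 2 := by positivity
  have h2 : Q ^ 2 * bad ≤ Q ^ 2 * (128 * K ^ 2 * G * S) := by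
    calc Q ^ 2 * bad ≤ 32 * K ^ 2 * A * bad := Nat.mul_le_mul_right _ hA2
      _ = 32 * K ^ 2 * (A * bad) := by ring
      _ ≤ 32 * K ^ 2 * (S * (4 * (G * Q ^ 2))) := Nat.mul_le_mul_left _ h1
      _ = Q ^ 2 * (128 * K ^ 2 * G * S) := by ring
  have h3 : bad ≤ 128 * K ^ 2 * G * S := Nat.le_of_mul_le_mul_left h2 hQpos
  have h4 : G * K * S ≤ Q ^ 2 := by
    have h5 : 4 * G * (G * K * S) ≤ 4 * G * Q ^ 2 := by
      calc 4 * G * (G * K * S) = 4 * G ^ 2 * K * S := by ring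
        _ ≤ N := hcon'
        _ ≤ 4 * G * Q ^ 2 := hNQ.le
    exact Nat.le_of_mul_le_mul_left h5 (by omega)
  have h6 : bad ≤ 128 * K * Q ^ 2 := by
    calc bad ≤ 128 * K ^ 2 * G * S := h3
      _ = 128 * K * (G * K * S) := by ring
      _ ≤ 128 * K * Q ^ 2 := Nat.mul_le_mul_left _ h4
  exact_mod_cast h6

theorem log_two_le {N : ℕ} (hL : 1 ≤ Real.log N) :
    ((Nat.log 2 N + 1 : ℕ) : ℝ) ≤ 3 * Real.log N := by
  have hN0 : N ≠ 0 := by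
    rintro rfl
    simp only [Nat.cast_zero, Real.log_zero] at hL
    linarith
  have hNpos : (0 : ℝ) < N := by
    have : 0 < N := by omega
    exact_mod_cast this
  have h1 : 2 ^ (Nat.log 2 N) ≤ N := Nat.pow_log_le_self 2 hN0
  have h2 : ((2 : ℝ)) ^ (Nat.log 2 N) ≤ N := by exact_mod_cast h1
  have h3 := Real.log_le_log (by positivity) h2
  rw [Real.log_pow] at h3
  have h4 := Real.log_two_gt_d9
  have h5 : (0 : ℝ) ≤ Nat.log 2 N := Nat.cast_nonneg _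
  push_cast
  nlinarith

theorem SF_large {h : ℕ → ℤ} (H : CM h) (d : QF) {p q : ℕ} (hp : 1 ≤ p) (hq : 1 ≤ q)
    (hπ : h (nm d (p, q)) = -1) : ∃ N0 : ℕ, ∀ N : ℕ, N0 ≤ N →
      (N : ℝ) / (Real.log N) ^ 232 ≤ ((SF h d N).card : ℝ) := by
  obtain ⟨lo, hi, hlen0, hlen4, hJ⟩ := Jn_interval d
  have hδ : 0 < hi - lo := by linarith
  obtain ⟨C1, hC1'⟩ := exists_nat_gt (1032 * (d.M : ℝ) / (hi - lo))
  obtain ⟨C2', hC2'⟩ := exists_nat_gt (4 * (d.M : ℝ) / (hi - lo))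
  rw [div_lt_iff₀ hδ] at hC1' hC2'
  obtain ⟨C2, hC2⟩ : ∃ C2, C2 = 10 * d.M + C2' := ⟨_, rfl⟩
  have hC2b : 4 * (d.M : ℝ) ≤ C2 * (hi - lo) := by
    refine hC2'.le.trans ?_
    apply mul_le_mul_of_nonneg_right _ hδ.le
    have : C2' ≤ C2 := by omega
    exact_mod_cast this
  obtain ⟨Cm, hCm, hmom⟩ := moment d
  obtain ⟨c3, hc3⟩ : ∃ c3, c3 = 3 * (8 * d.M * (C2 + 1) ^ 2 * q ^ 2 * (1 + p + q) ^ 2 + 4) :=
    ⟨_, rfl⟩
  obtain ⟨cG, hcG⟩ : ∃ cG, cG = 64 * d.M * c3 ^ 2 * C1 ^ 4 := ⟨_, rfl⟩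
  obtain ⟨F, hF⟩ : ∃ F : ℝ, F = 128 * (C1 : ℝ) ^ 2 * cG * 216 ^ 18 + 1 := ⟨_, rfl⟩
  have hFpos : 0 < F := by rw [hF]; positivity
  obtain ⟨E, hE⟩ : ∃ E : ℝ, E = 16 * (cG : ℝ) ^ 4 * C1 ^ 2 * Cm * 216 ^ 66 := ⟨_, rfl⟩
  have hE0 : 0 ≤ E := by rw [hE]; positivity
  have hev : ∀ᶠ x : ℝ in Filter.atTop, ‖Real.log x ^ 54‖ ≤ (1 / F) * ‖id x‖ :=
    Real.isLittleO_pow_log_id_atTop.bound (by positivity)
  have hev2 : ∀ᶠ x : ℝ in Filter.atTop, E + 1 ≤ Real.log x :=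
    Real.tendsto_log_atTop.eventually_ge_atTop (E + 1)
  obtain ⟨x1, hx1⟩ := Filter.eventually_atTop.mp (hev.and hev2)
  refine ⟨⌈x1⌉₊ + 256, ?_⟩
  intro N hN
  have hxN : x1 ≤ (N : ℝ) := by
    calc x1 ≤ (⌈x1⌉₊ : ℝ) := Nat.le_ceil _
      _ ≤ N := by exact_mod_cast (by omega : ⌈x1⌉₊ ≤ N)
  obtain ⟨hA, hB⟩ := hx1 N hxN
  obtain ⟨L, hL⟩ : ∃ L, L = Real.log N := ⟨_, rfl⟩
  rw [← hL] at hA hB ⊢
  have hL1 : 1 ≤ L := by linarith
  have hLpos : 0 < L := by linarith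
  have hNpos : (0 : ℝ) < N := by
    have : 0 < N := by omega
    exact_mod_cast this
  rw [id, Real.norm_of_nonneg (by positivity), Real.norm_of_nonneg hNpos.le] at hA
  by_contra hcon
  push Not at hcon
  obtain ⟨l, hl⟩ : ∃ l, l = Nat.log 2 N + 1 := ⟨_, rfl⟩
  have hlL : (l : ℝ) ≤ 3 * L := by
    rw [hl, hL]
    exact log_two_le (by rw [← hL]; exact hL1)
  have hl8 : 8 ≤ l := by
    have : 8 ≤ Nat.log 2 N := by
      apply Nat.le_log_of_pow_le (by norm_num)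
      norm_num
      omega
    omega
  have hNl : N < 2 ^ l := by rw [hl]; exact Nat.lt_pow_succ_log_self (by norm_num) N
  obtain ⟨X, hX⟩ : ∃ X, X = (2 * l) ^ 3 := ⟨_, rfl⟩
  have hX1 : 1 ≤ X := by rw [hX]; exact Nat.one_le_pow _ _ (by omega)
  obtain ⟨B, hBd⟩ : ∃ B : ℝ, B = 216 * L ^ 3 := ⟨_, rfl⟩
  have hB0 : 0 ≤ B := by rw [hBd]; positivity
  have hXB : (X : ℝ) ≤ B := by
    rw [hX, hBd]
    push_cast
    calc (2 * (l : ℝ)) ^ 3 ≤ (2 * (3 * L)) ^ 3 :=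
          pow_le_pow_left₀ (by positivity) (by linarith) 3
      _ = 216 * L ^ 3 := by ring
  obtain ⟨K, hK⟩ : ∃ K, K = C1 * X := ⟨_, rfl⟩
  obtain ⟨W, hW⟩ : ∃ W, W = 3 * (2 * X ^ 2 * (d.M * (2 * (C2 * X ^ 2 + X ^ 2) * q *
      (1 + p + q)) ^ 2) + 3 * X ^ 3 + X ^ 2) := ⟨_, rfl⟩
  have hWle : W ≤ c3 * X ^ 6 := by
    rw [hW, hc3]
    exact W_le X d.M C2 q (1 + p + q) hX1
  obtain ⟨G, hG⟩ : ∃ G, G = 64 * d.M * W ^ 2 * K ^ 4 := ⟨_, rfl⟩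
  have hGle : G ≤ cG * X ^ 16 := by
    rw [hG, hcG, hK]
    calc 64 * d.M * W ^ 2 * (C1 * X) ^ 4 ≤ 64 * d.M * (c3 * X ^ 6) ^ 2 * (C1 * X) ^ 4 :=
          Nat.mul_le_mul_right _ (Nat.mul_le_mul_left _ (Nat.pow_le_pow_left hWle 2))
      _ = 64 * d.M * c3 ^ 2 * C1 ^ 4 * X ^ 16 := by ring
  have hGR : (G : ℝ) ≤ cG * B ^ 16 := by
    calc (G : ℝ) ≤ cG * (X : ℝ) ^ 16 := by exact_mod_cast hGle
      _ ≤ cG * B ^ 16 := by
        apply mul_le_mul_of_nonneg_left _ (by positivity)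
        exact pow_le_pow_left₀ (by positivity) hXB 16
  have hKR : (K : ℝ) ≤ C1 * B := by
    rw [hK]
    push_cast
    exact mul_le_mul_of_nonneg_left hXB (by positivity)
  have hbigR : (128 : ℝ) * K ^ 2 * G ≤ N := by
    calc (128 : ℝ) * K ^ 2 * G ≤ 128 * (C1 * B) ^ 2 * (cG * B ^ 16) := by
          apply mul_le_mul _ hGR (by positivity) (by positivity)
          apply mul_le_mul_of_nonneg_left _ (by norm_num)
          exact pow_le_pow_left₀ (by positivity) hKR 2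
      _ = (128 * (C1 : ℝ) ^ 2 * cG * 216 ^ 18) * L ^ 54 := by rw [hBd]; ring
      _ ≤ F * L ^ 54 := by
        apply mul_le_mul_of_nonneg_right _ (by positivity)
        rw [hF]; linarith
      _ ≤ F * (1 / F * N) := mul_le_mul_of_nonneg_left hA hFpos.le
      _ = N := by field_simp
  have hbig : 128 * K ^ 2 * G ≤ N := by exact_mod_cast hbigR
  have hmain := finite_form H hp hq hπ hJ hlen0 hlen4 hC1' (by omega) hC2b hl8 hNl hX hK hW hG hbig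
  obtain ⟨S, hS⟩ : ∃ S : ℝ, S = ∑ n ∈ SF h d N, ((d.f n).divisors.card : ℝ) := ⟨_, rfl⟩
  rw [← hS] at hmain
  have hS0 : 0 ≤ S := by rw [hS]; positivity
  have hCS : S ^ 2 ≤ ((SF h d N).card : ℝ) * (Cm * N * L ^ 32) := by
    rw [hS]
    calc (∑ n ∈ SF h d N, ((d.f n).divisors.card : ℝ)) ^ 2
        ≤ ((SF h d N).card : ℝ) * ∑ n ∈ SF h d N, ((d.f n).divisors.card : ℝ) ^ 2 :=
          sq_sum_le_card_mul_sum_sq
      _ ≤ ((SF h d N).card : ℝ) * ∑ n ∈ range (N + 1), ((d.f n).divisors.card : ℝ) ^ 2 := by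
          apply mul_le_mul_of_nonneg_left _ (by positivity)
          apply sum_le_sum_of_subset_of_nonneg
          · intro n hn
            rw [mem_SF] at hn
            rw [mem_range]
            omega
          · intro n _ _
            positivity
      _ ≤ ((SF h d N).card : ℝ) * (Cm * N * L ^ 32) := by
          apply mul_le_mul_of_nonneg_left _ (by positivity)
          rw [hL]
          exact hmom N (by omega)
  have hS2 : S ^ 2 ≤ Cm * (N : ℝ) ^ 2 / L ^ 200 := by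
    calc S ^ 2 ≤ ((SF h d N).card : ℝ) * (Cm * N * L ^ 32) := hCS
      _ ≤ (N / L ^ 232) * (Cm * N * L ^ 32) := mul_le_mul_of_nonneg_right hcon.le (by positivity)
      _ = Cm * (N : ℝ) ^ 2 / L ^ 200 := by field_simp
  have hprod : 4 * (G : ℝ) ^ 2 * K ≤ 4 * (cG * B ^ 16) ^ 2 * (C1 * B) := by
    apply mul_le_mul _ hKR (by positivity) (by positivity)
    apply mul_le_mul_of_nonneg_left _ (by norm_num)
    exact pow_le_pow_left₀ (by positivity) hGR 2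
  have hfin : (N : ℝ) ^ 2 < E / L ^ 2 * (N : ℝ) ^ 2 := by
    calc (N : ℝ) ^ 2 < (4 * (G : ℝ) ^ 2 * K * S) ^ 2 :=
          pow_lt_pow_left₀ hmain hNpos.le two_ne_zero
      _ = (4 * (G : ℝ) ^ 2 * K) ^ 2 * S ^ 2 := by ring
      _ ≤ (4 * (cG * B ^ 16) ^ 2 * (C1 * B)) ^ 2 * (Cm * (N : ℝ) ^ 2 / L ^ 200) := by
          apply mul_le_mul _ hS2 (by positivity) (by positivity)
          exact pow_le_pow_left₀ (by positivity) hprod 2
      _ = E / L ^ 2 * (N : ℝ) ^ 2 := by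
          rw [hE, hBd]
          field_simp
          ring
  have hEL : E / L ^ 2 ≤ 1 := by
    rw [div_le_one (by positivity)]
    nlinarith
  have : E / L ^ 2 * (N : ℝ) ^ 2 ≤ 1 * (N : ℝ) ^ 2 :=
    mul_le_mul_of_nonneg_right hEL (by positivity)
  linarith

end Pool.Agent.H492R2
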