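import Pool.Agent.H492R2.Defs

/-!
Tasks PER1, PER1b (helper294).
-/

namespace Pool.Agent.H492R2

open Finset

/-- PER1 -/
theorem diff_identity (w : ℕ → ZMod 2) (T : Finset ℕ) (n : ℕ) :
    ∑ I ∈ T.powerset, ∑ x ∈ T, w (n + ∑ i ∈ I, i + x * (T.card + 1 - I.card)) = 0 := by
  rw [Finset.sum_comm]
  refine Finset.sum_eq_zero fun x hx => ?_
  have hins : insert x (T.erase x) = T := Finset.insert_erase hx
  have key : ∀ f : Finset ℕ → ZMod 2, (∀ t ∈ (T.erase x).powerset, f (insert x t) = f t) →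
      ∑ I ∈ T.powerset, f I = 0 := by
    intro f hf
    rw [← hins, Finset.sum_powerset_insert (Finset.notMem_erase x T)]
    rw [Finset.sum_congr rfl hf]
    exact CharTwo.add_self_eq_zero _
  apply key
  intro t ht
  rw [Finset.mem_powerset] at ht
  have hxt : x ∉ t := fun h => Finset.notMem_erase x T (ht h)
  have hcard : t.card + 1 ≤ T.card := by
    have h1 := Finset.card_le_card ht
    rw [Finset.card_erase_of_mem hx] at h1
    have h2 : 0 < T.card := Finset.card_pos.mpr ⟨x, hx⟩
    omega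
  rw [Finset.sum_insert hxt, Finset.card_insert_of_notMem hxt]
  congr 1
  have h3 : T.card + 1 - t.card = (T.card + 1 - (t.card + 1)) + 1 := by omega
  rw [h3]
  ring

lemma Sh_pow_apply (m : ℕ) (u : ℕ → ZMod 2) (n : ℕ) : (Sh ^ m) u n = u (n + m) := by
  induction m generalizing u n with
  | zero => simp
  | succ m ih =>
    rw [pow_succ, Module.End.mul_apply, ih]
    show u (n + m + 1) = _
    congr 1

/-- PER1b -/
theorem op_PP_one (T : Finset ℕ) (u : ℕ → ZMod 2) (n : ℕ) :
    op (PP T 1) u n = ∑ I ∈ T.powerset, u (n + ∑ i ∈ I, i) := by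
  unfold op PP
  simp only [Nat.gcd_one_right, Nat.div_one]
  rw [Finset.prod_add_one]
  rw [map_sum, LinearMap.sum_apply, Finset.sum_apply]
  refine Finset.sum_congr rfl fun c _ => ?_
  rw [show (∏ i ∈ c, (Polynomial.X : Polynomial (ZMod 2)) ^ i) = Polynomial.X ^ (∑ i ∈ c, i) from
    Finset.prod_pow_eq_pow_sum c (fun i => i) Polynomial.X]
  rw [map_pow, Polynomial.aeval_X, Sh_pow_apply]

end Pool.Agent.H492R2
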