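import Pool.Agent.H492R2.Defs
import Pool.Agent.H358R2.Main
import Pool.Agent.H359R2.MainOne

/-!
Stubs (statements of the tasks).
-/

namespace Pool.Agent.H492R2

open Finset Pool.Agent.H358R2

/-- PTE: pigeonhole on subsets of `[0,X)` and the vector of the first `j` power sums. -/
theorem pte (j X : ℕ) (hj : 1 ≤ j) (hX : (X ^ j + 1) ^ j < 2 ^ X) :
    ∃ A B : Finset ℕ, A ⊆ range X ∧ B ⊆ range X ∧ Disjoint A B ∧ A.Nonempty ∧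
      B.Nonempty ∧ ∀ l < j, ∑ x ∈ A, x ^ l = ∑ x ∈ B, x ^ l := by
  sorry

theorem pte_cube (j : ℕ) (hj : 16 ≤ j) :
    ∃ A B : Finset ℕ, A ⊆ range (j ^ 3) ∧ B ⊆ range (j ^ 3) ∧ Disjoint A B ∧ A.Nonempty ∧
      B.Nonempty ∧ ∀ l < j, ∑ x ∈ A, x ^ l = ∑ x ∈ B, x ^ l := by
  sorry

/-- ANG: total angle of a Prouhet-Tarry-Escott pattern. -/
theorem angle_small (p y : ℝ) (hp : 0 < p) (r X j : ℕ) (hj : 1 ≤ j)
    (A B : Finset ℕ) (hA : A ⊆ range X) (hB : B ⊆ range X)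
    (hAB : ∀ l < j, ∑ x ∈ A, x ^ l = ∑ x ∈ B, x ^ l) (h : 2 * (r : ℝ) * X ≤ p) :
    |∑ x ∈ A, Real.arctan (y / (p + r * x)) - ∑ x ∈ B, Real.arctan (y / (p + r * x))| ≤
      4 * X / 2 ^ j := by
  sorry

/-- PER1 -/
theorem diff_identity (w : ℕ → ZMod 2) (T : Finset ℕ) (n : ℕ) :
    ∑ I ∈ T.powerset, ∑ x ∈ T, w (n + ∑ i ∈ I, i + x * (T.card + 1 - I.card)) = 0 := by
  sorry

/-- PER1b -/
theorem op_PP_one (T : Finset ℕ) (u : ℕ → ZMod 2) (n : ℕ) :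
    op (PP T 1) u n = ∑ I ∈ T.powerset, u (n + ∑ i ∈ I, i) := by
  sorry

/-- PER2 : a sequence killed by all the `PP T k` has period `2 ^ a`. -/
theorem period_two_pow (T : Finset ℕ) (X : ℕ) (hT : ∀ x ∈ T, 1 ≤ x ∧ x < X) (a : ℕ)
    (ha : T.card ≤ 2 ^ a) (U : ℕ → ZMod 2)
    (hk : ∀ k, 1 ≤ k → k ≤ X → ∀ n, op (PP T k) U n = 0) (n : ℕ) : U (n + 2 ^ a) = U n := by
  sorry

/-- PER3 : the same on a finite window. -/
theorem window_period (T : Finset ℕ) (X : ℕ) (hX : 1 ≤ X) (hT : ∀ x ∈ T, 1 ≤ x ∧ x < X) (a : ℕ)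
    (ha : T.card ≤ 2 ^ a) (ha2 : 2 ^ a ≤ 2 * X) (u : ℕ → ZMod 2)
    (hk : ∀ k, 1 ≤ k → k ≤ X → ∀ m ≤ 2 * X ^ 2, op (PP T k) u m = 0) : u (2 ^ a) = u 0 := by
  sorry

/-- PER4 : passing to multiples of `k`. -/
theorem op_dilate (T : Finset ℕ) (X k : ℕ) (hT : ∀ x ∈ T, 1 ≤ x ∧ x < X) (hk : 1 ≤ k) (hkX : k ≤ X)
    (u v : ℕ → ZMod 2) (huv : ∀ m, v (k * m) = u m) (S : ℕ)
    (hv : ∀ s ≤ S, op (PP T 1) v s = 0) (m : ℕ) (hm : k * m + X ^ 3 ≤ S) :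
    op (PP T k) u m = 0 := by
  sorry

/-- CNT1 : as `card_badF`, without the uniform divisor bound. -/
theorem card_badF2 (h : ℕ → ℤ) (d : QF) (A R : ℕ) :
    A * (badF h d A R).card ≤
      (∑ N ∈ SF h d (d.M * R ^ 2), (d.f N).divisors.card) * (4 * d.M * R ^ 2) := by
  sorry

/-- CNT2 : second moment of the divisor function at values of the quadratic. -/
theorem moment (d : QF) : ∃ C : ℝ, 0 < C ∧ ∀ N : ℕ, 3 ≤ N →
    ∑ n ∈ range (N + 1), ((d.f n).divisors.card : ℝ) ^ 2 ≤ C * N * (Real.log N) ^ 32 := by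
  sorry

/-- SQF : `n ^ 2 + 1` is squarefree up to a polylogarithmic square factor, except for few `n`. -/
theorem nearsq (P : ℕ → Prop) (a : ℕ)
    (hP : ∃ N0 : ℕ, ∀ N : ℕ, N0 ≤ N →
      (N : ℝ) / (Real.log N) ^ a ≤ ((Set.ncard {n : ℕ | n ≤ N ∧ P n} : ℕ) : ℝ)) :
    ∃ N0 : ℕ, ∀ N : ℕ, N0 ≤ N → (N : ℝ) / (Real.log N) ^ (a + 1) ≤
      ((Set.ncard {n : ℕ | n ≤ N ∧ P n ∧ ∃ s m : ℕ, n ^ 2 + 1 = s ^ 2 * m ∧ Squarefree m ∧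
        (s : ℝ) ≤ (Real.log N) ^ (a + 6)} : ℕ) : ℝ) := by
  sorry

/-- PLUS : positive signs are always plentiful (in a Farey triangle `a, b, a + b` the product of
the three edge signs is one). -/
theorem plus_many (h : ℕ → ℤ) (H : CM h) (d : QF) : ∃ c : ℝ, 0 < c ∧ ∃ Q0 : ℕ, ∀ Q : ℕ, Q0 ≤ Q →
    c * (Q : ℝ) ^ 2 ≤ ((∑ N ∈ (range (4 * d.M * Q ^ 2 + 1)).filter (fun N => h (d.f N) = 1),
      (d.f N).divisors.card : ℕ) : ℝ) := by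
  sorry

end Pool.Agent.H492R2
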