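import Pool.Agent.H358R2.Main

/-!
Walking along a list of rotations by elements `n + m τ`.
-/

namespace Pool.Agent.H492R2

open Pool.Agent.H358R2

/-- angle of a rotation by `n + m τ` or its conjugate -/
noncomputable def al (d : QF) (ω : ℕ × ℕ × Bool) : ℝ :=
  if ω.2.2 then Real.arctan (d.κ * ω.2.1 / ((ω.1 : ℝ) + (d.b : ℝ) / 2 * ω.2.1))
  else -Real.arctan (d.κ * ω.2.1 / ((ω.1 : ℝ) + (d.b : ℝ) / 2 * ω.2.1))

/-- multiplication by `n + m τ` or by its conjugate -/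
def act (d : QF) (ω : ℕ × ℕ × Bool) (u : ℕ × ℕ) : ℕ × ℕ :=
  if ω.2.2 then (ω.1 * u.1 - d.c * ω.2.1 * u.2, ω.1 * u.2 + ω.2.1 * u.1 + d.b * ω.2.1 * u.2)
  else ((ω.1 + d.b * ω.2.1) * u.1 + d.c * ω.2.1 * u.2, ω.1 * u.2 - ω.2.1 * u.1)

/-- the norm of `n + m τ` -/
def nw (d : QF) (ω : ℕ × ℕ × Bool) : ℕ := nm d (ω.1, ω.2.1)

/-- admissible rotations -/
def Ok (d : QF) (ω : ℕ × ℕ × Bool) : Prop := 1 ≤ ω.1 ∧ 10 * d.M * ω.2.1 ≤ ω.1

theorem mid_ineq {d : QF} {ω : ℕ × ℕ × Bool} (hω : Ok d ω) {u : ℕ × ℕ} (hu : Mid u) :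
    d.c * ω.2.1 * u.2 < ω.1 * u.1 ∧ ω.2.1 * u.1 ≤ ω.1 * u.2 := by
  obtain ⟨h0, h1, h2⟩ := hu
  obtain ⟨hn, hω⟩ := hω
  have hcM : d.c ≤ d.M := by unfold QF.M; omega
  have hM := d.M_pos
  have e0 : 0 < ω.1 * u.1 := Nat.mul_pos (by omega) h0
  have e1 : 10 * d.M * ω.2.1 * u.1 ≤ ω.1 * u.1 := Nat.mul_le_mul_right _ hω
  have e2 : d.c * ω.2.1 * u.2 ≤ d.M * ω.2.1 * (4 * u.1) :=
    Nat.mul_le_mul (Nat.mul_le_mul_right _ hcM) h2
  have e4 : 10 * d.M * ω.2.1 * u.2 ≤ ω.1 * u.2 := Nat.mul_le_mul_right _ hω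
  have e5 : ω.2.1 * u.1 ≤ ω.2.1 * (4 * u.2) := Nat.mul_le_mul_left _ h1
  have e6 : 1 * (ω.2.1 * u.2) ≤ d.M * (ω.2.1 * u.2) := Nat.mul_le_mul_right _ hM
  constructor <;> nlinarith

theorem nm_act_int {n m b c x y : ℤ} :
    (n * x - c * m * y) ^ 2 + b * ((n * x - c * m * y) * (n * y + m * x + b * m * y)) +
      c * (n * y + m * x + b * m * y) ^ 2 =
      (n ^ 2 + b * (n * m) + c * m ^ 2) * (x ^ 2 + b * (x * y) + c * y ^ 2) := by
  ring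

theorem nm_act_int' {n m b c x y : ℤ} :
    ((n + b * m) * x + c * m * y) ^ 2 + b * (((n + b * m) * x + c * m * y) * (n * y - m * x)) +
      c * (n * y - m * x) ^ 2 =
      (n ^ 2 + b * (n * m) + c * m ^ 2) * (x ^ 2 + b * (x * y) + c * y ^ 2) := by
  ring

theorem nm_act {d : QF} {ω : ℕ × ℕ × Bool} (hω : Ok d ω) {u : ℕ × ℕ} (hu : Mid u) :
    nm d (act d ω u) = nw d ω * nm d u := by
  obtain ⟨g1, g2⟩ := mid_ineq hω hu
  unfold act nw nm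
  split_ifs
  · have := nm_act_int (n := ω.1) (m := ω.2.1) (b := d.b) (c := d.c) (x := u.1) (y := u.2)
    zify [g1.le]
    exact this
  · have := nm_act_int' (n := ω.1) (m := ω.2.1) (b := d.b) (c := d.c) (x := u.1) (y := u.2)
    zify [g2]
    exact this

theorem act_pos {d : QF} {ω : ℕ × ℕ × Bool} (hω : Ok d ω) {u : ℕ × ℕ} (hu : Mid u) :
    0 < (act d ω u).1 := by
  obtain ⟨g1, g2⟩ := mid_ineq hω hu
  unfold act
  split_ifs
  · simp only; omega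
  · have h2 : ω.1 * u.1 ≤ (ω.1 + d.b * ω.2.1) * u.1 := Nat.mul_le_mul_right _ (by omega)
    simp only; omega

theorem sz_act {d : QF} (ω : ℕ × ℕ × Bool) (u : ℕ × ℕ) :
    sz (act d ω u) ≤ (ω.1 + d.M * ω.2.1) * sz u := by
  unfold act sz QF.M
  split_ifs
  · simp only
    have h1 : ω.1 * u.1 - d.c * ω.2.1 * u.2 ≤ ω.1 * u.1 := Nat.sub_le _ _
    have h2 : (ω.1 + (1 + d.b + d.c) * ω.2.1) * (u.1 + u.2) =
      ω.1 * u.1 + ω.1 * u.2 + ω.2.1 * u.1 + d.b * ω.2.1 * u.2 +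
        (ω.2.1 * u.2 + d.b * ω.2.1 * u.1 + d.c * ω.2.1 * (u.1 + u.2)) := by ring
    omega
  · simp only
    have h1 : ω.1 * u.2 - ω.2.1 * u.1 ≤ ω.1 * u.2 := Nat.sub_le _ _
    have h2 : (ω.1 + (1 + d.b + d.c) * ω.2.1) * (u.1 + u.2) =
      (ω.1 + d.b * ω.2.1) * u.1 + d.c * ω.2.1 * u.2 + ω.1 * u.2 +
        (ω.2.1 * (u.1 + u.2) + d.b * ω.2.1 * u.2 + d.c * ω.2.1 * u.1) := by ring
    omega

theorem ag_act {d : QF} {ω : ℕ × ℕ × Bool} (hω : Ok d ω) {u : ℕ × ℕ} (hu : Mid u) :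
    ag d (act d ω u) = ag d u + al d ω := by
  obtain ⟨g1, g2⟩ := mid_ineq hω hu
  have hu0 := hu.1
  have hu1 : (0 : ℝ) < u.1 := by exact_mod_cast hu0
  have hM := d.M_pos
  have hn0 : 0 < ω.1 := hω.1
  have hn : (0 : ℝ) < ω.1 := by exact_mod_cast hn0
  have hm : (0 : ℝ) ≤ ω.2.1 := Nat.cast_nonneg _
  have hu2 : (0 : ℝ) ≤ u.2 := Nat.cast_nonneg _
  have hb : (0 : ℝ) ≤ d.b := Nat.cast_nonneg _
  have hc : (0 : ℝ) ≤ d.c := Nat.cast_nonneg _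
  have p1 : (0 : ℝ) < (ω.1 : ℝ) * u.1 - d.c * ω.2.1 * u.2 := by
    have g1' : (d.c : ℝ) * ω.2.1 * u.2 < ω.1 * u.1 := by exact_mod_cast g1
    linarith
  have p2 : (0 : ℝ) ≤ (ω.1 : ℝ) * u.2 - ω.2.1 * u.1 := by
    have g2' : (ω.2.1 : ℝ) * u.1 ≤ ω.1 * u.2 := by exact_mod_cast g2
    linarith
  have hk := d.κ_pos
  have hk2 := d.κ_sq
  unfold ag al
  have htn : ∀ v : ℕ × ℕ, 0 < v.1 → tn d (sl v) = d.κ * v.2 / (v.1 + (d.b : ℝ) / 2 * v.2) := by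
    intro v hv
    have hv' : (0 : ℝ) < v.1 := by exact_mod_cast hv
    have hv2 : (0 : ℝ) ≤ v.2 := Nat.cast_nonneg _
    unfold tn sl
    field_simp
  rw [htn _ (act_pos hω hu), htn u hu0]
  have hD1 : (0 : ℝ) < u.1 + (d.b : ℝ) / 2 * u.2 := by positivity
  have hD2 : (0 : ℝ) < (ω.1 : ℝ) + (d.b : ℝ) / 2 * ω.2.1 := by positivity
  by_cases hbb : ω.2.2 = true
  · simp only [hbb, if_true]
    have hkey : 1 - d.κ * u.2 / (u.1 + (d.b : ℝ) / 2 * u.2) *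
          (d.κ * ω.2.1 / ((ω.1 : ℝ) + (d.b : ℝ) / 2 * ω.2.1)) =
        ((ω.1 * u.1 - d.c * ω.2.1 * u.2) +
          (d.b : ℝ) / 2 * (ω.1 * u.2 + ω.2.1 * u.1 + d.b * ω.2.1 * u.2)) /
          ((u.1 + (d.b : ℝ) / 2 * u.2) * ((ω.1 : ℝ) + (d.b : ℝ) / 2 * ω.2.1)) := by
      rw [div_mul_div_comm, eq_div_iff (by positivity), sub_mul, div_mul_cancel₀ _ (by positivity)]
      have : d.κ * (u.2 : ℝ) * (d.κ * ω.2.1) = d.κ ^ 2 * u.2 * ω.2.1 := by ring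
      rw [this, hk2]
      ring
    have hnum : (0 : ℝ) < (ω.1 * u.1 - d.c * ω.2.1 * u.2) +
        (d.b : ℝ) / 2 * (ω.1 * u.2 + ω.2.1 * u.1 + d.b * ω.2.1 * u.2) := by
      positivity
    rw [Real.arctan_add]
    · congr 1
      rw [hkey]
      unfold act
      simp only [hbb, if_true]
      rw [Nat.cast_sub g1.le]
      push_cast
      rw [div_add_div _ _ hD1.ne' hD2.ne', div_div_div_cancel_right₀ (by positivity)]
      congr 1
      ring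
    · have : 0 < 1 - d.κ * u.2 / (u.1 + (d.b : ℝ) / 2 * u.2) *
          (d.κ * ω.2.1 / ((ω.1 : ℝ) + (d.b : ℝ) / 2 * ω.2.1)) := by
        rw [hkey]; positivity
      linarith
  · have hb' : ω.2.2 = false := by simpa using hbb
    simp only [hb', Bool.false_eq_true, if_false]
    have hkey : 1 - d.κ * u.2 / (u.1 + (d.b : ℝ) / 2 * u.2) *
          (-(d.κ * ω.2.1 / ((ω.1 : ℝ) + (d.b : ℝ) / 2 * ω.2.1))) =
        (((ω.1 + d.b * ω.2.1) * u.1 + d.c * ω.2.1 * u.2) +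
          (d.b : ℝ) / 2 * (ω.1 * u.2 - ω.2.1 * u.1)) /
          ((u.1 + (d.b : ℝ) / 2 * u.2) * ((ω.1 : ℝ) + (d.b : ℝ) / 2 * ω.2.1)) := by
      rw [mul_neg, div_mul_div_comm, eq_div_iff (by positivity), sub_neg_eq_add, add_mul,
        div_mul_cancel₀ _ (by positivity)]
      have : d.κ * (u.2 : ℝ) * (d.κ * ω.2.1) = d.κ ^ 2 * u.2 * ω.2.1 := by ring
      rw [this, hk2]
      ring
    rw [← Real.arctan_neg, Real.arctan_add]
    · congr 1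
      rw [hkey]
      unfold act
      simp only [hb', Bool.false_eq_true, if_false]
      rw [Nat.cast_sub g2]
      push_cast
      rw [← neg_div, div_add_div _ _ hD1.ne' hD2.ne', div_div_div_cancel_right₀ (by positivity)]
      congr 1
      ring
    · rw [mul_neg]
      have : 0 ≤ d.κ * u.2 / (u.1 + (d.b : ℝ) / 2 * u.2) *
          (d.κ * ω.2.1 / ((ω.1 : ℝ) + (d.b : ℝ) / 2 * ω.2.1)) := by
        positivity
      linarith

/-- there is a good vector near `θ` -/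
def GU (h : ℕ → ℤ) (d : QF) (A : ℕ) (r θ : ℝ) (ω : ℕ × ℕ × Bool) : Prop :=
  ∃ u, Mid u ∧ |ag d u - θ| ≤ r ∧ ¬ Bad h d A u ∧ ¬ Bad h d A (act d ω u)

/-- total angle -/
noncomputable def tot (d : QF) : List (ℕ × ℕ × Bool) → ℝ
  | [] => 0
  | ω :: L => al d ω + tot d L

/-- total sign -/
def sg (h : ℕ → ℤ) (d : QF) : List (ℕ × ℕ × Bool) → ℤ
  | [] => 1
  | ω :: L => h (nw d ω) * sg h d L

/-- everything is good along the list -/
def AG (h : ℕ → ℤ) (d : QF) (A : ℕ) (ρ r : ℝ) : List (ℕ × ℕ × Bool) → ℝ → Prop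
  | [], _ => True
  | ω :: L, θ => GU h d A r θ ω ∧ (∃ a b, At d A ρ (θ + al d ω) a b) ∧ AG h d A ρ r L (θ + al d ω)

theorem nw_ne {d : QF} {ω : ℕ × ℕ × Bool} (hω : Ok d ω) : nw d ω ≠ 0 := by
  apply nm_pos_of_sz
  have := hω.1
  unfold sz
  simp only
  omega

theorem step {h : ℕ → ℤ} (H : CM h) {d : QF} {A : ℕ} {μ r θ : ℝ} (hr : r < μ)
    {ω : ℕ × ℕ × Bool} (hω : Ok d ω) (hG : GU h d A r θ ω) {a b a' b' : ℕ × ℕ}
    (hab : At d A μ θ a b) (hab' : At d A μ (θ + al d ω) a' b') :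
    h (nm d a') = h (nw d ω) * h (nm d a) := by
  obtain ⟨u, hM, hu, hb1, hb2⟩ := hG
  have e1 := hab.color H hr hM.1 hu hb1
  have e2 : h (nm d (act d ω u)) = h (nm d a') := by
    apply hab'.color H hr (act_pos hω hM) _ hb2
    rw [ag_act hω hM]
    have : ag d u + al d ω - (θ + al d ω) = ag d u - θ := by ring
    rw [this]; exact hu
  have hnu : nm d u ≠ 0 := by
    apply nm_pos_of_sz
    have := hM.1
    unfold sz; omega
  rw [← e2, nm_act hω hM, H.mul _ _ (nw_ne hω) hnu, e1]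

theorem walk {h : ℕ → ℤ} (H : CM h) {d : QF} {A : ℕ} {μ ρ r : ℝ} (hr : r < μ)
    (hμ : μ ≤ ρ) :
    ∀ (L : List (ℕ × ℕ × Bool)) (ω : ℕ × ℕ × Bool) (θ : ℝ) (a b a' b' : ℕ × ℕ),
      (∀ ω' ∈ ω :: L, Ok d ω') → AG h d A ρ r (ω :: L) θ → At d A μ θ a b →
      At d A μ (θ + tot d (ω :: L)) a' b' → h (nm d a') = sg h d (ω :: L) * h (nm d a) := by
  intro L
  induction L with
  | nil =>
    intro ω θ a b a' b' hL hAG hab hab'
    obtain ⟨hG, -, -⟩ := hAG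
    simp only [tot, add_zero] at hab'
    simp only [sg, mul_one]
    exact step H hr (hL ω (by simp)) hG hab hab'
  | cons ω' L ih =>
    intro ω θ a b a' b' hL hAG hab hab'
    obtain ⟨hG, ⟨a1, b1, h1⟩, hAG'⟩ := hAG
    have h1' := h1.mono hμ
    have e1 := step H hr (hL ω (by simp)) hG hab h1'
    have e2 := ih ω' (θ + al d ω) a1 b1 a' b' (fun x hx => hL x (List.mem_cons_of_mem _ hx)) hAG'
      h1'
      (by
        have : θ + al d ω + tot d (ω' :: L) = θ + tot d (ω :: ω' :: L) := by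
          simp only [tot]; ring
        rw [this]; exact hab')
    rw [e2, e1]
    simp only [sg]
    ring

end Pool.Agent.H492R2
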